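import Pool.Agent.Helper727.Cub.Check

namespace Pool.Agent.Helper727.Cub

open Finset

lemma testBit_R (T a i : ℕ) : (R T a).testBit i = (decide (i < 192) && T.testBit (192 * a + i)) := by
  have h : R T a = (T >>> (192 * a)) % 2 ^ 192 := rfl
  rw [h, Nat.testBit_mod_two_pow, Nat.testBit_shiftRight]

lemma testBit_land' (x y i : ℕ) : (Nat.land x y).testBit i = (x.testBit i && y.testBit i) :=
  Nat.testBit_and x y i

lemma testBit_lor' (x y i : ℕ) : (Nat.lor x y).testBit i = (x.testBit i || y.testBit i) :=
  Nat.testBit_or x y i

lemma testBit_one' (i : ℕ) : Nat.testBit 1 i = decide (i = 0) := by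
  cases i with
  | zero => rfl
  | succ n =>
    rw [Nat.testBit_succ]
    simp

lemma testBit_one_shl (k i : ℕ) : (Nat.shiftLeft 1 k).testBit i = decide (i = k) := by
  have h : Nat.shiftLeft 1 k = 1 <<< k := rfl
  rw [h, Nat.testBit_shiftLeft]
  by_cases hik : i = k
  · subst hik
    simp
  · by_cases h2 : k ≤ i
    · have h3 : i - k ≠ 0 := by omega
      rw [testBit_one']
      simp [hik, h3]
    · simp [hik, h2]

lemma testBit_m3 (x y z i : ℕ) :
    (m3 x y z).testBit i = (decide (i = 3 * x) || decide (i = 3 * y) || decide (i = 3 * z)) := by
  unfold m3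
  rw [testBit_lor', testBit_lor', testBit_one_shl, testBit_one_shl, testBit_one_shl]
  rfl

/-- all set bits of `x` are at positions `3 * b` with `b < k` -/
def Good (k x : ℕ) : Prop := ∀ i, x.testBit i = true → ∃ b < k, i = 3 * b

lemma cn_eq : ∀ (k x : ℕ), Good k x →
    cn x = ((range k).filter (fun b => x.testBit (3 * b) = true)).card % 7 := by
  intro k
  induction k with
  | zero =>
    intro x hx
    have : x = 0 := by
      apply Nat.eq_of_testBit_eq
      intro i
      rw [Nat.zero_testBit]
      by_contra h
      have h1 : x.testBit i = true := by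
        cases hh : x.testBit i
        · exact absurd hh h
        · rfl
      obtain ⟨b, hb, _⟩ := hx i h1
      omega
    subst this
    rfl
  | succ k ih =>
    intro x hx
    have h8 : ∀ i, (x / 8).testBit i = x.testBit (i + 3) := by
      intro i
      have : x / 8 = x >>> 3 := by
        rw [Nat.shiftRight_eq_div_pow]
      rw [this, Nat.testBit_shiftRight, Nat.add_comm]
    have hg : Good k (x / 8) := by
      intro i hi
      rw [h8] at hi
      obtain ⟨b, hb, hb2⟩ := hx _ hi
      refine ⟨b - 1, by omega, by omega⟩
    have h1 : x.testBit 1 = false := by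
      by_contra h
      have h1 : x.testBit 1 = true := by simpa using h
      obtain ⟨b, _, hb2⟩ := hx _ h1
      omega
    have h2 : x.testBit 2 = false := by
      by_contra h
      have h1 : x.testBit 2 = true := by simpa using h
      obtain ⟨b, _, hb2⟩ := hx _ h1
      omega
    have hmod : x % 8 = if x.testBit 0 = true then 1 else 0 := by
      apply Nat.eq_of_testBit_eq
      intro i
      have : x % 8 = x % 2 ^ 3 := rfl
      rw [this, Nat.testBit_mod_two_pow]
      rcases i with _ | _ | _ | i
      · by_cases h0 : x.testBit 0 = true
        · simp [h0]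
        · simp [h0]
      · by_cases h0 : x.testBit 0 = true
        · simp [h0, h1]; decide
        · simp [h0, h1]
      · by_cases h0 : x.testBit 0 = true
        · simp [h0, h2]; decide
        · simp [h0, h2]
      · have h3 : ¬ (i + 1 + 1 + 1 < 3) := by omega
        simp only [h3, decide_false, Bool.false_and]
        by_cases h0 : x.testBit 0 = true
        · simp only [h0, if_true]
          rw [testBit_one']
          simp
        · simp [h0]
    have hcard : ((range (k + 1)).filter (fun b => x.testBit (3 * b) = true)).card =
        (if x.testBit 0 = true then 1 else 0) +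
          ((range k).filter (fun b => (x / 8).testBit (3 * b) = true)).card := by
      rw [Finset.card_filter, Finset.card_filter, Finset.sum_range_succ']
      rw [Nat.add_comm]
      congr 1
      apply Finset.sum_congr rfl
      intro b _
      rw [h8]
      rfl
    have hx8 : x = 8 * (x / 8) + x % 8 := by omega
    have hcn : cn x = x % 7 := rfl
    have hcn8 : cn (x / 8) = (x / 8) % 7 := rfl
    have := ih _ hg
    rw [hcn8] at this
    rw [hcn, hcard, ← hmod]
    omega

end Pool.Agent.Helper727.Cub
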