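import Pool.Agent.Helper727.Cub.Sem

namespace Pool.Agent.Helper727.Cub

open Finset

lemma disc_iff {n0 n1 l : ℕ} :
    disc n0 n1 l = true ↔ (l % 2 = 0 ∧ l / 2 < n0) ∨ (l % 2 = 1 ∧ l / 2 < n1) := by
  unfold disc
  rw [Nat.blt_eq]
  have e : Nat.mod l 2 = l % 2 := rfl
  rw [e]
  rcases Nat.mod_two_eq_zero_or_one l with h | h
  · rw [h]
    simp
  · rw [h]
    have e2 : Nat.beq 1 0 = false := rfl
    rw [e2]
    simp

lemma mem_lst : ∀ (k o l : ℕ), l ∈ lst k o ↔ ∃ j < k, l = o + 2 * j := by
  intro k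
  induction k with
  | zero =>
    intro o l
    simp [lst]
  | succ k ih =>
    intro o l
    have e : Nat.add o 2 = o + 2 := rfl
    rw [lst, List.mem_cons, ih, e]
    constructor
    · rintro (h | ⟨j, hj, h⟩)
      · exact ⟨0, by omega, by omega⟩
      · exact ⟨j + 1, by omega, by omega⟩
    · rintro ⟨j, hj, h⟩
      rcases j with _ | j
      · left; omega
      · right; exact ⟨j, by omega, by omega⟩

lemma lst_sorted : ∀ (k o : ℕ), (lst k o).Pairwise (· < ·) := by
  intro k
  induction k with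
  | zero => intro o; simp [lst]
  | succ k ih =>
    intro o
    rw [lst, List.pairwise_cons]
    refine ⟨?_, ih _⟩
    intro l hl
    rw [mem_lst] at hl
    obtain ⟨j, _, h⟩ := hl
    have e : Nat.add o 2 = o + 2 := rfl
    omega

lemma length_lst : ∀ (k o : ℕ), (lst k o).length = k := by
  intro k
  induction k with
  | zero => intro o; rfl
  | succ k ih => intro o; rw [lst, List.length_cons, ih]

lemma mem_true {x : ℕ} : ∀ {l : List ℕ}, mem x l = true ↔ x ∈ l := by
  intro l
  induction l with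
  | nil => simp [mem]
  | cons y l ih => simp [mem, ih]

lemma subs_mem : ∀ (l : List ℕ) (k : ℕ) (S : List ℕ), S.Sublist l → S.length ≤ k →
    S ∈ subs k l := by
  intro l
  induction l with
  | nil =>
    intro k S hS _
    have : S = [] := List.sublist_nil.1 hS
    subst this
    cases k <;> simp [subs]
  | cons a l ih =>
    intro k S hS hk
    cases k with
    | zero =>
      have : S = [] := List.length_eq_zero_iff.1 (by omega)
      subst this
      simp [subs]
    | succ k =>
      rw [subs, List.mem_append, List.mem_map]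
      cases hS with
      | cons _ h =>
        right
        exact ih _ _ h hk
      | cons_cons _ h =>
        left
        refine ⟨_, ih _ _ h ?_, rfl⟩
        simpa using hk

lemma mem_tw {T : ℕ} : ∀ {C : List ℕ}, C.Pairwise (· < ·) → ∀ {w w' : ℕ}, (w, w') ∈ tw T C →
    w ∈ C ∧ w' ∈ C ∧ w < w' ∧ R T w = R T w' := by
  intro C
  induction C with
  | nil => intro _ w w' h; simp [tw] at h
  | cons a c ih =>
    intro hs w w' h
    rw [List.pairwise_cons] at hs
    rw [tw, List.mem_append, List.mem_map] at h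
    rcases h with ⟨x, hx, hxe⟩ | h
    · rw [List.mem_filter] at hx
      have h1 : a = w := congrArg Prod.fst hxe
      have h2 : x = w' := congrArg Prod.snd hxe
      subst h1 h2
      exact ⟨by simp, by simp [hx.1], hs.1 _ hx.1, Nat.eq_of_beq_eq_true hx.2⟩
    · obtain ⟨h1, h2, h3, h4⟩ := ih hs.2 h
      exact ⟨by simp [h1], by simp [h2], h3, h4⟩

lemma testBit_addE (u : ℕ) : ∀ (ws : List ℕ) (T i : ℕ), (addE u T ws).testBit i = true ↔
    T.testBit i = true ∨ ∃ w ∈ ws, i = 192 * u + 3 * w ∨ i = 192 * w + 3 * u := by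
  intro ws
  induction ws with
  | nil => intro T i; simp [addE]
  | cons w l ih =>
    intro T i
    rw [addE, ih, testBit_lor', testBit_lor', testBit_one_shl, testBit_one_shl]
    have e1 : ∀ x y : ℕ, Nat.add x y = x + y := fun _ _ => rfl
    have e2 : ∀ x y : ℕ, Nat.mul x y = x * y := fun _ _ => rfl
    simp only [e1, e2, Bool.or_eq_true, decide_eq_true_eq, List.mem_cons, exists_eq_or_imp]
    constructor
    · rintro (((h | h) | h) | h)
      · exact Or.inl h
      · exact Or.inr (Or.inl (Or.inl h))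
      · exact Or.inr (Or.inl (Or.inr h))
      · exact Or.inr (Or.inr h)
    · rintro (h | (h | h) | h)
      · exact Or.inl (Or.inl (Or.inl h))
      · exact Or.inl (Or.inl (Or.inr h))
      · exact Or.inl (Or.inr h)
      · exact Or.inr h

variable {V : Type*} [Fintype V] [DecidableEq V]
variable {H : SimpleGraph V} [DecidableRel H.Adj] {col : V → Bool} {D : ℕ → Prop} {f : ℕ → V}
  {T : ℕ}

lemma Rz.parity (h : Rz H col D f T) (S : Setup H col) {a b : ℕ} (ha : D a) (hb : D b)
    (hab : H.Adj (f a) (f b)) : a % 2 ≠ b % 2 := by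
  intro hh
  apply S.proper _ _ hab
  rw [h.hcol a ha, h.hcol b hb, hh]

lemma Rz.swap (h : Rz H col D f T) (S : Setup H col) {w w' : ℕ} (hw : D w) (hw' : D w')
    (hpar : w % 2 = w' % 2) (hR : R T w = R T w') : Rz H col D (f ∘ Equiv.swap w w') T := by
  have hσD : ∀ a, D a → D (Equiv.swap w w' a) := by
    intro a ha
    rw [Equiv.swap_apply_def]
    split_ifs with h1 h2
    · exact hw'
    · exact hw
    · exact ha
  have hrow : ∀ b < 64, T.testBit (192 * w + 3 * b) = T.testBit (192 * w' + 3 * b) := by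
    intro b hb
    rw [← testBit_R3 hb, ← testBit_R3 hb, hR]
  refine ⟨h.lt, ?_, ?_, ?_⟩
  · intro a b ha hb hab
    have := h.inj _ _ (hσD a ha) (hσD b hb) hab
    exact (Equiv.swap w w').injective this
  · intro a ha
    show col (f (Equiv.swap w w' a)) = _
    rw [h.hcol _ (hσD a ha), Equiv.swap_apply_def]
    split_ifs with h1 h2
    · rw [h1, hpar]
    · rw [h2, hpar]
    · rfl
  · intro i hi
    obtain ⟨a, b, h1, h2, h3, h4, h5⟩ := h.bits i hi
    refine ⟨a, b, h1, h2, h3, ?_, h5⟩
    have ha64 := h.lt a h2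
    have hb64 := h.lt b h3
    have hp := h.parity S h2 h3 h4
    rw [h1] at hi
    show H.Adj (f (Equiv.swap w w' a)) (f (Equiv.swap w w' b))
    by_cases ha1 : a = w
    · have hb1 : b ≠ w := by rintro rfl; exact hp (by rw [ha1])
      have hb2 : b ≠ w' := by rintro rfl; exact hp (by rw [ha1, hpar])
      rw [ha1, Equiv.swap_apply_left, Equiv.swap_apply_of_ne_of_ne hb1 hb2]
      rw [ha1, hrow b hb64] at hi
      exact (h.adj hb64 hi).2.2.1
    by_cases ha2 : a = w'
    · have hb1 : b ≠ w := by rintro rfl; exact hp (by rw [ha2, hpar])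
      have hb2 : b ≠ w' := by rintro rfl; exact hp (by rw [ha2])
      rw [ha2, Equiv.swap_apply_right, Equiv.swap_apply_of_ne_of_ne hb1 hb2]
      rw [ha2, ← hrow b hb64] at hi
      exact (h.adj hb64 hi).2.2.1
    rw [Equiv.swap_apply_of_ne_of_ne ha1 ha2]
    by_cases hb1 : b = w
    · rw [hb1, Equiv.swap_apply_left]
      rw [hb1, hrow a ha64] at h5
      exact ((h.adj ha64 h5).2.2.1).symm
    by_cases hb2 : b = w'
    · rw [hb2, Equiv.swap_apply_right]
      rw [hb2, ← hrow a ha64] at h5
      exact ((h.adj ha64 h5).2.2.1).symm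
    rw [Equiv.swap_apply_of_ne_of_ne hb1 hb2]
    exact h4

/-- the measure used to choose the labelling among twins -/
def mu (H : SimpleGraph V) [DecidableRel H.Adj] (f : ℕ → V) (u : ℕ) : ℕ :=
  ∑ x ∈ range 64, if H.Adj (f u) (f x) then x else 0

lemma exists_canon (S : Setup H col) (u : ℕ) (P : ℕ → ℕ → Prop)
    (hP : ∀ w w', P w w' → D w ∧ D w' ∧ w < w' ∧ w % 2 = w' % 2 ∧ u ≠ w ∧ u ≠ w' ∧
      R T w = R T w') : ∀ (n : ℕ) (f : ℕ → V), Rz H col D f T → mu H f u = n →
    ∃ f', Rz H col D f' T ∧ ∀ w w', P w w' → H.Adj (f' u) (f' w') → H.Adj (f' u) (f' w) := by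
  intro n
  induction n using Nat.strong_induction_on with
  | _ n ih =>
    intro f hf hn
    by_cases hc : ∀ w w', P w w' → H.Adj (f u) (f w') → H.Adj (f u) (f w)
    · exact ⟨f, hf, hc⟩
    push Not at hc
    obtain ⟨w, w', hp, h1, h2⟩ := hc
    obtain ⟨hw, hw', hlt, hpar, hu1, hu2, hR⟩ := hP w w' hp
    have hf' := hf.swap S hw hw' hpar hR
    refine ih _ ?_ _ hf' rfl
    rw [← hn]
    have hw64 := hf.lt _ hw
    have hw64' := hf.lt _ hw'
    have hσ : ∀ x, x ∈ range 64 ↔ Equiv.swap w w' x ∈ range 64 := by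
      intro x
      rw [mem_range, mem_range, Equiv.swap_apply_def]
      split_ifs with g1 g2
      · constructor
        · intro _; exact hw64'
        · intro _; rw [g1]; exact hw64
      · constructor
        · intro _; exact hw64
        · intro _; rw [g2]; exact hw64'
      · exact Iff.rfl
    have e1 : mu H (f ∘ Equiv.swap w w') u =
        ∑ x ∈ range 64, if H.Adj (f u) (f x) then Equiv.swap w w' x else 0 := by
      unfold mu
      apply Finset.sum_equiv (Equiv.swap w w') hσ
      intro x _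
      show (if H.Adj (f (Equiv.swap w w' u)) (f (Equiv.swap w w' x)) then x else 0) = _
      rw [Equiv.swap_apply_of_ne_of_ne hu1 hu2, Equiv.swap_apply_self]
    rw [e1]
    unfold mu
    apply Finset.sum_lt_sum
    · intro x _
      by_cases hx : H.Adj (f u) (f x)
      · rw [if_pos hx, if_pos hx, Equiv.swap_apply_def]
        split_ifs with g1 g2
        · rw [g1] at hx
          exact absurd hx h2
        · omega
        · exact le_rfl
      · rw [if_neg hx, if_neg hx]
    · refine ⟨w', mem_range.2 hw64', ?_⟩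
      rw [if_pos h1, if_pos h1, Equiv.swap_apply_right]
      exact hlt

lemma Rz.extend (h : Rz H col D f T) {u : ℕ} {ws : List ℕ} {D' : ℕ → Prop}
    {f' : ℕ → V} (hu : D u) (hD : ∀ l, D l → D' l) (hff : ∀ l, D l → f' l = f l)
    (hlt : ∀ l, D' l → l < 64) (hinj : ∀ a b, D' a → D' b → f' a = f' b → a = b)
    (hcol : ∀ a, D' a → col (f' a) = (a % 2 == 1))
    (hws : ∀ w ∈ ws, D' w ∧ H.Adj (f' u) (f' w)) : Rz H col D' f' (addE u T ws) := by
  refine ⟨hlt, hinj, hcol, ?_⟩
  intro i hi
  rw [testBit_addE] at hi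
  rcases hi with hi | ⟨w, hw, hi⟩
  · obtain ⟨a, b, h1, h2, h3, h4, h5⟩ := h.bits i hi
    refine ⟨a, b, h1, hD a h2, hD b h3, ?_, ?_⟩
    · rw [hff a h2, hff b h3]
      exact h4
    · rw [testBit_addE]
      exact Or.inl h5
  · obtain ⟨h1, h2⟩ := hws w hw
    rcases hi with hi | hi
    · refine ⟨u, w, hi, hD u hu, h1, h2, ?_⟩
      rw [testBit_addE]
      exact Or.inr ⟨w, hw, Or.inr rfl⟩
    · refine ⟨w, u, hi, h1, hD u hu, h2.symm, ?_⟩
      rw [testBit_addE]
      exact Or.inr ⟨w, hw, Or.inl rfl⟩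

theorem branch (S : Setup H col) {n0 n1 u : ℕ}
    (h0 : Rz H col (fun l => disc n0 n1 l = true) f T) (hu : disc n0 n1 u = true)
    (hn0 : n0 ≤ 29) (hn1 : n1 ≤ 29) :
    ∃ st ∈ options T n0 n1 u, ∃ f', Rz H col (fun l => disc st.n0 st.n1 l = true) f' st.T := by
  classical
  obtain ⟨o, ho⟩ : ∃ o, o = 1 - Nat.mod u 2 := ⟨_, rfl⟩
  obtain ⟨no, hno⟩ : ∃ no, no = opp u n0 n1 := ⟨_, rfl⟩
  obtain ⟨C, hC⟩ : ∃ C, C = cand T u (lst no o) := ⟨_, rfl⟩
  have emod : Nat.mod u 2 = u % 2 := rfl
  rw [emod] at ho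
  have hno' : (u % 2 = 0 ∧ no = n1 ∧ o = 1) ∨ (u % 2 = 1 ∧ no = n0 ∧ o = 0) := by
    rcases Nat.mod_two_eq_zero_or_one u with hh | hh
    · left
      refine ⟨hh, ?_, by omega⟩
      rw [hno, opp, emod, hh]
      rfl
    · right
      refine ⟨hh, ?_, by omega⟩
      rw [hno, opp, emod, hh]
      rfl
  have hdo : ∀ l, l % 2 = o → (disc n0 n1 l = true ↔ l / 2 < no) := by
    intro l hl
    rw [disc_iff]
    omega
  have hCsub : C.Sublist (lst no o) := by
    rw [hC]
    exact List.filter_sublist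
  have hCsort : C.Pairwise (· < ·) := (lst_sorted no o).sublist hCsub
  have hCL : ∀ w ∈ C, w % 2 = o ∧ disc n0 n1 w = true := by
    intro w hw
    have h1 := hCsub.subset hw
    rw [mem_lst] at h1
    obtain ⟨j, hj, h1⟩ := h1
    have h2 : w % 2 = o := by omega
    refine ⟨h2, (hdo w h2).2 (by omega)⟩
  have hP : ∀ w w', (w, w') ∈ tw T C → disc n0 n1 w = true ∧ disc n0 n1 w' = true ∧ w < w' ∧
      w % 2 = w' % 2 ∧ u ≠ w ∧ u ≠ w' ∧ R T w = R T w' := by
    intro w w' hw
    obtain ⟨h1, h2, h3, h4⟩ := mem_tw hCsort hw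
    obtain ⟨h5, h6⟩ := hCL w h1
    obtain ⟨h7, h8⟩ := hCL w' h2
    refine ⟨h6, h8, h3, by omega, ?_, ?_, h4⟩
    · rintro rfl; omega
    · rintro rfl; omega
  obtain ⟨g, h, hcan⟩ := exists_canon S u (fun w w' => (w, w') ∈ tw T C) hP _ f h0 rfl
  clear h0
  -- membership in `C`
  have hCmem : ∀ w, w ∈ C ↔ w ∈ lst no o ∧ isFull T w = false ∧ w ∉ kn T u := by
    intro w
    rw [hC, cand, List.mem_filter]
    apply and_congr_right
    intro hw
    rw [mem_lst] at hw
    obtain ⟨j, hj, hw⟩ := hw
    have hwd : disc n0 n1 w = true := (hdo w (by omega)).2 (by omega)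
    have hw64 : w < 64 := h.lt w hwd
    rw [Bool.and_eq_true]
    apply and_congr
    · simp
    · have e2 : Nat.mul 3 w = 3 * w := rfl
      rw [mem_kn, e2, testBit_R3 hw64]
      simp [hw64]
  obtain ⟨Sl, hSl⟩ : ∃ Sl, Sl = C.filter (fun w => decide (H.Adj (g u) (g w))) := ⟨_, rfl⟩
  have hSmem : ∀ w, w ∈ Sl ↔ w ∈ C ∧ H.Adj (g u) (g w) := by
    intro w
    rw [hSl, List.mem_filter]
    simp
  have hSsub : Sl.Sublist C := by
    rw [hSl]
    exact List.filter_sublist
  have hCnodup : C.Nodup := hCsort.imp (fun hab => Nat.ne_of_lt hab)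
  have hSnodup : Sl.Nodup := hCnodup.sublist hSsub
  have hdisj : Disjoint (kn T u) Sl.toFinset := by
    rw [Finset.disjoint_left]
    intro w hw hw2
    rw [List.mem_toFinset, hSmem, hCmem] at hw2
    exact hw2.1.2.2 hw
  have hKD : ∀ w ∈ kn T u ∪ Sl.toFinset, disc n0 n1 w = true := by
    intro w hw
    rw [mem_union] at hw
    rcases hw with hw | hw
    · exact h.kn_D hw
    · rw [List.mem_toFinset, hSmem] at hw
      exact (hCL w hw.1).2
  have hsub : (kn T u ∪ Sl.toFinset).image g ⊆ H.neighborFinset (g u) := by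
    intro x hx
    rw [mem_image] at hx
    obtain ⟨w, hw, rfl⟩ := hx
    rw [mem_union] at hw
    rw [SimpleGraph.mem_neighborFinset]
    rcases hw with hw | hw
    · exact h.kn_adj hw
    · rw [List.mem_toFinset, hSmem] at hw
      exact hw.2
  have hcardI : ((kn T u ∪ Sl.toFinset).image g).card = (kn T u).card + Sl.length := by
    rw [Finset.card_image_of_injOn (h.injOn hKD), Finset.card_union_of_disjoint hdisj,
      List.toFinset_card_of_nodup hSnodup]
  have hle : (kn T u).card + Sl.length ≤ 3 := by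
    rw [← hcardI, ← S.reg (g u)]
    exact Finset.card_le_card hsub
  obtain ⟨X, hX⟩ : ∃ X, X = H.neighborFinset (g u) \ (kn T u ∪ Sl.toFinset).image g := ⟨_, rfl⟩
  obtain ⟨m, hm⟩ : ∃ m, m = 3 - cn (R T u) - Sl.length := ⟨_, rfl⟩
  have hcn : cn (R T u) = (kn T u).card := h.cn_R' S u
  have hXcard : X.card = m := by
    rw [hX, Finset.card_sdiff_of_subset hsub, S.reg, hcardI, hm, hcn]
    omega
  have hXadj : ∀ x ∈ X, H.Adj (g u) x := by
    intro x hx
    rw [hX, mem_sdiff, SimpleGraph.mem_neighborFinset] at hx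
    exact hx.1
  have hXnew : ∀ x ∈ X, ∀ l, disc n0 n1 l = true → g l ≠ x := by
    intro x hx l hl hlx
    have hadj : H.Adj (g u) (g l) := by rw [hlx]; exact hXadj x hx
    have hpar := h.parity S hu hl hadj
    rw [hX, mem_sdiff] at hx
    apply hx.2
    rw [mem_image]
    refine ⟨l, ?_, hlx⟩
    rw [mem_union]
    by_cases hk : l ∈ kn T u
    · exact Or.inl hk
    right
    rw [List.mem_toFinset, hSmem]
    refine ⟨?_, hadj⟩
    rw [hCmem]
    have hlo : l % 2 = o := by omega
    refine ⟨?_, ?_, hk⟩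
    · rw [mem_lst]
      have := (hdo l hlo).1 hl
      exact ⟨l / 2, this, by omega⟩
    · by_contra hfull
      rw [Bool.not_eq_false] at hfull
      have := h.full_mem S hfull hu hadj.symm
      exact hk (h.kn_symm this)
  obtain ⟨Xl, hXl⟩ : ∃ Xl, Xl = X.toList := ⟨_, rfl⟩
  have hXlen : Xl.length = m := by rw [hXl, Finset.length_toList, hXcard]
  have hXnd : Xl.Nodup := by rw [hXl]; exact Finset.nodup_toList X
  have hXmem : ∀ x, x ∈ Xl ↔ x ∈ X := by intro x; rw [hXl, Finset.mem_toList]
  -- the new labelling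
  obtain ⟨g', hg'⟩ : ∃ g' : ℕ → V, g' = fun l => if l % 2 = o ∧ no ≤ l / 2 then
    Xl.getD (l / 2 - no) (g l) else g l := ⟨_, rfl⟩
  have hg1 : ∀ l, disc n0 n1 l = true → g' l = g l := by
    intro l hl
    rw [hg']
    simp only
    rw [if_neg]
    rintro ⟨h1, h2⟩
    have := (hdo l h1).1 hl
    omega
  have hg2 : ∀ k (hk : k < m), g' (2 * (no + k) + o) = Xl[k]'(by rw [hXlen]; exact hk) := by
    intro k hk
    rw [hg']
    simp only
    have h1 : (2 * (no + k) + o) % 2 = o := by omega
    have h2 : (2 * (no + k) + o) / 2 = no + k := by omega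
    rw [if_pos ⟨h1, by omega⟩, h2]
    have h3 : no + k - no = k := by omega
    rw [h3]
    rw [List.getD_eq_getElem]
  have hg2mem : ∀ k, k < m → g' (2 * (no + k) + o) ∈ X := by
    intro k hk
    rw [hg2 k hk, ← hXmem]
    exact List.getElem_mem _
  -- the new state
  obtain ⟨ws, hws⟩ : ∃ ws, ws = Sl ++ lst m (2 * no + o) := ⟨_, rfl⟩
  obtain ⟨st, hst⟩ : ∃ st, st = mkSt u n0 n1 (addE u T ws) m := ⟨_, rfl⟩
  have hstT : st.T = addE u T ws := by
    rw [hst, mkSt]
    rcases hno' with hh | hh
    · rw [emod, hh.1]; rfl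
    · rw [emod, hh.1]; rfl
  have hst01 : (u % 2 = 0 ∧ st.n0 = n0 ∧ st.n1 = n1 + m) ∨
      (u % 2 = 1 ∧ st.n0 = n0 + m ∧ st.n1 = n1) := by
    rw [hst, mkSt]
    rcases hno' with hh | hh
    · left
      rw [emod, hh.1]
      exact ⟨rfl, rfl, rfl⟩
    · right
      rw [emod, hh.1]
      exact ⟨rfl, rfl, rfl⟩
  have hD' : ∀ l, disc st.n0 st.n1 l = true ↔ disc n0 n1 l = true ∨
      ∃ k < m, l = 2 * (no + k) + o := by
    intro l
    rw [disc_iff, disc_iff]
    constructor
    · intro hl
      by_cases h1 : l % 2 = o ∧ no ≤ l / 2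
      · right
        refine ⟨l / 2 - no, by omega, by omega⟩
      · left
        omega
    · rintro (hl | ⟨k, hk, hl⟩)
      · omega
      · omega
  refine ⟨st, ?_, g', ?_⟩
  · rw [options, optAux, List.mem_map]
    refine ⟨Sl, ?_, ?_⟩
    · rw [List.mem_filter]
      have eC : cand T u (lst (opp u n0 n1) (1 - Nat.mod u 2)) = C := by
        rw [hC, hno, ho]; rfl
      rw [eC]
      refine ⟨subs_mem _ _ _ hSsub ?_, ?_⟩
      · rw [hcn]; omega
      · rw [List.all_eq_true]
        rintro ⟨w, w'⟩ hq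
        by_cases hw' : w' ∈ Sl
        · have h1 := (hSmem w').1 hw'
          have h2 := hcan w w' hq h1.2
          have h3 := (mem_tw hCsort hq).1
          have h4 : w ∈ Sl := (hSmem w).2 ⟨h3, h2⟩
          simp [mem_true.2 h4]
        · have : mem w' Sl = false := by
            rw [Bool.eq_false_iff]
            intro hh
            exact hw' (mem_true.1 hh)
          simp [this]
    · rw [hst]
      have e1 : Nat.add (Nat.mul 2 (opp u n0 n1)) (1 - Nat.mod u 2) = 2 * no + o := by
        rw [← hno]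
        rw [ho]; rfl
      rw [e1, ← hm, ← hws]
  · rw [hstT]
    apply h.extend hu
    · intro l hl
      exact (hD' l).2 (Or.inl hl)
    · exact hg1
    · intro l hl
      have hl' := hl
      rw [disc_iff] at hl'
      have hm3 : m ≤ 3 := by omega
      omega
    · intro a b ha hb hab
      rw [hD'] at ha hb
      rcases ha with ha | ⟨k, hk, rfl⟩
      · rcases hb with hb | ⟨k, hk, rfl⟩
        · rw [hg1 a ha, hg1 b hb] at hab
          exact h.inj a b ha hb hab
        · exfalso
          rw [hg1 a ha] at hab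
          exact hXnew _ (hg2mem k hk) a ha hab
      · rcases hb with hb | ⟨k', hk', rfl⟩
        · exfalso
          rw [hg1 b hb] at hab
          exact hXnew _ (hg2mem k hk) b hb hab.symm
        · rw [hg2 k hk, hg2 k' hk'] at hab
          have := (List.Nodup.getElem_inj_iff hXnd).1 hab
          omega
    · intro a ha
      rw [hD'] at ha
      rcases ha with ha | ⟨k, hk, rfl⟩
      · rw [hg1 a ha]
        exact h.hcol a ha
      · have h1 := S.proper _ _ (hXadj _ (hg2mem k hk))
        rw [h.hcol u hu] at h1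
        have h2 : (2 * (no + k) + o) % 2 = o := by omega
        rw [h2]
        rcases hno' with hh | hh
        · rw [hh.1] at h1
          rw [hh.2.2]
          cases hc : col (g' (2 * (no + k) + o))
          · exfalso
            rw [hh.2.2] at h1 hc
            rw [hc] at h1
            exact h1 rfl
          · rw [hh.2.2] at hc
            rw [hc]; rfl
        · rw [hh.1] at h1
          rw [hh.2.2]
          cases hc : col (g' (2 * (no + k) + o))
          · rw [hh.2.2] at hc
            rw [hc]; rfl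
          · exfalso
            rw [hh.2.2] at h1 hc
            rw [hc] at h1
            exact h1 rfl
    · intro w hw
      rw [hws, List.mem_append] at hw
      rcases hw with hw | hw
      · have h1 := (hSmem w).1 hw
        have h2 := (hCL w h1.1).2
        refine ⟨(hD' w).2 (Or.inl h2), ?_⟩
        rw [hg1 u hu, hg1 w h2]
        exact h1.2
      · rw [mem_lst] at hw
        obtain ⟨k, hk, hw⟩ := hw
        have hw2 : w = 2 * (no + k) + o := by omega
        subst hw2
        refine ⟨(hD' _).2 (Or.inr ⟨k, hk, rfl⟩), ?_⟩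
        rw [hg1 u hu]
        exact hXadj _ (hg2mem k hk)

end Pool.Agent.Helper727.Cub
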