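import Mathlib

namespace Pool.Agent.Helper727.Cub

/-- row of label `a`: bit `3 * b` is set when `b` is a known neighbour of `a` -/
def R (T a : ℕ) : ℕ :=
  Nat.mod (Nat.shiftRight T (Nat.mul 192 a))
    6277101735386680763835789423207666416102355444464034512896

/-- number of elements of a row -/
def cn (x : ℕ) : ℕ := Nat.mod x 7

def isFull (T a : ℕ) : Bool := Nat.beq (cn (R T a)) 3

def mem (x : ℕ) : List ℕ → Bool
  | [] => false
  | y :: l => Nat.beq x y || mem x l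

/-- lower bound for the number of common neighbours of the labels `a` and `b` -/
def c2 (T a b : ℕ) : ℕ := bif Nat.beq a b then 3 else cn (Nat.land (R T a) (R T b))

def m3 (x y z : ℕ) : ℕ :=
  Nat.lor (Nat.lor (Nat.shiftLeft 1 (Nat.mul 3 x)) (Nat.shiftLeft 1 (Nat.mul 3 y)))
    (Nat.shiftLeft 1 (Nat.mul 3 z))

def r3 (T a x y z : ℕ) : Bool := Nat.blt x y && Nat.blt y z && Nat.beq (R T a) (m3 x y z)

def l3 (T a x y z : ℕ) : ℕ := Nat.add (Nat.add (c2 T a x) (c2 T a y)) (c2 T a z)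

def l4 (T a b c x y z : ℕ) : ℕ := Nat.add (Nat.add (l3 T a x y z) (l3 T b x y z)) (l3 T c x y z)

def viol (s p c T i j a1 a2 a3 b1 b2 b3 : ℕ) : Bool :=
  Nat.beq (Nat.mod i 2) (Nat.mod j 2) && r3 T i a1 a2 a3 && r3 T j b1 b2 b3 &&
  (Nat.blt (Nat.add c (Nat.mul s (c2 T i j)))
      (Nat.add (l4 T a1 a2 a3 b1 b2 b3) (bif Nat.beq i j then p else 0)) ||
    (isFull T a1 && isFull T a2 && isFull T a3 && isFull T b1 && isFull T b2 && isFull T b3 &&
      !(Nat.beq (Nat.add c (Nat.mul s (c2 T i j)))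
      (Nat.add (l4 T a1 a2 a3 b1 b2 b3) (bif Nat.beq i j then p else 0)))))

def subs : ℕ → List ℕ → List (List ℕ)
  | 0, _ => [[]]
  | _ + 1, [] => [[]]
  | k + 1, a :: l => (subs k l).map (fun x => a :: x) ++ subs (k + 1) l

/-- the labels `o, o + 2, ...` (`k` of them) -/
def lst : ℕ → ℕ → List ℕ
  | 0, _ => []
  | k + 1, o => o :: lst k (Nat.add o 2)

def cand (T u : ℕ) (l : List ℕ) : List ℕ :=
  l.filter fun w => !(isFull T w) && !(Nat.testBit (R T u) (Nat.mul 3 w))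

def tw (T : ℕ) : List ℕ → List (ℕ × ℕ)
  | [] => []
  | w :: c => ((c.filter fun w' => Nat.beq (R T w) (R T w')).map fun w' => (w, w')) ++ tw T c

def addE (u : ℕ) : ℕ → List ℕ → ℕ
  | T, [] => T
  | T, w :: l => addE u (Nat.lor (Nat.lor T (Nat.shiftLeft 1 (Nat.add (Nat.mul 192 u) (Nat.mul 3 w))))
      (Nat.shiftLeft 1 (Nat.add (Nat.mul 192 w) (Nat.mul 3 u)))) l

/-- a state: known adjacencies, numbers of discovered even and odd labels -/
structure St where
  T : ℕ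
  n0 : ℕ
  n1 : ℕ

def opp (u n0 n1 : ℕ) : ℕ := bif Nat.beq (Nat.mod u 2) 0 then n1 else n0

def mkSt (u n0 n1 T m : ℕ) : St :=
  bif Nat.beq (Nat.mod u 2) 0 then ⟨T, n0, Nat.add n1 m⟩ else ⟨T, Nat.add n0 m, n1⟩

def optAux (T n0 n1 u need o : ℕ) (c : List ℕ) (t : List (ℕ × ℕ)) : List St :=
  ((subs need c).filter fun S => t.all fun q => !(mem q.2 S) || mem q.1 S).map
    fun S => mkSt u n0 n1 (addE u T (S ++ lst (need - S.length) (Nat.add (Nat.mul 2 (opp u n0 n1)) o)))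
      (need - S.length)

def options (T n0 n1 u : ℕ) : List St :=
  optAux T n0 n1 u (3 - cn (R T u)) (1 - Nat.mod u 2) (cand T u (lst (opp u n0 n1) (1 - Nat.mod u 2)))
    (tw T (cand T u (lst (opp u n0 n1) (1 - Nat.mod u 2))))

def nth : List ℕ → ℕ → ℕ
  | [], _ => 0
  | e :: _, 0 => e
  | _ :: t, n + 1 => nth t n

def nodupB : List ℕ → Bool
  | [] => true
  | x :: l => !(mem x l) && nodupB l

def disc (n0 n1 l : ℕ) : Bool := Nat.blt (l / 2) (bif Nat.beq (Nat.mod l 2) 0 then n0 else n1)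

def leafOK (T n0 n1 : ℕ) (A : List (List ℕ)) (lab : List ℕ) : Bool :=
  Nat.blt 0 A.length && Nat.beq lab.length A.length && nodupB lab && lab.all (fun x => disc n0 n1 x) &&
  (lab.zip A).all fun q => isFull T q.1 &&
    match q.2 with
    | [x, y, z] => Nat.blt x A.length && Nat.blt y A.length && Nat.blt z A.length &&
        Nat.beq (R T q.1) (m3 (nth lab x) (nth lab y) (nth lab z))
    | _ => false

inductive Tr
  | e
  | c (t r : Tr)
  | v (i j a1 a2 a3 b1 b2 b3 : ℕ)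
  | l (k : ℕ) (lab : List ℕ)
  | b (u : ℕ) (ch : Tr)

def getA : List (List (List ℕ)) → ℕ → List (List ℕ)
  | [], _ => []
  | e :: _, 0 => e
  | _ :: t, n + 1 => getA t n

def chk (RR : List (List (List ℕ))) (s p c : ℕ) : Tr → List St → Bool
  | .e, [] => true
  | .c t r, T :: Ts => chk RR s p c t [T] && chk RR s p c r Ts
  | .v i j a1 a2 a3 b1 b2 b3, [T] => viol s p c T.T i j a1 a2 a3 b1 b2 b3
  | .l k lab, [T] => leafOK T.T T.n0 T.n1 (getA RR k) lab
  | .b u ch, [⟨T, n0, n1⟩] => disc n0 n1 u && Nat.ble n0 29 && Nat.ble n1 29 && !(isFull T u) &&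
      chk RR s p c ch (options T n0 n1 u)
  | _, _ => false

def start : St := ⟨addE 0 0 [1, 3, 5], 1, 3⟩

end Pool.Agent.Helper727.Cub
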