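import Pool.Agent.Helper727.Cub.Reps
import Pool.Agent.Helper727.Cub.TreesA
import Pool.Agent.Helper727.Cub.TreesB
import Pool.Agent.Helper727.Cub.TreesC

namespace Pool.Agent.Helper727.Cub

open Finset Name

variable {V : Type*} [Fintype V] [DecidableEq V]
variable {H : SimpleGraph V} [DecidableRel H.Adj] {col : V → Bool}

/-- every connected cubic bipartite graph whose squared adjacency matrix has at most three
eigenvalues is one of the thirteen graphs -/
theorem classify_all (S : Setup H col) (hconn : H.Connected)
    (hcard : (spectrum ℝ (Msq H)).ncard ≤ 3) : ∃ x : Name, Nonempty (H ≃g graph x) := by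
  have := hconn.nonempty
  obtain ⟨s, p, c, hm, hp⟩ := params_all S hconn hcard
  have key : ∀ t : Tr, chk reps s p c t [start] = true → ∃ x : Name, Nonempty (H ≃g graph x) := by
    intro t ht
    obtain ⟨k, hk⟩ := classify S hconn hp ht
    exact getA_reps hk
  simp only [tgt, List.cons_append, List.nil_append, List.mem_cons, Prod.mk.injEq,
    List.not_mem_nil, or_false] at hm
  rcases hm with hm | hm | hm | hm | hm | hm | hm | hm | hm | hm | hm | hm | hm | hm | hm | hm | hm <;>
    obtain ⟨rfl, rfl, rfl⟩ := hm
  · exact key _ chk_5_0_2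
  · exact key _ chk_3_0_6
  · exact key _ chk_4_3_8
  · exact key _ chk_6_0_3
  · exact key _ chk_5_4_4
  · exact key _ chk_6_5_2
  · exact key _ chk_4_0_3
  · exact key _ chk_4_0_9
  · exact key _ chk_4_3_6
  · exact key _ chk_6_5_4
  · exact key _ chk_4_0_5
  · exact key _ chk_6_0_1
  · exact key _ chk_3_1_11
  · exact key _ chk_5_3_3
  · exact key _ chk_0_0_27
  · exact key _ chk_1_0_18
  · exact key _ chk_2_0_9

end Pool.Agent.Helper727.Cub
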