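import Pool.Agent.Helper727.Cub.Uniq
import Pool.Agent.Helper727.Cub.Bits

namespace Pool.Agent.Helper727.Cub

open Finset Name Matrix

def num : Name → ℕ
  | k33 => 0
  | cube => 1
  | heawood => 2
  | pappus => 3
  | tutteCoxeter => 4
  | moebiusLadder => 5
  | franklin => 6
  | moebiusKantor => 7
  | lcf16 => 8
  | desargues => 9
  | desarguesMate => 10
  | f26a => 11
  | dyck => 12

lemma num_inj {x y : Name} (h : num x = num y) : x = y := by
  revert h
  cases x <;> cases y <;> decide

def orL {α : Type} (f : α → ℕ) : List α → ℕ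
  | [] => 0
  | x :: l => Nat.lor (Nat.shiftLeft 1 (f x)) (orL f l)

lemma testBit_orL {α : Type} (f : α → ℕ) (l : List α) (k : ℕ) :
    (orL f l).testBit k = true ↔ ∃ x ∈ l, k = f x := by
  induction l with
  | nil => simp [orL]
  | cons x l ih =>
    rw [orL, testBit_lor', testBit_one_shl, Bool.or_eq_true, ih, decide_eq_true_eq]
    simp

/-- mask of the eigenvalue indices -/
def maskE (x : Name) : ℕ := orL (fun i : Fin 11 => i.val) (idxL x)

/-- mask of a list of names -/
def maskN (l : List Name) : ℕ := orL num l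

def subM (b m : ℕ) : Bool := Nat.beq (Nat.lor b m) m

def cntM : ℕ → ℕ → ℕ
  | 0, _ => 0
  | k + 1, U => Nat.add (bif Nat.testBit U k then 1 else 0) (cntM k U)

def only (b : ℕ) (l : List Name) : Bool := subM b (maskN l)

def has (b : ℕ) (x : Name) : Bool := Nat.testBit b (num x)

def five (b : ℕ) : Bool :=
  (only b [k33, pappus] && has b pappus) || (only b [k33, tutteCoxeter] && has b tutteCoxeter) ||
    (only b [k33, cube] && has b k33 && has b cube) ||
    (only b [k33, heawood] && has b k33 && has b heawood)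

def six (b : ℕ) : Bool :=
  (only b [cube, heawood] && has b cube && has b heawood) ||
    (only b [cube, franklin, moebiusKantor] && (has b franklin || has b moebiusKantor)) ||
    (only b [cube, lcf16, dyck] && (has b lcf16 || has b dyck)) ||
    (only b [cube, desargues, desarguesMate] && (has b desargues || has b desarguesMate)) ||
    (only b [moebiusLadder] && has b moebiusLadder) || (only b [f26a] && has b f26a)

def chkU (U b : ℕ) : Bool :=
  eqBool (Nat.beq (cntM 11 U) 3 && Nat.testBit U 0) (five b) &&
    eqBool (Nat.beq (cntM 11 U) 3 && !(Nat.testBit U 0)) (six b)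

def go : List Name → ℕ → ℕ → Bool
  | [], U, b => chkU U b
  | x :: l, U, b => go l U b && go l (Nat.lor (maskE x) U) (Nat.lor (Nat.shiftLeft 1 (num x)) b)

lemma go_true : go names 0 0 = true := by
  decide +kernel

def foldU (g : Name → Bool) : List Name → ℕ → ℕ
  | [], U => U
  | x :: l, U => foldU g l (bif g x then Nat.lor (maskE x) U else U)

def foldB (g : Name → Bool) : List Name → ℕ → ℕ
  | [], b => b
  | x :: l, b => foldB g l (bif g x then Nat.lor (Nat.shiftLeft 1 (num x)) b else b)

lemma go_sound (g : Name → Bool) : ∀ (l : List Name) (U b : ℕ), go l U b = true →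
    chkU (foldU g l U) (foldB g l b) = true := by
  intro l
  induction l with
  | nil => intro U b h; exact h
  | cons x l ih =>
    intro U b h
    rw [go, Bool.and_eq_true] at h
    rw [foldU, foldB]
    cases hg : g x
    · rw [cond_false, cond_false]
      exact ih _ _ h.1
    · rw [cond_true, cond_true]
      exact ih _ _ h.2

lemma testBit_foldU (g : Name → Bool) (k : ℕ) : ∀ (l : List Name) (U : ℕ),
    (foldU g l U).testBit k = true ↔
      U.testBit k = true ∨ ∃ x ∈ l, g x = true ∧ (maskE x).testBit k = true := by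
  intro l
  induction l with
  | nil => intro U; simp [foldU]
  | cons x l ih =>
    intro U
    rw [foldU, ih]
    cases hg : g x
    · simp [hg]
    · rw [cond_true, testBit_lor', Bool.or_eq_true]
      simp only [List.mem_cons, exists_eq_or_imp, hg, true_and]
      tauto

lemma testBit_foldB (g : Name → Bool) (k : ℕ) : ∀ (l : List Name) (b : ℕ),
    (foldB g l b).testBit k = true ↔
      b.testBit k = true ∨ ∃ x ∈ l, g x = true ∧ k = num x := by
  intro l
  induction l with
  | nil => intro b; simp [foldB]
  | cons x l ih =>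
    intro b
    rw [foldB, ih]
    cases hg : g x
    · simp [hg]
    · rw [cond_true, testBit_lor', testBit_one_shl, Bool.or_eq_true, decide_eq_true_eq]
      simp only [List.mem_cons, exists_eq_or_imp, hg, true_and]
      tauto

lemma subM_iff {b m : ℕ} : subM b m = true ↔ ∀ k, b.testBit k = true → m.testBit k = true := by
  unfold subM
  rw [Nat.beq_eq]
  constructor
  · intro h k hk
    rw [← h, testBit_lor', hk, Bool.true_or]
  · intro h
    apply Nat.eq_of_testBit_eq
    intro k
    rw [testBit_lor']
    cases hb : b.testBit k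
    · simp
    · rw [h k hb]
      rfl

lemma cntM_eq (U : ℕ) : ∀ k, cntM k U = ((range k).filter fun i => U.testBit i = true).card := by
  intro k
  induction k with
  | zero => rfl
  | succ k ih =>
    rw [cntM, Finset.range_add_one, Finset.filter_insert]
    have e1 : ∀ x y : ℕ, Nat.add x y = x + y := fun _ _ => rfl
    rw [e1, ih]
    cases h : U.testBit k
    · simp
    · rw [cond_true, if_pos rfl, Finset.card_insert_of_notMem (by simp)]
      ring

/-- the mask of the set of names given by `g` -/
def bN (g : Name → Bool) : ℕ := foldB g names 0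

def UN (g : Name → Bool) : ℕ := foldU g names 0

lemma has_bN (g : Name → Bool) (x : Name) : has (bN g) x = true ↔ g x = true := by
  unfold has bN
  rw [testBit_foldB]
  simp only [Nat.zero_testBit, Bool.false_eq_true, false_or]
  constructor
  · rintro ⟨y, _, hy, h⟩
    rw [num_inj h]
    exact hy
  · intro h
    exact ⟨x, mem_names x, h, rfl⟩

lemma only_bN (g : Name → Bool) (l : List Name) :
    only (bN g) l = true ↔ ∀ x, g x = true → x ∈ l := by
  unfold only
  rw [subM_iff]
  constructor
  · intro h x hx
    have h1 := h (num x) ((has_bN g x).2 hx)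
    unfold maskN at h1
    rw [testBit_orL] at h1
    obtain ⟨y, hy, h2⟩ := h1
    rw [num_inj h2]
    exact hy
  · intro h k hk
    unfold bN at hk
    rw [testBit_foldB] at hk
    simp only [Nat.zero_testBit, Bool.false_eq_true, false_or] at hk
    obtain ⟨x, _, hx, rfl⟩ := hk
    unfold maskN
    rw [testBit_orL]
    exact ⟨x, h x hx, rfl⟩

lemma UN_bit (g : Name → Bool) (i : Fin 11) :
    (UN g).testBit i.val = true ↔ ∃ x, g x = true ∧ i ∈ idxL x := by
  unfold UN
  rw [testBit_foldU]
  simp only [Nat.zero_testBit, Bool.false_eq_true, false_or]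
  constructor
  · rintro ⟨x, _, hx, h⟩
    unfold maskE at h
    rw [testBit_orL] at h
    obtain ⟨j, hj, h2⟩ := h
    refine ⟨x, hx, ?_⟩
    rw [Fin.ext h2]
    exact hj
  · rintro ⟨x, hx, h⟩
    refine ⟨x, mem_names x, hx, ?_⟩
    unfold maskE
    rw [testBit_orL]
    exact ⟨i, h, rfl⟩

/-- the set of eigenvalues attached to a set of names -/
def TG (g : Name → Bool) : Set ℝ := {t | ∃ x, g x = true ∧ ∃ i ∈ idxL x, t = val i}

open Classical in
lemma TG_eq (g : Name → Bool) :
    TG g = val '' ((univ.filter fun i : Fin 11 => (UN g).testBit i.val = true : Finset (Fin 11)) :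
      Set (Fin 11)) := by
  ext t
  unfold TG
  rw [Set.mem_image]
  constructor
  · rintro ⟨x, hx, i, hi, rfl⟩
    refine ⟨i, ?_, rfl⟩
    rw [mem_coe, mem_filter]
    exact ⟨mem_univ _, (UN_bit g i).2 ⟨x, hx, hi⟩⟩
  · rintro ⟨i, hi, rfl⟩
    rw [mem_coe, mem_filter, UN_bit] at hi
    obtain ⟨_, x, hx, hi⟩ := hi
    exact ⟨x, hx, i, hi, rfl⟩

lemma TG_ncard (g : Name → Bool) : (TG g).ncard = cntM 11 (UN g) := by
  rw [TG_eq, Set.ncard_image_of_injective _ val_inj, Set.ncard_coe_finset, cntM_eq]
  apply Finset.card_bij (fun i _ => i.val)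
  · intro i hi
    rw [mem_filter] at hi ⊢
    exact ⟨mem_range.2 i.2, hi.2⟩
  · intro a _ b _ hab
    exact Fin.ext hab
  · intro k hk
    rw [mem_filter, mem_range] at hk
    exact ⟨⟨k, hk.1⟩, by rw [mem_filter]; exact ⟨mem_univ _, hk.2⟩, rfl⟩

lemma TG_zero (g : Name → Bool) : (0 : ℝ) ∈ TG g ↔ (UN g).testBit 0 = true := by
  rw [TG_eq, Set.mem_image]
  constructor
  · rintro ⟨i, hi, h⟩
    rw [val_eq_zero] at h
    rw [h, mem_coe, mem_filter] at hi
    exact hi.2
  · intro h
    refine ⟨0, ?_, val_zero⟩
    rw [mem_coe, mem_filter]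
    exact ⟨mem_univ _, h⟩

theorem combos (g : Name → Bool) :
    (((TG g).ncard = 3 ∧ (0 : ℝ) ∈ TG g) ↔ five (bN g) = true) ∧
      (((TG g).ncard = 3 ∧ (0 : ℝ) ∉ TG g) ↔ six (bN g) = true) := by
  have h := go_sound g names 0 0 go_true
  change chkU (UN g) (bN g) = true at h
  unfold chkU at h
  rw [Bool.and_eq_true] at h
  have h1 := eqBool_spec h.1
  have h2 := eqBool_spec h.2
  rw [TG_ncard, TG_zero, ← h1, ← h2]
  constructor
  · rw [Bool.and_eq_true, Nat.beq_eq]
  · rw [Bool.and_eq_true, Nat.beq_eq, Bool.not_eq_true', Bool.not_eq_true]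

end Pool.Agent.Helper727.Cub
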