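import Pool.Agent.Helper727.Cub.Spec

namespace Pool.Agent.Helper727.Cub

open Finset Matrix

open Classical in
/-- eigenvalues of the squared adjacency matrix -/
def T2 {V : Type*} [Fintype V] (G : SimpleGraph V) : Set ℝ :=
  {t | ∃ g : V → ℝ, g ≠ 0 ∧ ∀ v, ∑ u with G.Adj v u, ∑ w with G.Adj u w, g w = t * g v}

lemma T2_eq {V : Type*} [Fintype V] [DecidableEq V] (G : SimpleGraph V) [DecidableRel G.Adj] :
    T2 G = spectrum ℝ (Msq G) := by
  ext t
  rw [mem_spec_iff]
  unfold T2
  rw [Set.mem_ofPred_eq]
  apply exists_congr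
  intro g
  apply and_congr_right
  intro _
  rw [funext_iff]
  apply forall_congr'
  intro v
  unfold Msq
  rw [← Matrix.mulVec_mulVec, SimpleGraph.adjMatrix_mulVec_apply, Pi.smul_apply, smul_eq_mul]
  simp only [SimpleGraph.adjMatrix_mulVec_apply]
  have : ∀ (v : V) (h : V → ℝ), ∑ u ∈ @Finset.filter V (fun u => G.Adj v u)
      (fun _ => Classical.propDecidable _) univ, h u = ∑ u ∈ G.neighborFinset v, h u := by
    intro v h
    apply Finset.sum_congr _ (fun _ _ => rfl)
    ext u
    simp
  rw [this]
  simp only [this]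

open Classical in
/-- isomorphic graphs have the same eigenvalues -/
lemma T2_iso_sub {V W : Type*} [Fintype V] [Fintype W] {G : SimpleGraph V} {H : SimpleGraph W}
    (e : G ≃g H) : T2 G ⊆ T2 H := by
  rintro t ⟨g, hg, h⟩
  refine ⟨g ∘ e.symm, ?_, ?_⟩
  · intro h0
    apply hg
    ext v
    have := congrFun h0 (e v)
    simpa using this
  · intro w
    have key : ∀ (w : W) (k : W → ℝ), ∑ u with H.Adj w u, k u =
        ∑ u with G.Adj (e.symm w) u, k (e u) := by
      intro w k
      symm
      apply Finset.sum_bij (fun u _ => e u)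
      · intro u hu
        rw [mem_filter] at hu ⊢
        refine ⟨mem_univ _, ?_⟩
        have := e.map_adj_iff.2 hu.2
        simpa using this
      · intro a _ b _ hab
        exact e.injective hab
      · intro u hu
        rw [mem_filter] at hu
        refine ⟨e.symm u, ?_, by simp⟩
        rw [mem_filter]
        exact ⟨mem_univ _, e.symm.map_adj_iff.2 hu.2⟩
      · intro _ _; rfl
    rw [key]
    simp only [key]
    have h1 := h (e.symm w)
    simpa using h1

lemma T2_iso {V W : Type*} [Fintype V] [Fintype W] {G : SimpleGraph V} {H : SimpleGraph W}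
    (e : G ≃g H) : T2 G = T2 H :=
  Set.Subset.antisymm (T2_iso_sub e) (T2_iso_sub e.symm)

section comp

open Classical

variable {V : Type*} [Fintype V] {G : SimpleGraph V}

lemma sum_comp (C : G.ConnectedComponent) (v : C) (k : V → ℝ) :
    ∑ u with G.Adj v.val u, k u = ∑ u with C.toSimpleGraph.Adj v u, k u.val := by
  symm
  apply Finset.sum_bij (fun u _ => u.val)
  · intro u hu
    rw [mem_filter] at hu ⊢
    exact ⟨mem_univ _, hu.2⟩
  · intro a _ b _ hab
    exact Subtype.ext hab
  · intro u hu
    rw [mem_filter] at hu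
    have hu2 : u ∈ C.supp := by
      have hv : v.val ∈ C.supp := v.2
      rw [SimpleGraph.ConnectedComponent.mem_supp_iff] at hv ⊢
      rw [← hv]
      exact SimpleGraph.ConnectedComponent.sound hu.2.symm.reachable
    refine ⟨⟨u, hu2⟩, ?_, rfl⟩
    rw [mem_filter]
    exact ⟨mem_univ _, hu.2⟩
  · intro _ _; rfl

/-- the eigenvalues of a graph are those of its components -/
theorem T2_comp : T2 G = ⋃ C : G.ConnectedComponent, T2 C.toSimpleGraph := by
  ext t
  rw [Set.mem_iUnion]
  constructor
  · rintro ⟨g, hg, h⟩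
    obtain ⟨v0, hv0⟩ := Function.ne_iff.1 hg
    refine ⟨G.connectedComponentMk v0, fun v => g v.val, ?_, ?_⟩
    · intro h0
      exact hv0 (congrFun h0 ⟨v0, rfl⟩)
    · intro v
      rw [← h v.val]
      rw [sum_comp _ v]
      apply Finset.sum_congr rfl
      intro u _
      rw [sum_comp _ u]
  · rintro ⟨C, g, hg, h⟩
    obtain ⟨k, hk⟩ : ∃ k : V → ℝ, k = fun v => if hv : v ∈ C.supp then g ⟨v, hv⟩ else 0 := ⟨_, rfl⟩
    have hk1 : ∀ v : C, k v.val = g v := by
      intro v
      rw [hk]
      have hv : v.val ∈ C.supp := v.2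
      exact dif_pos hv
    have hk0 : ∀ v, v ∉ C.supp → k v = 0 := by
      intro v hv
      rw [hk]
      simp only
      rw [dif_neg hv]
    have hclosed : ∀ u v, G.Adj u v → u ∉ C.supp → v ∉ C.supp := by
      intro u v huv hu hv
      apply hu
      rw [SimpleGraph.ConnectedComponent.mem_supp_iff] at hv ⊢
      rw [← hv]
      exact SimpleGraph.ConnectedComponent.sound huv.reachable
    refine ⟨k, ?_, ?_⟩
    · intro h0
      apply hg
      ext v
      rw [← hk1 v, h0]
      rfl
    · intro v
      by_cases hv : v ∈ C.supp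
      · have e1 := sum_comp C ⟨v, hv⟩ (fun u => ∑ w with G.Adj u w, k w)
        have e2 := h ⟨v, hv⟩
        rw [e1]
        have e3 : k v = g ⟨v, hv⟩ := hk1 ⟨v, hv⟩
        rw [e3, ← e2]
        apply Finset.sum_congr rfl
        intro u _
        rw [sum_comp C u]
        apply Finset.sum_congr rfl
        intro w _
        exact hk1 w
      · rw [hk0 v hv, mul_zero]
        apply Finset.sum_eq_zero
        intro u hu
        rw [mem_filter] at hu
        apply Finset.sum_eq_zero
        intro w hw
        rw [mem_filter] at hw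
        exact hk0 w (hclosed u w hw.2 (hclosed v u hu.2 hv))

end comp

section sq

variable {V : Type*} [Fintype V] [DecidableEq V]
variable {G : SimpleGraph V} [DecidableRel G.Adj] {col : V → Bool}

/-- for a bipartite graph the spectrum consists of the square roots of the eigenvalues of the
squared adjacency matrix -/
theorem spec_adj_iff (S : Setup G col) (m : ℝ) :
    m ∈ spectrum ℝ (G.adjMatrix ℝ) ↔ m ^ 2 ∈ spectrum ℝ (Msq G) := by
  constructor
  · intro h
    rw [mem_spec_iff] at h ⊢
    obtain ⟨g, hg, h⟩ := h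
    refine ⟨g, hg, ?_⟩
    unfold Msq
    rw [← Matrix.mulVec_mulVec, h, Matrix.mulVec_smul, h, smul_smul, sq]
  · intro h
    rw [mem_spec_iff] at h
    obtain ⟨g, hg, h⟩ := h
    unfold Msq at h
    rw [← Matrix.mulVec_mulVec] at h
    rw [mem_spec_iff]
    by_cases h0 : G.adjMatrix ℝ *ᵥ g + m • g = 0
    · -- flip the sign on one colour class
      refine ⟨fun v => (if col v then 1 else -1) * g v, ?_, ?_⟩
      · intro h1
        apply hg
        ext v
        have := congrFun h1 v
        simp only [Pi.zero_apply] at this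
        rcases mul_eq_zero.1 this with h2 | h2
        · split_ifs at h2 <;> norm_num at h2
        · exact h2
      · ext v
        rw [SimpleGraph.adjMatrix_mulVec_apply, Pi.smul_apply, smul_eq_mul]
        have h2 := congrFun h0 v
        rw [Pi.add_apply, SimpleGraph.adjMatrix_mulVec_apply, Pi.smul_apply, smul_eq_mul,
          Pi.zero_apply] at h2
        have h3 : ∑ u ∈ G.neighborFinset v, (if col u then (1 : ℝ) else -1) * g u =
            ∑ u ∈ G.neighborFinset v, (-(if col v then (1 : ℝ) else -1)) * g u := by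
          apply Finset.sum_congr rfl
          intro u hu
          rw [SimpleGraph.mem_neighborFinset] at hu
          have := S.proper _ _ hu
          cases hv : col v <;> cases hu2 : col u <;> simp_all
        rw [h3, ← Finset.mul_sum]
        have h4 : ∑ u ∈ G.neighborFinset v, g u = - (m * g v) := by linarith
        rw [h4]
        ring
    · refine ⟨_, h0, ?_⟩
      rw [Matrix.mulVec_add, h, Matrix.mulVec_smul, smul_add, smul_smul, add_comm, sq]

/-- counting square roots -/
lemma ncard_sqrt {T : Set ℝ} (hfin : T.Finite) (h0 : ∀ t ∈ T, 0 ≤ t) :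
    {m : ℝ | m ^ 2 ∈ T}.ncard + (T ∩ {0}).ncard = 2 * T.ncard := by
  have h1 : {m : ℝ | m ^ 2 ∈ T} = (Real.sqrt '' T) ∪ ((fun t => -Real.sqrt t) '' T) := by
    ext m
    rw [Set.mem_ofPred_eq, Set.mem_union, Set.mem_image, Set.mem_image]
    constructor
    · intro hm
      rcases le_total 0 m with h | h
      · left
        exact ⟨m ^ 2, hm, Real.sqrt_sq h⟩
      · right
        refine ⟨m ^ 2, hm, ?_⟩
        have : m ^ 2 = (-m) ^ 2 := by ring
        rw [this, Real.sqrt_sq (by linarith)]
        ring
    · rintro (⟨t, ht, rfl⟩ | ⟨t, ht, rfl⟩)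
      · rw [Real.sq_sqrt (h0 t ht)]
        exact ht
      · rw [neg_sq, Real.sq_sqrt (h0 t ht)]
        exact ht
  have inj1 : Set.InjOn Real.sqrt T := by
    intro a ha b hb hab
    exact (Real.sqrt_inj (h0 a ha) (h0 b hb)).1 hab
  have inj2 : Set.InjOn (fun t => -Real.sqrt t) T := by
    intro a ha b hb hab
    exact (Real.sqrt_inj (h0 a ha) (h0 b hb)).1 (neg_injective hab)
  have h2 : (Real.sqrt '' T) ∩ ((fun t => -Real.sqrt t) '' T) = T ∩ {0} := by
    ext m
    rw [Set.mem_inter_iff, Set.mem_image, Set.mem_image, Set.mem_inter_iff, Set.mem_singleton_iff]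
    constructor
    · rintro ⟨⟨a, ha, rfl⟩, ⟨b, hb, hb2⟩⟩
      have e1 := Real.sqrt_nonneg a
      have e2 := Real.sqrt_nonneg b
      have e3 : Real.sqrt a = 0 := by linarith
      have e4 : a = 0 := (Real.sqrt_eq_zero (h0 a ha)).1 e3
      rw [e3]
      rw [e4] at ha
      exact ⟨ha, rfl⟩
    · rintro ⟨hm, rfl⟩
      exact ⟨⟨0, hm, Real.sqrt_zero⟩, ⟨0, hm, by simp⟩⟩
  rw [h1, ← h2, Set.ncard_union_add_ncard_inter _ _ (hfin.image _) (hfin.image _),
    inj1.ncard_image, inj2.ncard_image]
  ring

end sq

end Pool.Agent.Helper727.Cub
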