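import Pool.Agent.Helper727.Cub.Names

namespace Pool.Agent.Helper727.Cub

/-- Some connected component of `G` is isomorphic to the graph with name `x`. -/
def Occurs {V : Type*} (G : SimpleGraph V) (x : Name) : Prop :=
  ∃ C : G.ConnectedComponent, Nonempty (C.toSimpleGraph ≃g graph x)

/-- Every connected component of `G` is isomorphic to a graph whose name is in the list `l`. -/
def MadeOf {V : Type*} (G : SimpleGraph V) (l : List Name) : Prop :=
  ∀ C : G.ConnectedComponent, ∃ x ∈ l, Nonempty (C.toSimpleGraph ≃g graph x)

/-- The number of distinct eigenvalues of the adjacency matrix of `G`. -/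
noncomputable def numEig {V : Type*} [Fintype V] [DecidableEq V] (G : SimpleGraph V)
    [DecidableRel G.Adj] : ℕ :=
  (spectrum ℝ (G.adjMatrix ℝ)).ncard

end Pool.Agent.Helper727.Cub
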