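import Pool.Agent.Helper727.Cub.Combos
import Pool.Agent.Helper727.Cub.Classify
import Pool.Agent.Helper727.Cub.Statement

namespace Pool.Agent.Helper727.Cub

open Finset Name Matrix

lemma exists_setup {V : Type*} [Fintype V] [DecidableEq V] {G : SimpleGraph V}
    [DecidableRel G.Adj] (h3 : G.IsRegularOfDegree 3) (hb : G.IsBipartite) :
    ∃ col : V → Bool, Setup G col := by
  obtain ⟨c⟩ := hb
  refine ⟨fun v => decide (c v = 1), ?_, ?_⟩
  · intro v
    rw [SimpleGraph.card_neighborFinset_eq_degree]
    exact h3 v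
  · intro u v huv h
    have h1 := c.valid huv
    have h2 : (c u = 1) ↔ (c v = 1) := by simpa using h
    apply h1
    revert h2
    generalize c u = a
    generalize c v = b
    revert a b
    decide

lemma numEig_T2 {V : Type*} [Fintype V] [DecidableEq V] {G : SimpleGraph V}
    [DecidableRel G.Adj] {col : V → Bool} (S : Setup G col) :
    (numEig G = 5 ↔ ((T2 G).ncard = 3 ∧ (0 : ℝ) ∈ T2 G)) ∧
      (numEig G = 6 ↔ ((T2 G).ncard = 3 ∧ (0 : ℝ) ∉ T2 G)) := by
  have hfin : (T2 G).Finite := by
    rw [T2_eq]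
    exact Matrix.finite_real_spectrum
  have h0 : ∀ t ∈ T2 G, 0 ≤ t := by
    intro t ht
    rw [T2_eq] at ht
    exact (spec_bounds S ht).1
  have h1 := ncard_sqrt hfin h0
  have h2 : spectrum ℝ (G.adjMatrix ℝ) = {m : ℝ | m ^ 2 ∈ T2 G} := by
    ext m
    rw [spec_adj_iff S, ← T2_eq]
    rfl
  have h3 : numEig G + (T2 G ∩ {0}).ncard = 2 * (T2 G).ncard := by
    unfold numEig
    rw [h2]
    exact h1
  by_cases hz : (0 : ℝ) ∈ T2 G
  · have h4 : (T2 G ∩ {0}).ncard = 1 := by
      rw [Set.inter_eq_right.2 (Set.singleton_subset_iff.2 hz), Set.ncard_singleton]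
    rw [h4] at h3
    constructor
    · constructor
      · intro h; exact ⟨by omega, hz⟩
      · intro h; omega
    · constructor
      · intro h; omega
      · intro h; exact absurd hz h.2
  · have h4 : (T2 G ∩ {0}).ncard = 0 := by
      have : T2 G ∩ {0} = ∅ := by
        ext t
        simp only [Set.mem_inter_iff, Set.mem_singleton_iff, Set.mem_empty_iff_false, iff_false]
        rintro ⟨h5, rfl⟩
        exact hz h5
      rw [this, Set.ncard_empty]
    rw [h4] at h3
    constructor
    · constructor
      · intro h; omega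
      · intro h; exact absurd h.2 hz
    · constructor
      · intro h; exact ⟨by omega, hz⟩
      · intro h; omega

section comps

open Classical

variable {V : Type*} [Fintype V] {G : SimpleGraph V}

lemma setup_comp {col : V → Bool} (hreg : ∀ v, (univ.filter fun u => G.Adj v u).card = 3)
    (hprop : ∀ u v, G.Adj u v → col u ≠ col v) (C : G.ConnectedComponent) :
    Setup C.toSimpleGraph (fun v : C => col v.val) := by
  constructor
  · intro v
    have h1 : (C.toSimpleGraph.neighborFinset v).card =
        (univ.filter fun u => C.toSimpleGraph.Adj v u).card := by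
      congr 1
      ext u
      simp
    have h2 := sum_comp C v (fun _ => (1 : ℝ))
    rw [Finset.sum_const, Finset.sum_const, hreg v.val] at h2
    rw [h1]
    have h3 : ((univ.filter fun u => C.toSimpleGraph.Adj v u).card : ℝ) = 3 := by
      simpa using h2.symm
    exact_mod_cast h3
  · intro u v huv
    exact hprop _ _ huv

lemma classify_comp {col : V → Bool} (hreg : ∀ v, (univ.filter fun u => G.Adj v u).card = 3)
    (hprop : ∀ u v, G.Adj u v → col u ≠ col v) (hcard : (T2 G).ncard = 3)
    (C : G.ConnectedComponent) : ∃ x : Name, Nonempty (C.toSimpleGraph ≃g graph x) := by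
  have hfin : (T2 G).Finite := by
    apply Set.finite_of_ncard_ne_zero
    omega
  have hS := setup_comp hreg hprop C
  apply classify_all hS C.connected_toSimpleGraph
  rw [← T2_eq, ← hcard]
  apply Set.ncard_le_ncard _ hfin
  have h := Set.subset_iUnion (fun C : G.ConnectedComponent => T2 C.toSimpleGraph) C
  rw [← T2_comp (G := G)] at h
  exact h

lemma T2_named (hall : ∀ C : G.ConnectedComponent, ∃ x : Name,
    Nonempty (C.toSimpleGraph ≃g graph x)) : T2 G = TG (fun x => decide (Occurs G x)) := by
  rw [T2_comp]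
  ext t
  rw [Set.mem_iUnion]
  unfold TG
  constructor
  · rintro ⟨C, hC⟩
    obtain ⟨x, ⟨e⟩⟩ := hall C
    rw [T2_iso e, T2_name] at hC
    obtain ⟨i, hi, rfl⟩ := hC
    exact ⟨x, by simpa using ⟨C, ⟨e⟩⟩, i, hi, rfl⟩
  · rintro ⟨x, hx, i, hi, rfl⟩
    have hx' : Occurs G x := by simpa using hx
    obtain ⟨C, ⟨e⟩⟩ := hx'
    refine ⟨C, ?_⟩
    rw [T2_iso e, T2_name]
    exact ⟨i, hi, rfl⟩

lemma madeOf_iff (hall : ∀ C : G.ConnectedComponent, ∃ x : Name,
    Nonempty (C.toSimpleGraph ≃g graph x)) (l : List Name) :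
    MadeOf G l ↔ only (bN (fun x => decide (Occurs G x))) l = true := by
  rw [only_bN]
  constructor
  · intro h x hx
    have hx' : Occurs G x := by simpa using hx
    obtain ⟨C, ⟨e⟩⟩ := hx'
    obtain ⟨y, hy, ⟨e'⟩⟩ := h C
    rw [iso_unique ⟨e.symm.trans e'⟩]
    exact hy
  · intro h C
    obtain ⟨x, ⟨e⟩⟩ := hall C
    exact ⟨x, h x (by simpa using ⟨C, ⟨e⟩⟩), ⟨e⟩⟩

lemma occurs_iff (x : Name) :
    Occurs G x ↔ has (bN (fun x => decide (Occurs G x))) x = true := by
  rw [has_bN]
  simp

end comps

/-- the list of graphs with five eigenvalues -/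
def Five {V : Type*} (G : SimpleGraph V) : Prop :=
  (MadeOf G [k33, pappus] ∧ Occurs G pappus) ∨
    (MadeOf G [k33, tutteCoxeter] ∧ Occurs G tutteCoxeter) ∨
    (MadeOf G [k33, cube] ∧ Occurs G k33 ∧ Occurs G cube) ∨
    (MadeOf G [k33, heawood] ∧ Occurs G k33 ∧ Occurs G heawood)

/-- the list of graphs with six eigenvalues -/
def Six {V : Type*} (G : SimpleGraph V) : Prop :=
  (MadeOf G [cube, heawood] ∧ Occurs G cube ∧ Occurs G heawood) ∨
    (MadeOf G [cube, franklin, moebiusKantor] ∧ (Occurs G franklin ∨ Occurs G moebiusKantor)) ∨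
    (MadeOf G [cube, lcf16, dyck] ∧ (Occurs G lcf16 ∨ Occurs G dyck)) ∨
    (MadeOf G [cube, desargues, desarguesMate] ∧ (Occurs G desargues ∨ Occurs G desarguesMate)) ∨
    (MadeOf G [moebiusLadder] ∧ Occurs G moebiusLadder) ∨
    (MadeOf G [f26a] ∧ Occurs G f26a)

lemma MadeOf.all {V : Type*} {G : SimpleGraph V} {l : List Name} (h : MadeOf G l)
    (C : G.ConnectedComponent) : ∃ x : Name, Nonempty (C.toSimpleGraph ≃g graph x) := by
  obtain ⟨x, _, hx⟩ := h C
  exact ⟨x, hx⟩

open Classical in
lemma five_iff {V : Type*} [Fintype V] {G : SimpleGraph V}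
    (hall : ∀ C : G.ConnectedComponent, ∃ x : Name, Nonempty (C.toSimpleGraph ≃g graph x)) :
    (Five G ↔ five (bN (fun x => decide (Occurs G x))) = true) ∧
      (Six G ↔ six (bN (fun x => decide (Occurs G x))) = true) := by
  constructor
  · unfold Five five
    simp only [Bool.or_eq_true, Bool.and_eq_true, ← madeOf_iff hall, ← occurs_iff]
    tauto
  · unfold Six six
    simp only [Bool.or_eq_true, Bool.and_eq_true, ← madeOf_iff hall, ← occurs_iff]
    tauto

open Classical in
theorem main_named {V : Type*} [Fintype V] {G : SimpleGraph V}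
    (hall : ∀ C : G.ConnectedComponent, ∃ x : Name, Nonempty (C.toSimpleGraph ≃g graph x)) :
    (((T2 G).ncard = 3 ∧ (0 : ℝ) ∈ T2 G) ↔ Five G) ∧
      (((T2 G).ncard = 3 ∧ (0 : ℝ) ∉ T2 G) ↔ Six G) := by
  have h := combos (fun x => decide (Occurs G x))
  rw [← T2_named hall] at h
  rw [(five_iff hall).1, (five_iff hall).2]
  exact h

theorem main {V : Type*} [Fintype V] [DecidableEq V] (G : SimpleGraph V)
    [DecidableRel G.Adj] (h3 : G.IsRegularOfDegree 3) (hb : G.IsBipartite) :
    (numEig G = 5 ↔ Five G) ∧ (numEig G = 6 ↔ Six G) := by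
  obtain ⟨col, S⟩ := exists_setup h3 hb
  obtain ⟨h5, h6⟩ := numEig_T2 S
  rw [h5, h6]
  have hcl : (T2 G).ncard = 3 → ∀ C : G.ConnectedComponent, ∃ x : Name,
      Nonempty (C.toSimpleGraph ≃g graph x) := by
    intro hc C
    refine classify_comp (col := col) ?_ S.proper hc C
    intro v
    rw [← S.reg v]
    congr 1
    ext u
    simp
  constructor
  · constructor
    · intro h
      exact (main_named (hcl h.1)).1.1 h
    · intro h
      have hall : ∀ C : G.ConnectedComponent, ∃ x : Name,
          Nonempty (C.toSimpleGraph ≃g graph x) := by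
        rcases h with h | h | h | h <;> exact h.1.all
      exact (main_named hall).1.2 h
  · constructor
    · intro h
      exact (main_named (hcl h.1)).2.1 h
    · intro h
      have hall : ∀ C : G.ConnectedComponent, ∃ x : Name,
          Nonempty (C.toSimpleGraph ≃g graph x) := by
        rcases h with h | h | h | h | h | h <;> exact h.1.all
      exact (main_named hall).2.2 h

lemma lcf_path {n : ℕ} {L : List ℤ} {i : ℕ} (h : i + 1 < n) :
    (lcf n L).Adj ⟨i, by omega⟩ ⟨i + 1, h⟩ := by
  unfold lcf
  rw [SimpleGraph.fromRel_adj]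
  refine ⟨?_, Or.inl (Or.inl ?_)⟩
  · intro hh
    have := congrArg Fin.val hh
    simp at this
  · simp only
    push_cast
    rw [Int.emod_eq_of_lt (by omega) (by omega)]

lemma graph_connected (x : Name) : (graph x).Connected := by
  have h0 : ∀ (i : ℕ) (h : i < (code x).1),
      (graph x).Reachable ⟨0, code_pos x⟩ ⟨i, h⟩ := by
    intro i
    induction i with
    | zero => intro h; exact SimpleGraph.Reachable.refl _
    | succ i ih =>
      intro h
      exact (ih (by omega)).trans (SimpleGraph.Adj.reachable (lcf_path h))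
  refine ⟨?_⟩
  intro a b
  exact (h0 a.val a.2).symm.trans (h0 b.val b.2)

lemma graph_bipartite (x : Name) : (graph x).IsBipartite := by
  refine ⟨SimpleGraph.Coloring.mk (fun v => if colN (code x).1 v then (1 : Fin 2) else 0) ?_⟩
  intro u v huv
  have h := (setup_name x).proper u v huv
  revert h
  generalize colN (code x).1 u = a
  generalize colN (code x).1 v = b
  revert a b
  decide

lemma graph_cubic (x : Name) (v : Fin (code x).1) : ((graph x).neighborSet v).ncard = 3 := by
  rw [← (setup_name x).reg v, ← Set.ncard_coe_finset]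
  congr 1
  ext u
  simp

/-- the connected case -/
theorem main_connected {V : Type*} [Fintype V] [DecidableEq V] (G : SimpleGraph V)
    [DecidableRel G.Adj] (h3 : G.IsRegularOfDegree 3) (hb : G.IsBipartite)
    (hconn : G.Connected) :
    (numEig G = 5 ↔ ∃ x ∈ [pappus, tutteCoxeter], Nonempty (G ≃g graph x)) ∧
    (numEig G = 6 ↔ ∃ x ∈ [moebiusLadder, franklin, moebiusKantor, lcf16, desargues,
      desarguesMate, f26a, dyck], Nonempty (G ≃g graph x)) := by
  obtain ⟨col, S⟩ := exists_setup h3 hb
  obtain ⟨h5, h6⟩ := numEig_T2 S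
  rw [h5, h6]
  have key : ∀ x : Name, Nonempty (G ≃g graph x) →
      (((T2 G).ncard = 3 ∧ (0 : ℝ) ∈ T2 G) ↔ x ∈ [pappus, tutteCoxeter]) ∧
      (((T2 G).ncard = 3 ∧ (0 : ℝ) ∉ T2 G) ↔ x ∈ [moebiusLadder, franklin, moebiusKantor, lcf16,
        desargues, desarguesMate, f26a, dyck]) := by
    rintro x ⟨e⟩
    have h := combos (fun y => decide (y = x))
    have hT : T2 G = TG (fun y => decide (y = x)) := by
      rw [T2_iso e, T2_name]
      unfold TG
      ext t
      constructor
      · rintro ⟨i, hi, rfl⟩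
        exact ⟨x, by simp, i, hi, rfl⟩
      · rintro ⟨y, hy, i, hi, rfl⟩
        have : y = x := by simpa using hy
        subst this
        exact ⟨i, hi, rfl⟩
    rw [hT, h.1, h.2]
    clear h hT e
    cases x <;> decide +kernel
  have hcl : (T2 G).ncard = 3 → ∃ x : Name, Nonempty (G ≃g graph x) := by
    intro hc
    apply classify_all S hconn
    rw [← T2_eq]
    omega
  constructor
  · constructor
    · intro h
      obtain ⟨x, hx⟩ := hcl h.1
      exact ⟨x, (key x hx).1.1 h, hx⟩
    · rintro ⟨x, hx, he⟩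
      exact (key x he).1.2 hx
  · constructor
    · intro h
      obtain ⟨x, hx⟩ := hcl h.1
      exact ⟨x, (key x hx).2.1 h, hx⟩
    · rintro ⟨x, hx, he⟩
      exact (key x he).2.2 hx

end Pool.Agent.Helper727.Cub
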