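import Mathlib

namespace Pool.Agent.Helper727.Cub

/-- The graph on `{0, ..., n - 1}` with LCF code `L`: the vertex `i` is joined to `i + 1` and to
`i + L[i mod length L]`, all modulo `n`. -/
def lcf (n : ℕ) (L : List ℤ) : SimpleGraph (Fin n) :=
  SimpleGraph.fromRel fun i j => (j.val : ℤ) = ((i.val : ℤ) + 1) % n ∨
    (j.val : ℤ) = ((i.val : ℤ) + L.getD (i.val % L.length) 0) % n

/-- Names for thirteen connected cubic bipartite graphs. -/
inductive Name
  | k33 | cube | heawood
  | pappus | tutteCoxeter
  | moebiusLadder | franklin | moebiusKantor | lcf16 | desargues | desarguesMate | f26a | dyck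
  deriving DecidableEq

open Name

/-- Number of vertices and LCF code of each graph. -/
def code : Name → ℕ × List ℤ
  | k33 => (6, [3])
  | cube => (8, [3, -3])
  | heawood => (14, [5, -5])
  | pappus => (18, [5, 7, -7, 7, -7, -5])
  | tutteCoxeter => (30, [-13, -9, 7, -7, 9, 13])
  | moebiusLadder => (10, [5])
  | franklin => (12, [5, -5])
  | moebiusKantor => (16, [5, -5])
  | lcf16 => (16, [7, -7])
  | desargues => (20, [5, -5, 9, -9])
  | desarguesMate => (20, [-9, 5, 7, -7, -5, 9, -5, 5, 7, -7, 7, 9, -5, 5, -9, -7, 7, -7, -5, 5])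
  | f26a => (26, [-7, 7])
  | dyck => (32, [5, -5, 13, -13])

/-- The graph with a given name. -/
def graph (x : Name) : SimpleGraph (Fin (code x).1) := lcf (code x).1 (code x).2

end Pool.Agent.Helper727.Cub
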