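import Pool.Agent.Helper727.Cub.Spec

namespace Pool.Agent.Helper727.Cub

open Finset Matrix

variable {V : Type*} [Fintype V] [DecidableEq V]
variable {H : SimpleGraph V} [DecidableRel H.Adj] {col : V → Bool}

/-- `(M - a) (M - b)` -/
noncomputable def QQ (H : SimpleGraph V) [DecidableRel H.Adj] (a b : ℝ) : Matrix V V ℝ :=
  (Msq H - a • (1 : Matrix V V ℝ)) * (Msq H - b • (1 : Matrix V V ℝ))

lemma QQ_expand (a b : ℝ) :
    QQ H a b = Msq H * Msq H - (a + b) • Msq H + (a * b) • (1 : Matrix V V ℝ) := by
  unfold QQ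
  rw [sub_mul, mul_sub, mul_sub, mul_smul_comm, mul_one, smul_mul_assoc, one_mul, smul_mul_assoc,
    mul_smul_comm, one_mul, smul_smul, add_smul]
  abel

lemma QQ_apply (a b : ℝ) (x y : V) :
    QQ H a b x y = W4 H x y - (a + b) * W2 H x y + (if x = y then a * b else 0) := by
  rw [QQ_expand, Matrix.add_apply, Matrix.sub_apply, Matrix.smul_apply, Matrix.smul_apply,
    Msq2_apply, Msq_apply, Matrix.one_apply]
  simp only [smul_eq_mul, mul_ite, mul_one, mul_zero]

lemma QQ_comm_apply (a b : ℝ) (x y : V) : QQ H a b x y = QQ H a b y x := by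
  rw [QQ_apply, QQ_apply, W2_comm x y, W4_comm x y]
  by_cases h : x = y
  · subst h; rfl
  · rw [if_neg h, if_neg (fun hh => h hh.symm)]

lemma QQ_diag {a b : ℝ} {φ : Matrix V V ℝ →ₐ[ℝ] Matrix V V ℝ} {d : V → ℝ}
    (h : Msq H = φ (Matrix.diagonal d)) :
    QQ H a b = φ (Matrix.diagonal fun k => (d k - a) * (d k - b)) := by
  have e : ∀ t : ℝ, Msq H - t • (1 : Matrix V V ℝ) = φ (Matrix.diagonal fun k => d k - t) := by
    intro t
    have : (Matrix.diagonal fun k => d k - t) = Matrix.diagonal d - t • (1 : Matrix V V ℝ) := by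
      ext i j
      rw [Matrix.sub_apply, Matrix.smul_apply, Matrix.one_apply, Matrix.diagonal_apply,
        Matrix.diagonal_apply]
      by_cases hij : i = j
      · simp [hij]
      · simp [hij]
    rw [this, map_sub, map_smul, map_one, ← h]
  unfold QQ
  rw [e, e, ← map_mul, Matrix.diagonal_mul_diagonal]

lemma QQ_nine {a b : ℝ} (hT : ∀ t ∈ spectrum ℝ (Msq H), t = 9 ∨ t = a ∨ t = b) :
    Msq H * QQ H a b = (9 : ℝ) • QQ H a b := by
  obtain ⟨φ, d, _, _, h3, h4⟩ := diag_exists (Msq H) Msq_isHermitian
  have hd : ∀ k, d k = 9 ∨ d k = a ∨ d k = b := fun k => hT _ ((h4 _).2 ⟨k, rfl⟩)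
  rw [QQ_diag h3]
  conv_lhs => rw [h3]
  rw [← map_mul, Matrix.diagonal_mul_diagonal, ← map_smul]
  congr 1
  ext i j
  rw [Matrix.smul_apply, Matrix.diagonal_apply, Matrix.diagonal_apply]
  by_cases hij : i = j
  · subst hij
    rw [if_pos rfl, if_pos rfl, smul_eq_mul]
    rcases hd i with h | h | h
    · rw [h]
    · rw [h]; ring
    · rw [h]; ring
  · rw [if_neg hij, if_neg hij, smul_zero]

lemma QQ_const_left (S : Setup H col) (hconn : H.Connected) {a b : ℝ}
    (hT : ∀ t ∈ spectrum ℝ (Msq H), t = 9 ∨ t = a ∨ t = b) {x y z : V} (hxy : col x = col y) :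
    QQ H a b x z = QQ H a b y z := by
  have h1 := QQ_nine hT
  have h2 : Msq H *ᵥ (fun w => QQ H a b w z) = (9 : ℝ) • (fun w => QQ H a b w z) := by
    ext w
    have := congrFun (congrFun h1 w) z
    rw [Matrix.mul_apply, Matrix.smul_apply] at this
    exact this
  exact harmonic S hconn h2 hxy

lemma QQ_const (S : Setup H col) (hconn : H.Connected) {a b : ℝ}
    (hT : ∀ t ∈ spectrum ℝ (Msq H), t = 9 ∨ t = a ∨ t = b) :
    ∃ c : ℝ, ∀ x y, col x = col y → QQ H a b x y = c := by
  obtain ⟨v⟩ := hconn.nonempty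
  -- constant on each class
  have h1 : ∀ x y, col x = col y → QQ H a b x y = QQ H a b y y := fun x y h =>
    QQ_const_left S hconn hT h
  have h2 : ∀ x y, col x = col y → QQ H a b x x = QQ H a b y y := by
    intro x y h
    exact (h1 y x h.symm).symm.trans ((QQ_comm_apply a b y x).trans (h1 x y h))
  -- compare the two classes along an edge
  have h3 : ∀ x y, H.Adj x y → QQ H a b x x = QQ H a b y y := by
    intro x y hxy
    have hcomm : H.adjMatrix ℝ * QQ H a b = QQ H a b * H.adjMatrix ℝ := by
      rw [QQ_expand]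
      unfold Msq
      simp only [mul_add, mul_sub, add_mul, sub_mul, mul_smul_comm, smul_mul_assoc, mul_one,
        one_mul, mul_assoc]
    have h4 := congrFun (congrFun hcomm x) y
    rw [SimpleGraph.adjMatrix_mul_apply, SimpleGraph.mul_adjMatrix_apply] at h4
    have h5 : ∑ u ∈ H.neighborFinset x, QQ H a b u y = 3 * QQ H a b y y := by
      rw [Finset.sum_congr rfl (g := fun _ => QQ H a b y y)]
      · rw [Finset.sum_const, S.reg]
        simp
      · intro u hu
        apply h1
        rw [SimpleGraph.mem_neighborFinset] at hu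
        have g1 := S.proper _ _ hu
        have g2 := S.proper _ _ hxy
        revert g1 g2
        generalize col x = p
        generalize col y = q
        generalize col u = r
        revert p q r
        decide
    have h6 : ∑ u ∈ H.neighborFinset y, QQ H a b x u = 3 * QQ H a b x x := by
      rw [Finset.sum_congr rfl (g := fun _ => QQ H a b x x)]
      · rw [Finset.sum_const, S.reg]
        simp
      · intro u hu
        rw [QQ_comm_apply]
        apply h1
        rw [SimpleGraph.mem_neighborFinset] at hu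
        have g1 := S.proper _ _ hu
        have g2 := S.proper _ _ hxy
        revert g1 g2
        generalize col x = p
        generalize col y = q
        generalize col u = r
        revert p q r
        decide
    rw [h5, h6] at h4
    linarith
  have h7 : ∀ y, QQ H a b v v = QQ H a b y y := by
    intro y
    have hr : H.Reachable v y := hconn.preconnected _ _
    rw [SimpleGraph.reachable_iff_reflTransGen] at hr
    induction hr with
    | refl => rfl
    | tail _ hbc ih => rw [ih, h3 _ _ hbc]
  refine ⟨QQ H a b v v, ?_⟩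
  intro x y hxy
  rw [h1 x y hxy, h7 y]

lemma QQ_diff (S : Setup H col) {a b : ℝ} {x y : V} (h : col x ≠ col y) : QQ H a b x y = 0 := by
  rw [QQ_apply, W2_diff S h, W4_diff S h, if_neg (fun hh => h (by rw [hh]))]
  simp

lemma QQ_row (S : Setup H col) {a b : ℝ} (x : V) :
    ∑ y, QQ H a b x y = (9 - a) * (9 - b) := by
  have h1 : ∀ t : ℝ, (Msq H - t • (1 : Matrix V V ℝ)) *ᵥ (fun _ => (1 : ℝ)) =
      (9 - t) • (fun _ => (1 : ℝ)) := by
    intro t
    rw [Matrix.sub_mulVec, Msq_one S, Matrix.smul_mulVec, Matrix.one_mulVec, ← sub_smul]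
  have h2 : QQ H a b *ᵥ (fun _ => (1 : ℝ)) = ((9 - a) * (9 - b)) • (fun _ => (1 : ℝ)) := by
    unfold QQ
    rw [← Matrix.mulVec_mulVec, h1, Matrix.mulVec_smul, h1, smul_smul, mul_comm]
  have h3 := congrFun h2 x
  rw [Matrix.mulVec, dotProduct] at h3
  simpa using h3

/-- size of a colour class -/
def cls (col : V → Bool) (x : V) : ℕ := (univ.filter fun y => col x = col y).card

lemma three_le_cls (S : Setup H col) (x : V) : 3 ≤ cls col x := by
  have hne : (H.neighborFinset x).Nonempty := by
    rw [← Finset.card_pos, S.reg]; norm_num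
  obtain ⟨y, hy⟩ := hne
  rw [SimpleGraph.mem_neighborFinset] at hy
  rw [← S.reg y]
  apply Finset.card_le_card
  intro z hz
  rw [SimpleGraph.mem_neighborFinset] at hz
  rw [mem_filter]
  refine ⟨mem_univ _, ?_⟩
  have g1 := S.proper _ _ hy
  have g2 := S.proper _ _ hz
  revert g1 g2
  generalize col x = p
  generalize col y = q
  generalize col z = r
  revert p q r
  decide

/-- counting eigenvalues -/
lemma counts (S : Setup H col) (hconn : H.Connected) {a b c : ℝ} (ha : a ≠ 9) (hb : b ≠ 9)
    (hab : a ≠ b) (haT : a ∈ spectrum ℝ (Msq H)) (hbT : b ∈ spectrum ℝ (Msq H))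
    (hT : ∀ t ∈ spectrum ℝ (Msq H), t = 9 ∨ t = a ∨ t = b)
    (hc : ∀ x y, col x = col y → QQ H a b x y = c) :
    ∃ v na nb : ℕ, 3 ≤ v ∧ 1 ≤ na ∧ 1 ≤ nb ∧ na + nb + 2 = 2 * v ∧
      a * na + b * nb + 18 = 6 * v ∧ c * v = (9 - a) * (9 - b) := by
  obtain ⟨x0⟩ := hconn.nonempty
  have hne : (H.neighborFinset x0).Nonempty := by
    rw [← Finset.card_pos, S.reg]; norm_num
  obtain ⟨x1, hx1⟩ := hne
  rw [SimpleGraph.mem_neighborFinset] at hx1
  have hcol := S.proper _ _ hx1
  have hprod : (9 - a) * (9 - b) ≠ 0 := by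
    apply mul_ne_zero
    · intro h; apply ha; linarith
    · intro h; apply hb; linarith
  have hrow : ∀ x, c * (cls col x : ℝ) = (9 - a) * (9 - b) := by
    intro x
    rw [← QQ_row S x (a := a) (b := b)]
    unfold cls
    rw [Finset.card_eq_sum_ones, Nat.cast_sum, Finset.mul_sum, Finset.sum_filter]
    apply Finset.sum_congr rfl
    intro y _
    by_cases h : col x = col y
    · rw [if_pos h, hc x y h]
      simp
    · rw [if_neg h, QQ_diff S h]
  have hc0 : c ≠ 0 := by
    intro h
    apply hprod
    rw [← hrow x0, h, zero_mul]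
  have hcls : cls col x0 = cls col x1 := by
    have h1 := hrow x0
    have h2 := hrow x1
    have h3 : c * (cls col x0 : ℝ) = c * (cls col x1 : ℝ) := by rw [h1, h2]
    have h4 := mul_left_cancel₀ hc0 h3
    exact_mod_cast h4
  have hcard : Fintype.card V = 2 * cls col x0 := by
    have h1 : Fintype.card V = cls col x0 + cls col x1 := by
      unfold cls
      rw [← Finset.card_univ, ← Finset.card_filter_add_card_filter_not (fun y => col x0 = col y)]
      congr 2
      apply Finset.filter_congr
      intro y _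
      revert hcol
      generalize col x0 = p
      generalize col x1 = q
      generalize col y = r
      revert p q r
      decide
    omega
  obtain ⟨φ, d, _, htr, h3, h4⟩ := diag_exists (Msq H) Msq_isHermitian
  have hd : ∀ k, d k = 9 ∨ d k = a ∨ d k = b := fun k => hT _ ((h4 _).2 ⟨k, rfl⟩)
  obtain ⟨n9, hn9⟩ : ∃ n, n = (univ.filter fun k => d k = 9).card := ⟨_, rfl⟩
  obtain ⟨na, hna⟩ : ∃ n, n = (univ.filter fun k => d k = a).card := ⟨_, rfl⟩
  obtain ⟨nb, hnb⟩ : ∃ n, n = (univ.filter fun k => d k = b).card := ⟨_, rfl⟩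
  have hsum : ∀ F : ℝ → ℝ, ∑ k, F (d k) = n9 * F 9 + na * F a + nb * F b := by
    intro F
    have e : ∀ k, F (d k) = (if d k = 9 then F 9 else 0) + (if d k = a then F a else 0) +
        (if d k = b then F b else 0) := by
      intro k
      rcases hd k with h | h | h
      · rw [h, if_pos rfl, if_neg (Ne.symm ha), if_neg (Ne.symm hb)]; ring
      · rw [h, if_neg ha, if_pos rfl, if_neg hab]; ring
      · rw [h, if_neg hb, if_neg (Ne.symm hab), if_pos rfl]; ring
    simp only [e, Finset.sum_add_distrib]
    rw [← Finset.sum_filter, ← Finset.sum_filter, ← Finset.sum_filter, Finset.sum_const,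
      Finset.sum_const, Finset.sum_const, ← hn9, ← hna, ← hnb]
    simp
  have hq : (n9 : ℝ) * ((9 - a) * (9 - b)) = 2 * ((9 - a) * (9 - b)) := by
    have h5 : (QQ H a b).trace = ∑ k, (fun t => (t - a) * (t - b)) (d k) := by
      rw [QQ_diag h3, htr, Matrix.trace_diagonal]
    rw [hsum (fun t => (t - a) * (t - b))] at h5
    have h6 : (QQ H a b).trace = Fintype.card V * c := by
      rw [Matrix.trace]
      simp only [Matrix.diag_apply]
      rw [Finset.sum_congr rfl (fun x _ => hc x x rfl), Finset.sum_const, Finset.card_univ]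
      simp
    rw [h6, hcard] at h5
    have h7 := hrow x0
    push_cast at h5
    simp only [sub_self, zero_mul, mul_zero, add_zero] at h5
    rw [← h5]
    linear_combination (2 : ℝ) * h7
  have hn2 : n9 = 2 := by
    have := mul_right_cancel₀ hprod hq
    exact_mod_cast this
  have hm : (6 : ℝ) * cls col x0 = 18 + a * na + b * nb := by
    have h5 : (Msq H).trace = ∑ k, (fun t => t) (d k) := by
      conv_lhs => rw [h3]
      rw [htr, Matrix.trace_diagonal]
    rw [hsum (fun t => t)] at h5
    have h6 : (Msq H).trace = Fintype.card V * 3 := by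
      rw [Matrix.trace]
      simp only [Matrix.diag_apply]
      rw [Finset.sum_congr rfl (g := fun _ => (3 : ℝ)) (fun x _ => by
        rw [Msq_apply, W2_self S]; norm_num), Finset.sum_const, Finset.card_univ]
      simp
    rw [h6, hcard, hn2] at h5
    push_cast at h5
    linarith
  have hone : (Fintype.card V : ℝ) = n9 + na + nb := by
    have h5 := hsum (fun _ => 1)
    rw [Finset.sum_const, Finset.card_univ] at h5
    simpa using h5
  rw [hcard, hn2] at hone
  refine ⟨cls col x0, na, nb, three_le_cls S x0, ?_, ?_, ?_, by linarith, hrow x0⟩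
  · obtain ⟨k, hk⟩ := (h4 a).1 haT
    rw [hna]
    exact Finset.card_pos.2 ⟨k, by simp [hk]⟩
  · obtain ⟨k, hk⟩ := (h4 b).1 hbT
    rw [hnb]
    exact Finset.card_pos.2 ⟨k, by simp [hk]⟩
  · have : ((na + nb + 2 : ℕ) : ℝ) = ((2 * cls col x0 : ℕ) : ℝ) := by
      push_cast
      push_cast at hone
      linarith
    exact_mod_cast this

end Pool.Agent.Helper727.Cub
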