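import Pool.Agent.Helper727.Cub.Param

namespace Pool.Agent.Helper727.Cub

open Finset Matrix

variable {V : Type*} [Fintype V] [DecidableEq V]
variable {H : SimpleGraph V} [DecidableRel H.Adj] {col : V → Bool}

lemma spec_integral {t : ℝ} (ht : t ∈ spectrum ℝ (Msq H)) : IsIntegral ℤ t := by
  rw [Matrix.mem_spectrum_iff_isRoot_charpoly] at ht
  have h1 : Msq H = (H.adjMatrix ℤ * H.adjMatrix ℤ).map (Int.castRingHom ℝ) := by
    rw [Matrix.map_mul]
    unfold Msq
    have : (H.adjMatrix ℤ).map (Int.castRingHom ℝ) = H.adjMatrix ℝ := by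
      ext i j
      rw [Matrix.map_apply, SimpleGraph.adjMatrix_apply, SimpleGraph.adjMatrix_apply]
      split_ifs <;> simp
    rw [this]
  rw [h1, Matrix.charpoly_map, Polynomial.IsRoot, Polynomial.eval_map] at ht
  exact ⟨_, Matrix.charpoly_monic _, ht⟩

lemma int_of_rat {x : ℝ} (hx : IsIntegral ℤ x) {q : ℚ} (h : x = q) : ∃ n : ℤ, x = n := by
  have h1 : IsIntegral ℤ ((algebraMap ℚ ℝ) q) := by
    have : (algebraMap ℚ ℝ) q = x := by rw [h]; rfl
    rw [this]
    exact hx
  rw [isIntegral_algebraMap_iff (algebraMap ℚ ℝ).injective] at h1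
  rw [IsIntegrallyClosed.isIntegral_iff] at h1
  obtain ⟨n, hn⟩ := h1
  refine ⟨n, ?_⟩
  rw [h, ← hn]
  simp

/-- If all distinct vertices of the same colour have the same number of common neighbours, then
there is at most one eigenvalue besides `9`. -/
lemma spec_of_const (S : Setup H col) {l : ℕ}
    (hl : ∀ x y, col x = col y → x ≠ y → W2 H x y = l) {t : ℝ}
    (ht : t ∈ spectrum ℝ (Msq H)) : t = 9 ∨ t = 3 - l := by
  have hX : ∀ x y, Msq H x y = (3 - l) * (if x = y then 1 else 0) +
      (if col x = col y then (l : ℝ) else 0) := by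
    intro x y
    rw [Msq_apply]
    by_cases h : x = y
    · subst h
      rw [if_pos rfl, if_pos rfl, W2_self S]
      push_cast
      ring
    · rw [if_neg h]
      by_cases hc : col x = col y
      · rw [if_pos hc, hl x y hc h]
        ring
      · rw [if_neg hc, W2_diff S hc]
        simp
  rw [mem_spec_iff] at ht
  obtain ⟨g, hg, hgt⟩ := ht
  -- the class sums
  have h1 : ∀ x, t * g x = (3 - l) * g x + l * ∑ y, (if col x = col y then g y else 0) := by
    intro x
    have h2 := congrFun hgt x
    rw [Matrix.mulVec, dotProduct, Pi.smul_apply, smul_eq_mul] at h2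
    rw [← h2]
    simp only [hX, add_mul, Finset.sum_add_distrib]
    congr 1
    · rw [Finset.sum_congr rfl (g := fun y => if x = y then (3 - (l : ℝ)) * g y else 0)]
      · rw [Finset.sum_ite_eq]
        simp
      · intro y _
        by_cases h : x = y
        · simp [h]
        · simp [h]
    · rw [Finset.mul_sum]
      apply Finset.sum_congr rfl
      intro y _
      by_cases h : col x = col y
      · simp [h]
      · simp [h]
  by_cases h9 : t = 9
  · exact Or.inl h9
  right
  -- the row sum
  have h2 : ∀ x, (9 : ℝ) = (3 - l) + l * cls col x := by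
    intro x
    have h3 := W2_row S x
    have h4 : ∑ y, (W2 H x y : ℝ) = 9 := by exact_mod_cast h3
    rw [← h4]
    have h5 : ∀ y, (W2 H x y : ℝ) = (3 - l) * (if x = y then 1 else 0) +
      (if col x = col y then (l : ℝ) else 0) := by
      intro y
      rw [← Msq_apply, hX]
    simp only [h5, Finset.sum_add_distrib, ← Finset.mul_sum]
    rw [Finset.sum_ite_eq, if_pos (mem_univ _), ← Finset.sum_filter, Finset.sum_const]
    unfold cls
    simp only [nsmul_eq_mul]
    ring
  have h3 : ∀ x, ∑ y, (if col x = col y then g y else 0) = 0 := by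
    intro x
    have h4 : ∑ z, (if col x = col z then t * g z else 0) =
        ∑ z, (if col x = col z then (3 - l) * g z + l * ∑ y, (if col z = col y then g y else 0)
          else 0) := by
      apply Finset.sum_congr rfl
      intro z _
      by_cases h : col x = col z
      · rw [if_pos h, if_pos h, h1]
      · rw [if_neg h, if_neg h]
    have h5 : ∑ z, (if col x = col z then t * g z else 0) =
        t * ∑ y, (if col x = col y then g y else 0) := by
      rw [Finset.mul_sum]
      apply Finset.sum_congr rfl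
      intro z _
      split_ifs <;> simp
    have h6 : ∑ z, (if col x = col z then (3 - l) * g z +
        l * ∑ y, (if col z = col y then g y else 0) else 0) =
        (3 - l) * ∑ y, (if col x = col y then g y else 0) +
          l * cls col x * ∑ y, (if col x = col y then g y else 0) := by
      have h7 : ∀ z, (if col x = col z then (3 - l) * g z +
          l * ∑ y, (if col z = col y then g y else 0) else 0) =
          (3 - l) * (if col x = col z then g z else 0) +
          (if col x = col z then 1 else 0) *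
            (l * ∑ y, (if col x = col y then g y else 0)) := by
        intro z
        by_cases h : col x = col z
        · rw [if_pos h, if_pos h, if_pos h, h]
          ring
        · rw [if_neg h, if_neg h, if_neg h]
          ring
      simp only [h7, Finset.sum_add_distrib, ← Finset.mul_sum, ← Finset.sum_mul]
      unfold cls
      rw [Finset.sum_boole]
      ring
    rw [h5, h6] at h4
    have h8 := h2 x
    have h9' : (t - 9) * ∑ y, (if col x = col y then g y else 0) = 0 := by
      linear_combination h4 - (∑ y, (if col x = col y then g y else 0)) * h8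
    rcases mul_eq_zero.1 h9' with h | h
    · exact absurd (by linarith) h9
    · exact h
  obtain ⟨x0, hx0⟩ := Function.ne_iff.1 hg
  have h4 := h1 x0
  rw [h3 x0, mul_zero, add_zero] at h4
  exact mul_right_cancel₀ hx0 h4

def allB : ℕ → (ℕ → Bool) → Bool
  | 0, _ => true
  | n + 1, f => f n && allB n f

lemma allB_spec : ∀ {n : ℕ} {f : ℕ → Bool}, allB n f = true → ∀ i < n, f i = true := by
  intro n
  induction n with
  | zero => intro f _ i hi; omega
  | succ n ih =>
    intro f h i hi
    rw [allB, Bool.and_eq_true] at h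
    rcases Nat.lt_succ_iff_lt_or_eq.1 hi with h1 | h1
    · exact ih h.2 i h1
    · rw [h1]; exact h.1

def tgt : List (ℕ × ℕ × ℕ) := [(5, 0, 2), (3, 0, 6), (4, 3, 8), (6, 0, 3), (5, 4, 4), (6, 5, 2),
  (4, 0, 3), (4, 0, 9), (4, 3, 6), (6, 5, 4), (4, 0, 5), (6, 0, 1)]

def tgtB (s p c : ℕ) : Bool :=
  tgt.any fun q => Nat.beq q.1 s && Nat.beq q.2.1 p && Nat.beq q.2.2 c

lemma tgtB_spec {s p c : ℕ} (h : tgtB s p c = true) : (s, p, c) ∈ tgt := by
  rw [tgtB, List.any_eq_true] at h
  obtain ⟨q, hq, h2⟩ := h
  rw [Bool.and_eq_true, Bool.and_eq_true] at h2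
  have e1 := Nat.eq_of_beq_eq_true h2.1.1
  have e2 := Nat.eq_of_beq_eq_true h2.1.2
  have e3 := Nat.eq_of_beq_eq_true h2.2
  rw [← e1, ← e2, ← e3]
  exact hq

/-- here `c = 15 + 2 k + a b - 3 (a + b)` -/
def enumB : Bool := allB 9 fun a => allB a fun b => allB 7 fun k => allB 82 fun v =>
  !(Nat.beq (Nat.mul (Nat.sub (Nat.add 15 (Nat.add (Nat.mul 2 k) (Nat.mul a b)))
      (Nat.mul 3 (Nat.add a b))) v) (Nat.mul (Nat.sub 9 a) (Nat.sub 9 b))) || Nat.blt v 3 ||
   allB 162 fun na => Nat.beq na 0 || Nat.blt (Nat.mul 2 v) (Nat.add na 3) ||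
     !(Nat.beq (Nat.add (Nat.add (Nat.mul a na) (Nat.mul b (Nat.sub (Nat.mul 2 v) (Nat.add 2 na))))
        18) (Nat.mul 6 v)) ||
     tgtB (Nat.add a b) (Nat.mul a b) (Nat.sub (Nat.add 15 (Nat.add (Nat.mul 2 k) (Nat.mul a b)))
      (Nat.mul 3 (Nat.add a b)))

lemma enumB_true : enumB = true := by decide +kernel

lemma enum_int {a b k v na c : ℕ} (ha : a < 9) (hb : b < a) (hk : k < 7) (hv : v < 82)
    (hv3 : 3 ≤ v) (hc : c + 3 * (a + b) = 15 + 2 * k + a * b)
    (hcv : c * v = (9 - a) * (9 - b)) (h1 : 1 ≤ na) (h2 : na + 3 ≤ 2 * v)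
    (h3 : a * na + b * (2 * v - (2 + na)) + 18 = 6 * v) : (a + b, a * b, c) ∈ tgt := by
  have h := enumB_true
  unfold enumB at h
  have h4 := allB_spec (allB_spec (allB_spec (allB_spec h a ha) b hb) k hk) v hv
  have e1 : ∀ x y : ℕ, Nat.add x y = x + y := fun _ _ => rfl
  have e2 : ∀ x y : ℕ, Nat.mul x y = x * y := fun _ _ => rfl
  have e3 : ∀ x y : ℕ, Nat.sub x y = x - y := fun _ _ => rfl
  simp only [e1, e2, e3] at h4
  have hcc : 15 + (2 * k + a * b) - 3 * (a + b) = c := by omega
  rw [hcc, hcv, Nat.beq_refl] at h4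
  have h5 : Nat.blt v 3 = false := by
    rw [Bool.eq_false_iff]
    intro hh
    rw [Nat.blt_eq] at hh
    omega
  rw [h5, Bool.not_true, Bool.false_or, Bool.false_or] at h4
  have h6 := allB_spec h4 na (by omega)
  have h7 : Nat.beq na 0 = false := by
    rw [Bool.eq_false_iff]
    intro hh
    have := Nat.eq_of_beq_eq_true hh
    omega
  have h8 : Nat.blt (2 * v) (na + 3) = false := by
    rw [Bool.eq_false_iff]
    intro hh
    rw [Nat.blt_eq] at hh
    omega
  rw [h7, h8, h3, Nat.beq_refl, Bool.not_true, Bool.false_or, Bool.false_or, Bool.false_or] at h6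
  exact tgtB_spec h6

lemma diag_val (S : Setup H col) (x : V) :
    15 ≤ W4 H x x ∧ W4 H x x ≤ 27 ∧ W4 H x x % 2 = 1 := by
  rw [W4_self]
  have hrow := W2_row S x
  have h1 : ∑ y, W2 H x y * W2 H x y =
      W2 H x x * W2 H x x + ∑ y ∈ univ.erase x, W2 H x y * W2 H x y := by
    rw [← Finset.add_sum_erase _ _ (mem_univ x)]
  have h2 : ∑ y, W2 H x y = W2 H x x + ∑ y ∈ univ.erase x, W2 H x y := by
    rw [← Finset.add_sum_erase _ _ (mem_univ x)]
  have h3 : ∑ y ∈ univ.erase x, W2 H x y ≤ ∑ y ∈ univ.erase x, W2 H x y * W2 H x y := by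
    apply Finset.sum_le_sum
    intro y _
    exact Nat.le_mul_self _
  have h4 : ∑ y, W2 H x y * W2 H x y ≤ ∑ y, 3 * W2 H x y := by
    apply Finset.sum_le_sum
    intro y _
    exact Nat.mul_le_mul_right _ (W2_le S x y)
  rw [← Finset.mul_sum, hrow] at h4
  rw [W2_self S] at h1 h2
  refine ⟨by omega, h4, ?_⟩
  have h5 : (∑ y, W2 H x y * W2 H x y) % 2 = (∑ y, W2 H x y) % 2 := by
    rw [Finset.sum_nat_mod, Finset.sum_nat_mod univ 2 (fun y => W2 H x y)]
    congr 1
    apply Finset.sum_congr rfl
    intro y _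
    have := W2_le S x y
    interval_cases W2 H x y <;> rfl
  rw [h5, hrow]

theorem params_three (S : Setup H col) (hconn : H.Connected) {a b : ℝ} (ha : a ≠ 9) (hb : b ≠ 9)
    (hab : a ≠ b) (haT : a ∈ spectrum ℝ (Msq H)) (hbT : b ∈ spectrum ℝ (Msq H))
    (hT : ∀ t ∈ spectrum ℝ (Msq H), t = 9 ∨ t = a ∨ t = b) :
    ∃ s p c : ℕ, (s, p, c) ∈ tgt ++ [(3, 1, 11), (5, 3, 3)] ∧ Par H col s p c := by
  obtain ⟨c, hc⟩ := QQ_const S hconn hT
  obtain ⟨v, na, nb, hv3, hna, hnb, hn, hm, hcv⟩ := counts S hconn ha hb hab haT hbT hT hc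
  obtain ⟨x0⟩ := hconn.nonempty
  have hQ : ∀ x y, col x = col y →
      (W4 H x y : ℝ) - (a + b) * W2 H x y + (if x = y then a * b else 0) = c := by
    intro x y h
    rw [← QQ_apply, hc x y h]
  obtain ⟨ha0, ha9⟩ := spec_bounds S haT
  obtain ⟨hb0, hb9⟩ := spec_bounds S hbT
  have ha9' : a < 9 := lt_of_le_of_ne ha9 ha
  have hb9' : b < 9 := lt_of_le_of_ne hb9 hb
  -- not constant
  have hnc : ∃ x y x' y', col x = col y ∧ x ≠ y ∧ col x' = col y' ∧ x' ≠ y' ∧
      W2 H x y ≠ W2 H x' y' := by
    by_contra hcon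
    push Not at hcon
    have h3 := three_le_cls S x0
    have h4 : 1 < (univ.filter fun y => col x0 = col y).card := by
      unfold cls at h3
      omega
    obtain ⟨p, hp, q, hq, hpq⟩ := Finset.one_lt_card.1 h4
    rw [mem_filter] at hp hq
    have hl : ∀ x y, col x = col y → x ≠ y → W2 H x y = W2 H p q := by
      intro x y h1 h2
      exact hcon x y p q h1 h2 (hp.2.symm.trans hq.2) hpq
    have e1 := spec_of_const S hl haT
    have e2 := spec_of_const S hl hbT
    rcases e1 with e1 | e1
    · exact ha e1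
    · rcases e2 with e2 | e2
      · exact hb e2
      · exact hab (e1.trans e2.symm)
  obtain ⟨x, y, x', y', hxy, hne, hxy', hne', hW⟩ := hnc
  have q1 := hQ x y hxy
  have q2 := hQ x' y' hxy'
  rw [if_neg hne, add_zero] at q1
  rw [if_neg hne', add_zero] at q2
  have hsq : a + b = (((W4 H x y : ℚ) - W4 H x' y') / ((W2 H x y : ℚ) - W2 H x' y') : ℚ) := by
    have hd : ((W2 H x y : ℝ) - W2 H x' y') ≠ 0 := by
      intro h
      apply hW
      have : (W2 H x y : ℝ) = W2 H x' y' := by linarith
      exact_mod_cast this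
    push_cast
    rw [eq_div_iff hd]
    linear_combination q2 - q1
  obtain ⟨sz, hsz⟩ := int_of_rat ((spec_integral haT).add (spec_integral hbT)) hsq
  have hcz : c = ((W4 H x y - sz * W2 H x y : ℤ) : ℝ) := by
    push_cast
    rw [← hsz, ← q1]
  have hx0 := hQ x0 x0 rfl
  rw [if_pos rfl, W2_self S] at hx0
  obtain ⟨cz, hcz'⟩ : ∃ cz : ℤ, cz = W4 H x y - sz * W2 H x y := ⟨_, rfl⟩
  rw [← hcz'] at hcz
  have hpz : a * b = ((cz + 3 * sz - W4 H x0 x0 : ℤ) : ℝ) := by
    push_cast
    rw [← hsz, ← hcz]
    push_cast at hx0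
    linarith
  obtain ⟨pz, hpz'⟩ : ∃ pz : ℤ, pz = cz + 3 * sz - W4 H x0 x0 := ⟨_, rfl⟩
  rw [← hpz'] at hpz
  have hcpos : 0 < c := by
    have h1 : 0 < (9 - a) * (9 - b) := mul_pos (by linarith) (by linarith)
    rw [← hcv] at h1
    have h2 : (0 : ℝ) ≤ v := Nat.cast_nonneg v
    by_contra hneg
    push Not at hneg
    have : c * v ≤ 0 := mul_nonpos_of_nonpos_of_nonneg hneg h2
    linarith
  have hs0 : 0 ≤ sz := by
    have : (0 : ℝ) ≤ sz := by rw [← hsz]; linarith
    exact_mod_cast this
  have hp0 : 0 ≤ pz := by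
    have : (0 : ℝ) ≤ pz := by rw [← hpz]; exact mul_nonneg ha0 hb0
    exact_mod_cast this
  have hc0 : 0 ≤ cz := by
    have : (0 : ℝ) ≤ cz := by rw [← hcz]; exact hcpos.le
    exact_mod_cast this
  lift sz to ℕ using hs0
  lift pz to ℕ using hp0
  lift cz to ℕ using hc0
  have hsn : a + b = (sz : ℝ) := by rw [hsz]; simp
  have hpn : a * b = (pz : ℝ) := by rw [hpz]; simp
  have hcn : c = (cz : ℝ) := by rw [hcz]; simp
  have hPar : Par H col sz pz cz := by
    intro z w hzw
    have h1 := hQ z w hzw
    have h2 : ((W4 H z w + (if z = w then pz else 0) : ℕ) : ℝ) = ((cz + sz * W2 H z w : ℕ) : ℝ) := by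
      push_cast
      rw [← hcn, ← hsn, ← h1, ← hpn]
      by_cases hh : z = w
      · simp only [hh, if_true]
        ring
      · simp only [hh, if_false]
        ring
    exact_mod_cast h2
  refine ⟨sz, pz, cz, ?_, hPar⟩
  obtain ⟨hw1, hw2, hw3⟩ := diag_val S x0
  have hw4 : W4 H x0 x0 + pz = cz + 3 * sz := by omega
  have hcv' : (cz : ℝ) * v = 81 - 9 * sz + pz := by
    rw [← hcn, hcv, ← hsn, ← hpn]; ring
  have hcvn : cz * v + 9 * sz = 81 + pz := by
    have : ((cz * v + 9 * sz : ℕ) : ℝ) = ((81 + pz : ℕ) : ℝ) := by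
      push_cast
      linarith
    exact_mod_cast this
  have hcz1 : 1 ≤ cz := by
    have : (0 : ℝ) < cz := by rw [← hcn]; exact hcpos
    have : 0 < cz := by exact_mod_cast this
    omega
  by_cases hrat : ∃ q : ℚ, a = q
  · -- integral eigenvalues
    rw [List.mem_append]
    left
    obtain ⟨q, hq⟩ := hrat
    obtain ⟨az, haz⟩ := int_of_rat (spec_integral haT) hq
    have haz0 : 0 ≤ az := by
      have : (0 : ℝ) ≤ az := by rw [← haz]; exact ha0
      exact_mod_cast this
    lift az to ℕ using haz0
    have haz' : a = (az : ℝ) := by rw [haz]; simp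
    have hbz : b = (((sz : ℤ) - az : ℤ) : ℝ) := by
      push_cast
      rw [← haz']
      linarith
    have hbz0 : 0 ≤ (sz : ℤ) - az := by
      have : (0 : ℝ) ≤ (((sz : ℤ) - az : ℤ) : ℝ) := by rw [← hbz]; exact hb0
      exact_mod_cast this
    obtain ⟨bz, hbz'⟩ := Int.eq_ofNat_of_zero_le hbz0
    have hbz2 : b = (bz : ℝ) := by rw [hbz, hbz']; simp
    have hsab : sz = az + bz := by omega
    have hpab : pz = az * bz := by
      have : (pz : ℝ) = ((az * bz : ℕ) : ℝ) := by
        push_cast
        rw [← hpn, ← haz', ← hbz2]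
      exact_mod_cast this
    have haz9 : az < 9 := by
      have : (az : ℝ) < 9 := by rw [← haz']; exact ha9'
      exact_mod_cast this
    have hbz9 : bz < 9 := by
      have : (bz : ℝ) < 9 := by rw [← hbz2]; exact hb9'
      exact_mod_cast this
    have habz : az ≠ bz := by
      intro h
      apply hab
      rw [haz', hbz2, h]
    have hmn : az * na + bz * nb + 18 = 6 * v := by
      have : ((az * na + bz * nb + 18 : ℕ) : ℝ) = ((6 * v : ℕ) : ℝ) := by
        push_cast
        rw [← haz', ← hbz2]
        exact hm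
      exact_mod_cast this
    have hcv9 : cz * v = (9 - az) * (9 - bz) := by
      obtain ⟨a', ha'⟩ : ∃ a', a' + az = 9 := ⟨9 - az, by omega⟩
      obtain ⟨b', hb'⟩ : ∃ b', b' + bz = 9 := ⟨9 - bz, by omega⟩
      have e1 : 9 - az = a' := by omega
      have e2 : 9 - bz = b' := by omega
      rw [e1, e2]
      have e3 : (cz : ℝ) * v = a' * b' := by
        have h1 : (a' : ℝ) = 9 - a := by
          have : ((a' + az : ℕ) : ℝ) = 9 := by rw [ha']; norm_num
          push_cast at this
          rw [haz']; linarith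
        have h2 : (b' : ℝ) = 9 - b := by
          have : ((b' + bz : ℕ) : ℝ) = 9 := by rw [hb']; norm_num
          push_cast at this
          rw [hbz2]; linarith
        rw [h1, h2, ← hcn]
        exact hcv
      exact_mod_cast e3
    have hv82 : v < 82 := by
      have h1 : v ≤ cz * v := Nat.le_mul_of_pos_left v hcz1
      have h2 : (9 - az) * (9 - bz) ≤ 9 * 9 := Nat.mul_le_mul (by omega) (by omega)
      omega
    obtain ⟨k, hk⟩ : ∃ k, W4 H x0 x0 = 15 + 2 * k := ⟨(W4 H x0 x0 - 15) / 2, by omega⟩
    rcases Nat.lt_or_gt_of_ne habz with hlt | hlt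
    · have h3 : bz * nb + az * (2 * v - (2 + nb)) + 18 = 6 * v := by
        have : 2 * v - (2 + nb) = na := by omega
        rw [this]
        omega
      have := enum_int (a := bz) (b := az) (k := k) (v := v) (na := nb) (c := cz) hbz9 hlt
        (by omega) hv82 hv3 (by rw [Nat.mul_comm bz az, ← hpab]; omega)
        (by rw [hcv9, Nat.mul_comm]) hnb (by omega) h3
      rw [hsab, hpab, Nat.add_comm az bz, Nat.mul_comm az bz]
      exact this
    · have h3 : az * na + bz * (2 * v - (2 + na)) + 18 = 6 * v := by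
        have : 2 * v - (2 + na) = nb := by omega
        rw [this]
        omega
      have := enum_int (a := az) (b := bz) (k := k) (v := v) (na := na) (c := cz) haz9 hlt
        (by omega) hv82 hv3 (by rw [← hpab]; omega) hcv9 hna (by omega) h3
      rw [hsab, hpab]
      exact this
  · rw [List.mem_append]
    right
    have hnn : na = nb := by
      by_contra hne2
      apply hrat
      refine ⟨((6 * v - 18 - nb * sz : ℚ) / ((na : ℚ) - nb)), ?_⟩
      have hd : ((na : ℝ) - nb) ≠ 0 := by
        intro h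
        apply hne2
        have : (na : ℝ) = nb := by linarith
        exact_mod_cast this
      push_cast
      rw [eq_div_iff hd]
      rw [← hsn]
      linear_combination hm
    have hv1 : v = na + 1 := by omega
    have hmn : sz * na + 18 = 6 * (na + 1) := by
      have : ((sz * na + 18 : ℕ) : ℝ) = ((6 * (na + 1) : ℕ) : ℝ) := by
        push_cast
        rw [← hsn]
        rw [← hnn, hv1] at hm
        push_cast at hm
        linarith
      exact_mod_cast this
    have hdisc : 4 * pz < sz * sz := by
      have h1 : 0 < (a - b) ^ 2 := by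
        apply lt_of_le_of_ne (sq_nonneg _)
        intro h
        apply hab
        have := pow_eq_zero_iff (two_ne_zero) |>.1 h.symm
        linarith
      have h2 : ((4 * pz : ℕ) : ℝ) < ((sz * sz : ℕ) : ℝ) := by
        push_cast
        rw [← hpn, ← hsn]
        nlinarith
      exact_mod_cast h2
    have hs6 : sz < 6 := by
      by_contra h
      push Not at h
      have : 6 * na ≤ sz * na := Nat.mul_le_mul_right _ h
      omega
    rw [hv1] at hcvn hv3
    clear hPar
    interval_cases sz
    · omega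
    · have : na ≤ 12 := by omega
      have : pz ≤ 0 := by omega
      omega
    · have : pz ≤ 0 := by omega
      have h2 : na = 3 := by omega
      subst h2
      omega
    · have : pz ≤ 2 := by omega
      have h2 : na = 4 := by omega
      subst h2
      have h3 : pz = 1 := by omega
      have h4 : cz = 11 := by omega
      subst h3 h4
      simp
    · have : pz ≤ 3 := by omega
      have h2 : na = 6 := by omega
      subst h2
      omega
    · have : pz ≤ 6 := by omega
      have h2 : na = 12 := by omega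
      subst h2
      have h3 : pz = 3 := by omega
      have h4 : cz = 3 := by omega
      subst h3 h4
      simp

theorem params_two (S : Setup H col) (hconn : H.Connected) {a : ℝ}
    (hT : ∀ t ∈ spectrum ℝ (Msq H), t = 9 ∨ t = a) :
    ∃ s p c : ℕ, (s, p, c) ∈ [(0, 0, 27), (1, 0, 18), (2, 0, 9)] ∧ Par H col s p c := by
  have hX : Msq H * (Msq H - a • (1 : Matrix V V ℝ)) =
      (9 : ℝ) • (Msq H - a • (1 : Matrix V V ℝ)) := by
    obtain ⟨φ, d, _, _, h3, h4⟩ := diag_exists (Msq H) Msq_isHermitian
    have hd : ∀ k, d k = 9 ∨ d k = a := fun k => hT _ ((h4 _).2 ⟨k, rfl⟩)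
    have e : Msq H - a • (1 : Matrix V V ℝ) = φ (Matrix.diagonal fun k => d k - a) := by
      have : (Matrix.diagonal fun k => d k - a) = Matrix.diagonal d - a • (1 : Matrix V V ℝ) := by
        ext i j
        rw [Matrix.sub_apply, Matrix.smul_apply, Matrix.one_apply, Matrix.diagonal_apply,
          Matrix.diagonal_apply]
        by_cases hij : i = j
        · simp [hij]
        · simp [hij]
      rw [this, map_sub, map_smul, map_one, ← h3]
    rw [e]
    conv_lhs => rw [h3]
    rw [← map_mul, Matrix.diagonal_mul_diagonal, ← map_smul]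
    congr 1
    ext i j
    rw [Matrix.smul_apply, Matrix.diagonal_apply, Matrix.diagonal_apply]
    by_cases hij : i = j
    · subst hij
      rw [if_pos rfl, if_pos rfl, smul_eq_mul]
      rcases hd i with h | h
      · rw [h]
      · rw [h]; ring
    · rw [if_neg hij, if_neg hij, smul_zero]
  have hXa : ∀ x y, (Msq H - a • (1 : Matrix V V ℝ)) x y =
      W2 H x y - (if x = y then a else 0) := by
    intro x y
    rw [Matrix.sub_apply, Matrix.smul_apply, Msq_apply, Matrix.one_apply]
    simp
  have hconst : ∀ x y, col x = col y → x ≠ y → (W2 H x y : ℝ) = 3 - a := by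
    intro x y hxy hne
    have h2 : Msq H *ᵥ (fun w => (Msq H - a • (1 : Matrix V V ℝ)) w y) =
        (9 : ℝ) • (fun w => (Msq H - a • (1 : Matrix V V ℝ)) w y) := by
      ext w
      have := congrFun (congrFun hX w) y
      rw [Matrix.mul_apply, Matrix.smul_apply] at this
      exact this
    have h3 := harmonic S hconn h2 hxy
    rw [hXa, hXa, if_neg hne, if_pos rfl, W2_self S] at h3
    push_cast at h3
    linarith
  obtain ⟨x0⟩ := hconn.nonempty
  have h3 := three_le_cls S x0
  have h4 : 1 < (univ.filter fun y => col x0 = col y).card := by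
    unfold cls at h3
    omega
  obtain ⟨p, hp, q, hq, hpq⟩ := Finset.one_lt_card.1 h4
  rw [mem_filter] at hp hq
  have hcpq : col p = col q := hp.2.symm.trans hq.2
  have hl := hconst p q hcpq hpq
  have hl3 := W2_le S p q
  obtain ⟨l, hl'⟩ : ∃ l, l = W2 H p q := ⟨_, rfl⟩
  rw [← hl'] at hl hl3
  have ha : a = 3 - l := by linarith
  have hconst' : ∀ x y, col x = col y → x ≠ y → W2 H x y = l := by
    intro x y h1 h2
    have := hconst x y h1 h2
    rw [ha] at this
    have h5 : (W2 H x y : ℝ) = l := by linarith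
    exact_mod_cast h5
  have hl0 : l ≠ 0 := by
    intro h0
    have hrow := W2_row S x0
    have : ∑ y, W2 H x0 y = 3 := by
      rw [Finset.sum_eq_single x0]
      · exact W2_self S x0
      · intro y _ hy
        by_cases hc : col x0 = col y
        · rw [hconst' x0 y hc (Ne.symm hy), h0]
        · exact W2_diff S hc
      · intro h
        exact absurd (mem_univ _) h
    omega
  have hW4 : ∀ x y, (W4 H x y : ℝ) = (9 + a) * W2 H x y - (if x = y then 9 * a else 0) := by
    intro x y
    have h5 := congrFun (congrFun hX x) y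
    rw [mul_sub, Matrix.sub_apply, Msq2_apply, mul_smul_comm, mul_one, Matrix.smul_apply,
      Msq_apply, Matrix.smul_apply, hXa] at h5
    simp only [smul_eq_mul] at h5
    by_cases hh : x = y
    · rw [if_pos hh] at h5 ⊢
      linarith
    · rw [if_neg hh] at h5 ⊢
      linarith
  have hPar : Par H col (3 - l) 0 (9 * l) := by
    intro x y hxy
    have h5 := hW4 x y
    have h6 : ((3 - l : ℕ) : ℝ) = 3 - l := by
      rw [Nat.cast_sub hl3]
      norm_num
    have h7 : ((W4 H x y + (if x = y then 0 else 0) : ℕ) : ℝ) =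
        ((9 * l + (3 - l) * W2 H x y : ℕ) : ℝ) := by
      push_cast
      rw [h6, h5, ha]
      by_cases hh : x = y
      · subst hh
        rw [if_pos rfl, if_pos rfl, W2_self S]
        push_cast
        ring
      · rw [if_neg hh, if_neg hh, hconst' x y hxy hh]
        ring
    exact_mod_cast h7
  refine ⟨3 - l, 0, 9 * l, ?_, hPar⟩
  interval_cases l <;> simp at hl0 ⊢

/-- the parameters of a connected cubic bipartite graph with few eigenvalues -/
theorem params_all (S : Setup H col) (hconn : H.Connected)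
    (hcard : (spectrum ℝ (Msq H)).ncard ≤ 3) :
    ∃ s p c : ℕ, (s, p, c) ∈ tgt ++ [(3, 1, 11), (5, 3, 3)] ++ [(0, 0, 27), (1, 0, 18), (2, 0, 9)] ∧
      Par H col s p c := by
  have := hconn.nonempty
  have hfin : (spectrum ℝ (Msq H)).Finite := Matrix.finite_real_spectrum
  have h9 := nine_mem (H := H) S
  have h1 : ((spectrum ℝ (Msq H)) \ {9}).ncard ≤ 2 := by
    rw [Set.ncard_sdiff_singleton_of_mem h9]
    omega
  have hfin' : ((spectrum ℝ (Msq H)) \ {9}).Finite := hfin.sdiff
  have hcases : ((spectrum ℝ (Msq H)) \ {9}).ncard = 0 ∨ ((spectrum ℝ (Msq H)) \ {9}).ncard = 1 ∨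
    ((spectrum ℝ (Msq H)) \ {9}).ncard = 2 := by omega
  rcases hcases with h | h | h
  · rw [Set.ncard_eq_zero hfin'] at h
    obtain ⟨s, p, c, hm, hp⟩ := params_two S hconn (a := 0) (by
      intro t ht
      left
      by_contra hne
      have : t ∈ (spectrum ℝ (Msq H)) \ {9} := ⟨ht, hne⟩
      rw [h] at this
      exact this)
    exact ⟨s, p, c, List.mem_append_right _ hm, hp⟩
  · rw [Set.ncard_eq_one] at h
    obtain ⟨a, ha⟩ := h
    obtain ⟨s, p, c, hm, hp⟩ := params_two S hconn (a := a) (by
      intro t ht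
      by_cases hne : t = 9
      · exact Or.inl hne
      · right
        have : t ∈ (spectrum ℝ (Msq H)) \ {9} := ⟨ht, hne⟩
        rw [ha] at this
        exact this)
    exact ⟨s, p, c, List.mem_append_right _ hm, hp⟩
  · rw [Set.ncard_eq_two] at h
    obtain ⟨a, b, hab, hs⟩ := h
    have haT : a ∈ (spectrum ℝ (Msq H)) \ {9} := by rw [hs]; simp
    have hbT : b ∈ (spectrum ℝ (Msq H)) \ {9} := by rw [hs]; simp
    obtain ⟨s, p, c, hm, hp⟩ := params_three S hconn (a := a) (b := b) (fun h => haT.2 h)
      (fun h => hbT.2 h) hab haT.1 hbT.1 (by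
      intro t ht
      by_cases hne : t = 9
      · exact Or.inl hne
      · right
        have : t ∈ (spectrum ℝ (Msq H)) \ {9} := ⟨ht, hne⟩
        rw [hs] at this
        exact this)
    exact ⟨s, p, c, List.mem_append_left _ hm, hp⟩

end Pool.Agent.Helper727.Cub
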