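import Pool.Agent.Helper727.Cub.Check
import Pool.Agent.Helper727.Cub.Names

namespace Pool.Agent.Helper727.Cub

open Name

/-- adjacency lists of the thirteen graphs -/
def adjList : Name → List (List ℕ)
  | k33 => [[1, 3, 5], [0, 2, 4], [1, 3, 5], [0, 2, 4], [1, 3, 5], [0, 2, 4]]
  | cube => [[1, 3, 7], [0, 2, 6], [1, 3, 5], [0, 2, 4], [3, 5, 7], [2, 4, 6], [1, 5, 7], [0, 4,
    6]]
  | heawood => [[1, 5, 13], [0, 2, 10], [1, 3, 7], [2, 4, 12], [3, 5, 9], [0, 4, 6], [5, 7, 11],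
    [2, 6, 8], [7, 9, 13], [4, 8, 10], [1, 9, 11], [6, 10, 12], [3, 11, 13], [0, 8, 12]]
  | pappus => [[1, 5, 17], [0, 2, 8], [1, 3, 13], [2, 4, 10], [3, 5, 15], [0, 4, 6], [5, 7, 11],
    [6, 8, 14], [1, 7, 9], [8, 10, 16], [3, 9, 11], [6, 10, 12], [11, 13, 17], [2, 12, 14], [7,
    13, 15], [4, 14, 16], [9, 15, 17], [0, 12, 16]]
  | tutteCoxeter => [[1, 17, 29], [0, 2, 22], [1, 3, 9], [2, 4, 26], [3, 5, 13], [4, 6, 18], [5,
    7, 23], [6, 8, 28], [7, 9, 15], [2, 8, 10], [9, 11, 19], [10, 12, 24], [11, 13, 29], [4, 12,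
    14], [13, 15, 21], [8, 14, 16], [15, 17, 25], [0, 16, 18], [5, 17, 19], [10, 18, 20], [19,
    21, 27], [14, 20, 22], [1, 21, 23], [6, 22, 24], [11, 23, 25], [16, 24, 26], [3, 25, 27],
    [20, 26, 28], [7, 27, 29], [0, 12, 28]]
  | moebiusLadder => [[1, 5, 9], [0, 2, 6], [1, 3, 7], [2, 4, 8], [3, 5, 9], [0, 4, 6], [1, 5,
    7], [2, 6, 8], [3, 7, 9], [0, 4, 8]]
  | franklin => [[1, 5, 11], [0, 2, 8], [1, 3, 7], [2, 4, 10], [3, 5, 9], [0, 4, 6], [5, 7, 11],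
    [2, 6, 8], [1, 7, 9], [4, 8, 10], [3, 9, 11], [0, 6, 10]]
  | moebiusKantor => [[1, 5, 15], [0, 2, 12], [1, 3, 7], [2, 4, 14], [3, 5, 9], [0, 4, 6], [5, 7,
    11], [2, 6, 8], [7, 9, 13], [4, 8, 10], [9, 11, 15], [6, 10, 12], [1, 11, 13], [8, 12, 14],
    [3, 13, 15], [0, 10, 14]]
  | lcf16 => [[1, 7, 15], [0, 2, 10], [1, 3, 9], [2, 4, 12], [3, 5, 11], [4, 6, 14], [5, 7, 13],
    [0, 6, 8], [7, 9, 15], [2, 8, 10], [1, 9, 11], [4, 10, 12], [3, 11, 13], [6, 12, 14], [5, 13,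
    15], [0, 8, 14]]
  | desargues => [[1, 5, 19], [0, 2, 16], [1, 3, 11], [2, 4, 14], [3, 5, 9], [0, 4, 6], [5, 7,
    15], [6, 8, 18], [7, 9, 13], [4, 8, 10], [9, 11, 19], [2, 10, 12], [11, 13, 17], [8, 12, 14],
    [3, 13, 15], [6, 14, 16], [1, 15, 17], [12, 16, 18], [7, 17, 19], [0, 10, 18]]
  | desarguesMate => [[1, 11, 19], [0, 2, 6], [1, 3, 9], [2, 4, 16], [3, 5, 19], [4, 6, 14], [1,
    5, 7], [6, 8, 12], [7, 9, 15], [2, 8, 10], [9, 11, 17], [0, 10, 12], [7, 11, 13], [12, 14,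
    18], [5, 13, 15], [8, 14, 16], [3, 15, 17], [10, 16, 18], [13, 17, 19], [0, 4, 18]]
  | f26a => [[1, 19, 25], [0, 2, 8], [1, 3, 21], [2, 4, 10], [3, 5, 23], [4, 6, 12], [5, 7, 25],
    [6, 8, 14], [1, 7, 9], [8, 10, 16], [3, 9, 11], [10, 12, 18], [5, 11, 13], [12, 14, 20], [7,
    13, 15], [14, 16, 22], [9, 15, 17], [16, 18, 24], [11, 17, 19], [0, 18, 20], [13, 19, 21],
    [2, 20, 22], [15, 21, 23], [4, 22, 24], [17, 23, 25], [0, 6, 24]]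
  | dyck => [[1, 5, 31], [0, 2, 28], [1, 3, 15], [2, 4, 22], [3, 5, 9], [0, 4, 6], [5, 7, 19],
    [6, 8, 26], [7, 9, 13], [4, 8, 10], [9, 11, 23], [10, 12, 30], [11, 13, 17], [8, 12, 14],
    [13, 15, 27], [2, 14, 16], [15, 17, 21], [12, 16, 18], [17, 19, 31], [6, 18, 20], [19, 21,
    25], [16, 20, 22], [3, 21, 23], [10, 22, 24], [23, 25, 29], [20, 24, 26], [7, 25, 27], [14,
    26, 28], [1, 27, 29], [24, 28, 30], [11, 29, 31], [0, 18, 30]]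

def names : List Name := [k33, cube, heawood, pappus, tutteCoxeter, moebiusLadder, franklin, moebiusKantor, lcf16, desargues, desarguesMate, f26a, dyck]

def reps : List (List (List ℕ)) := names.map adjList

end Pool.Agent.Helper727.Cub
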