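import Pool.Agent.Helper727.Cub.RepPar

namespace Pool.Agent.Helper727.Cub

open Finset Name Matrix

/-- the eigenvalues that occur, in increasing order -/
noncomputable def val : Fin 11 → ℝ :=
  ![0, (3 - √5) / 2, (5 - √13) / 2, 1, 2, (3 + √5) / 2, 3, 4, (5 + √13) / 2, 5, 9]

/-- indices of the eigenvalues of the squared adjacency matrix -/
def idxL : Name → List (Fin 11)
  | k33 => [10, 0]
  | cube => [10, 3]
  | heawood => [10, 4]
  | pappus => [10, 6, 0]
  | tutteCoxeter => [10, 7, 0]
  | moebiusLadder => [10, 5, 1]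
  | franklin => [10, 6, 3]
  | moebiusKantor => [10, 6, 3]
  | lcf16 => [10, 9, 3]
  | desargues => [10, 7, 3]
  | desarguesMate => [10, 7, 3]
  | f26a => [10, 8, 2]
  | dyck => [10, 9, 3]

lemma val_strictMono : StrictMono val := by
  have h5 : (√5 : ℝ) ^ 2 = 5 := Real.sq_sqrt (by norm_num)
  have h13 : (√13 : ℝ) ^ 2 = 13 := Real.sq_sqrt (by norm_num)
  have h5p : 0 ≤ (√5 : ℝ) := Real.sqrt_nonneg _
  have h13p : 0 ≤ (√13 : ℝ) := Real.sqrt_nonneg _
  have a1 : (2.23 : ℝ) < √5 := by
    apply Real.lt_sqrt_of_sq_lt; norm_num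
  have a2 : √5 < (2.24 : ℝ) := by
    rw [Real.sqrt_lt' (by norm_num)]; norm_num
  have a3 : (3.6 : ℝ) < √13 := by
    apply Real.lt_sqrt_of_sq_lt; norm_num
  have a4 : √13 < (3.61 : ℝ) := by
    rw [Real.sqrt_lt' (by norm_num)]; norm_num
  rw [Fin.strictMono_iff_lt_succ]
  intro i
  fin_cases i <;> simp [val] <;> linarith

lemma val_inj : Function.Injective val := val_strictMono.injective

lemma val_nonneg (i : Fin 11) : 0 ≤ val i := by
  have : val 0 = 0 := by simp [val]
  rw [← this]
  exact val_strictMono.monotone (Fin.zero_le i)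

lemma val_zero : val 0 = 0 := by simp [val]

lemma val_eq_zero {i : Fin 11} : val i = 0 ↔ i = 0 := by
  rw [← val_zero]
  exact val_inj.eq_iff

def wit : Name → ℕ × ℕ
  | moebiusLadder => (2, 4)
  | franklin => (2, 6)
  | moebiusKantor => (2, 8)
  | lcf16 => (2, 4)
  | pappus => (2, 10)
  | desargues => (2, 8)
  | desarguesMate => (2, 8)
  | f26a => (2, 4)
  | tutteCoxeter => (2, 4)
  | dyck => (2, 8)
  | _ => (2, 2)

lemma wit_all : ([pappus, tutteCoxeter, moebiusLadder, franklin, moebiusKantor, lcf16, desargues,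
    desarguesMate, f26a, dyck].all fun x =>
      Nat.blt (wit x).1 (code x).1 && Nat.blt (wit x).2 (code x).1 &&
      Nat.beq ((wit x).1 % 2) 0 && Nat.beq ((wit x).2 % 2) 0 && !(Nat.beq (wit x).1 0) &&
      !(Nat.beq (wit x).2 0) &&
      !(Nat.beq (c2 (tabN x) 0 (wit x).1) (c2 (tabN x) 0 (wit x).2))) = true := by
  decide +kernel

lemma ne_of_beq {a b : ℕ} (h : Nat.beq a b = false) : a ≠ b := by
  rintro rfl
  rw [Nat.beq_refl] at h
  exact Bool.noConfusion h

lemma spec_name_aux {x : Name} (hx : x ∈ [pappus, tutteCoxeter, moebiusLadder, franklin,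
    moebiusKantor, lcf16, desargues, desarguesMate, f26a, dyck]) {a b : ℝ}
    (hs : a + b = (par x).1) (hp : a * b = (par x).2.1) (hc : (par x).2.2 ≠ 0) :
    spectrum ℝ (Msq (graph x)) = {9, a, b} := by
  have h := wit_all
  rw [List.all_eq_true] at h
  have h1 := h x hx
  simp only [Bool.and_eq_true, Nat.blt_eq, Bool.not_eq_true'] at h1
  obtain ⟨⟨⟨⟨⟨⟨h1, h2⟩, h3⟩, h4⟩, h5⟩, h6⟩, h7⟩ := h1
  have h3' := Nat.eq_of_beq_eq_true h3
  have h4' := Nat.eq_of_beq_eq_true h4
  have h5' := ne_of_beq h5
  have h6' := ne_of_beq h6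
  have h7' := ne_of_beq h7
  have e1 := c2_name x ⟨0, code_pos x⟩ ⟨(wit x).1, h1⟩ (by simp only; omega)
  have e2 := c2_name x ⟨0, code_pos x⟩ ⟨(wit x).2, h2⟩ (by simp only; omega)
  apply spec_eq (setup_name x) (par_name x) hc (x := ⟨0, code_pos x⟩) (y := ⟨(wit x).1, h1⟩)
    (x' := ⟨0, code_pos x⟩) (y' := ⟨(wit x).2, h2⟩) _ _ _ _ _ hs hp
  · unfold colN
    simp only [h3']
  · intro hh
    exact h5' (congrArg Fin.val hh).symm
  · unfold colN
    simp only [h4']
  · intro hh
    exact h6' (congrArg Fin.val hh).symm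
  · rw [e1, e2]
    exact h7'

def constB (x : Name) (l : ℕ) : Bool :=
  allB (code x).1 fun i => allB (code x).1 fun j => Nat.beq i j ||
    !(Nat.beq (i % 2) (j % 2)) || Nat.beq (c2 (tabN x) i j) l

lemma spec_name_const {x : Name} {l : ℕ} (hl : constB x l = true) (h2 : 2 < (code x).1) :
    spectrum ℝ (Msq (graph x)) = {9, (3 : ℝ) - l} := by
  have h3 : ∀ i j : Fin (code x).1, colN (code x).1 i = colN (code x).1 j → i ≠ j →
      W2 (graph x) i j = l := by
    intro i j hij hne
    have hij' : i.val % 2 = j.val % 2 := by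
      unfold colN at hij
      have h7 := Nat.mod_two_eq_zero_or_one i.val
      have h8 := Nat.mod_two_eq_zero_or_one j.val
      rcases h7 with h7 | h7 <;> rcases h8 with h8 | h8 <;> rw [h7, h8] at hij ⊢ <;>
        exact absurd hij (by decide)
    rw [c2_name x i j hij']
    unfold constB at hl
    have h4 := allB_spec (allB_spec hl i.val i.2) j.val j.2
    have h5 : Nat.beq i.val j.val = false := by
      rw [Bool.eq_false_iff]
      intro hh
      exact hne (Fin.ext (Nat.eq_of_beq_eq_true hh))
    rw [h5, hij', Nat.beq_refl, Bool.not_true, Bool.false_or, Bool.false_or] at h4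
    exact Nat.eq_of_beq_eq_true h4
  apply spec_eq_const (setup_name x) h3 (x := ⟨0, code_pos x⟩) (y := ⟨2, h2⟩)
  · simp [colN]
  · intro h
    have h4 := congrArg Fin.val h
    simp at h4

lemma sq5 : (√5 : ℝ) * √5 = 5 := Real.mul_self_sqrt (by norm_num)

lemma sq13 : (√13 : ℝ) * √13 = 13 := Real.mul_self_sqrt (by norm_num)

/-- the spectrum of the squared adjacency matrix of each of the thirteen graphs -/
theorem spec_name (x : Name) : spectrum ℝ (Msq (graph x)) = {t | ∃ i ∈ idxL x, t = val i} := by
  have h5 := sq5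
  have h13 := sq13
  cases x
  case k33 =>
    rw [spec_name_const (x := k33) (l := 3) (by decide +kernel) (by decide)]
    ext t
    simp [idxL, val]
  case cube =>
    rw [spec_name_const (x := cube) (l := 2) (by decide +kernel) (by decide)]
    ext t
    simp [idxL, val]
    norm_num
  case heawood =>
    rw [spec_name_const (x := heawood) (l := 1) (by decide +kernel) (by decide)]
    ext t
    simp [idxL, val]
    norm_num
  case pappus =>
    rw [spec_name_aux (x := pappus) (by simp) (a := 3) (b := 0) (by norm_num [par])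
      (by norm_num [par]) (by decide)]
    ext t
    simp [idxL, val]
  case tutteCoxeter =>
    rw [spec_name_aux (x := tutteCoxeter) (by simp) (a := 4) (b := 0) (by norm_num [par])
      (by norm_num [par]) (by decide)]
    ext t
    simp [idxL, val]
  case moebiusLadder =>
    rw [spec_name_aux (x := moebiusLadder) (by simp) (a := (3 + √5) / 2) (b := (3 - √5) / 2)
      (by norm_num [par]; ring) (by norm_num [par]; linarith) (by decide)]
    ext t
    simp [idxL, val]
  case franklin =>
    rw [spec_name_aux (x := franklin) (by simp) (a := 3) (b := 1) (by norm_num [par])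
      (by norm_num [par]) (by decide)]
    ext t
    simp [idxL, val]
  case moebiusKantor =>
    rw [spec_name_aux (x := moebiusKantor) (by simp) (a := 3) (b := 1) (by norm_num [par])
      (by norm_num [par]) (by decide)]
    ext t
    simp [idxL, val]
  case lcf16 =>
    rw [spec_name_aux (x := lcf16) (by simp) (a := 5) (b := 1) (by norm_num [par])
      (by norm_num [par]) (by decide)]
    ext t
    simp [idxL, val]
  case desargues =>
    rw [spec_name_aux (x := desargues) (by simp) (a := 4) (b := 1) (by norm_num [par])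
      (by norm_num [par]) (by decide)]
    ext t
    simp [idxL, val]
  case desarguesMate =>
    rw [spec_name_aux (x := desarguesMate) (by simp) (a := 4) (b := 1) (by norm_num [par])
      (by norm_num [par]) (by decide)]
    ext t
    simp [idxL, val]
  case f26a =>
    rw [spec_name_aux (x := f26a) (by simp) (a := (5 + √13) / 2) (b := (5 - √13) / 2)
      (by norm_num [par]; ring) (by norm_num [par]; linarith) (by decide)]
    ext t
    simp [idxL, val]
  case dyck =>
    rw [spec_name_aux (x := dyck) (by simp) (a := 5) (b := 1) (by norm_num [par])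
      (by norm_num [par]) (by decide)]
    ext t
    simp [idxL, val]

end Pool.Agent.Helper727.Cub
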