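import Pool.Agent.Helper727.Cub.RepSpec

namespace Pool.Agent.Helper727.Cub

open Finset Name Matrix

instance (x : Name) : DecidableRel (graph x).Adj := fun i j =>
  decidable_of_iff _ (graph_adj x i j).symm

def colN (n : ℕ) : Fin n → Bool := fun i => i.val % 2 == 1

def buildT : ℕ → List (List ℕ) → ℕ → ℕ
  | _, [], T => T
  | u, r :: A, T => buildT (Nat.succ u) A (addE u T r)

def tabN (x : Name) : ℕ := buildT 0 (adjList x) 0

def parB (T n s p c : ℕ) (A : List (List ℕ)) : Bool :=
  allB n fun i => allB n fun j => !(Nat.beq (Nat.mod i 2) (Nat.mod j 2)) ||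
    (match nthL A i, nthL A j with
      | [a1, a2, a3], [b1, b2, b3] => r3 T i a1 a2 a3 && r3 T j b1 b2 b3 &&
          Nat.beq (Nat.add (l4 T a1 a2 a3 b1 b2 b3) (bif Nat.beq i j then p else 0))
            (Nat.add c (Nat.mul s (c2 T i j)))
      | _, _ => false)

/-- parameters of the thirteen graphs -/
def par : Name → ℕ × ℕ × ℕ
  | k33 => (0, 0, 27)
  | cube => (1, 0, 18)
  | heawood => (2, 0, 9)
  | pappus => (3, 0, 6)
  | tutteCoxeter => (4, 0, 3)
  | moebiusLadder => (3, 1, 11)
  | franklin => (4, 3, 8)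
  | moebiusKantor => (4, 3, 6)
  | lcf16 => (6, 5, 4)
  | desargues => (5, 4, 4)
  | desarguesMate => (5, 4, 4)
  | f26a => (5, 3, 3)
  | dyck => (6, 5, 2)

lemma parB_all : (names.all fun x => parB (tabN x) (code x).1 (par x).1 (par x).2.1 (par x).2.2
    (adjList x)) = true := by
  decide +kernel

def rowB (n i : ℕ) (r : List ℕ) : Bool :=
  match r with
  | [a, b, c] => Nat.blt a b && Nat.blt b c && Nat.blt c n &&
      !(Nat.beq (Nat.mod a 2) (Nat.mod i 2)) && !(Nat.beq (Nat.mod b 2) (Nat.mod i 2)) &&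
      !(Nat.beq (Nat.mod c 2) (Nat.mod i 2))
  | _ => false

lemma rowB_all : (names.all fun x => allB (code x).1 fun i =>
    rowB (code x).1 i (nthL (adjList x) i)) = true := by
  decide +kernel

lemma row_spec (x : Name) (i : Fin (code x).1) : ∃ a b c : Fin (code x).1,
    nthL (adjList x) i.val = [a.val, b.val, c.val] ∧ a.val < b.val ∧ b.val < c.val ∧
      a.val % 2 ≠ i.val % 2 ∧ b.val % 2 ≠ i.val % 2 ∧ c.val % 2 ≠ i.val % 2 := by
  have h := rowB_all
  rw [List.all_eq_true] at h
  have h1 := allB_spec (h x (mem_names x)) i.val i.2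
  unfold rowB at h1
  match hr : nthL (adjList x) i.val, h1 with
  | [a, b, c], h1 =>
    simp only [Bool.and_eq_true, Nat.blt_eq, Bool.not_eq_true'] at h1
    obtain ⟨⟨⟨⟨⟨h2, h3⟩, h4⟩, h5⟩, h6⟩, h7⟩ := h1
    refine ⟨⟨a, by omega⟩, ⟨b, by omega⟩, ⟨c, h4⟩, rfl, h2, h3, ?_, ?_, ?_⟩
    · intro hh
      have e : Nat.beq (Nat.mod a 2) (Nat.mod i.val 2) = true := by
        show Nat.beq (a % 2) (i.val % 2) = true
        rw [Nat.beq_eq]; exact hh
      rw [e] at h5
      exact Bool.noConfusion h5
    · intro hh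
      have e : Nat.beq (Nat.mod b 2) (Nat.mod i.val 2) = true := by
        show Nat.beq (b % 2) (i.val % 2) = true
        rw [Nat.beq_eq]; exact hh
      rw [e] at h6
      exact Bool.noConfusion h6
    · intro hh
      have e : Nat.beq (Nat.mod c 2) (Nat.mod i.val 2) = true := by
        show Nat.beq (c % 2) (i.val % 2) = true
        rw [Nat.beq_eq]; exact hh
      rw [e] at h7
      exact Bool.noConfusion h7
  | [], h1 => exact absurd h1 (by simp)
  | [_], h1 => exact absurd h1 (by simp)
  | [_, _], h1 => exact absurd h1 (by simp)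
  | _ :: _ :: _ :: _ :: _, h1 => exact absurd h1 (by simp)

theorem setup_name (x : Name) : Setup (graph x) (colN (code x).1) := by
  constructor
  · intro i
    obtain ⟨a, b, c, h1, h2, h3, _⟩ := row_spec x i
    have : (graph x).neighborFinset i = {a, b, c} := by
      ext j
      rw [SimpleGraph.mem_neighborFinset, graph_adj, h1]
      simp only [List.mem_cons, List.not_mem_nil, or_false, mem_insert, mem_singleton, Fin.ext_iff]
    rw [this]
    apply Finset.card_eq_three.2
    refine ⟨a, b, c, ?_, ?_, ?_, rfl⟩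
    · intro h; rw [h] at h2; omega
    · intro h; rw [h] at h2; omega
    · intro h; rw [h] at h3; omega
  · intro i j hij hcol
    obtain ⟨a, b, c, h1, _, _, h4, h5, h6⟩ := row_spec x i
    rw [graph_adj, h1] at hij
    simp only [List.mem_cons, List.not_mem_nil, or_false] at hij
    have hp : j.val % 2 ≠ i.val % 2 := by
      rcases hij with h | h | h <;> rw [h] <;> assumption
    unfold colN at hcol
    apply hp
    have h7 := Nat.mod_two_eq_zero_or_one i.val
    have h8 := Nat.mod_two_eq_zero_or_one j.val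
    rcases h7 with h7 | h7 <;> rcases h8 with h8 | h8 <;> rw [h7, h8] at hcol ⊢ <;>
      exact absurd hcol (by decide)

lemma code_pos (x : Name) : 0 < (code x).1 := by
  cases x <;> decide

lemma code_le (x : Name) : (code x).1 ≤ 64 := by
  cases x <;> decide

instance (x : Name) : Nonempty (Fin (code x).1) := ⟨⟨0, code_pos x⟩⟩

/-- labels to vertices -/
def fN (x : Name) (i : ℕ) : Fin (code x).1 := if h : i < (code x).1 then ⟨i, h⟩ else ⟨0, code_pos x⟩

lemma fN_lt {x : Name} {i : ℕ} (h : i < (code x).1) : fN x i = ⟨i, h⟩ := by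
  unfold fN
  rw [dif_pos h]

lemma rz_build (x : Name) : ∀ (A : List (List ℕ)) (u T : ℕ),
    (∀ k (hk : k < A.length), u + k < (code x).1 ∧ A[k] = nthL (adjList x) (u + k)) →
    Rz (graph x) (colN (code x).1) (fun l => l < (code x).1) (fN x) T →
    Rz (graph x) (colN (code x).1) (fun l => l < (code x).1) (fN x) (buildT u A T) := by
  intro A
  induction A with
  | nil => intro u T _ h; exact h
  | cons r A ih =>
    intro u T hA h
    rw [buildT]
    apply ih
    · intro k hk
      have := hA (k + 1) (by simpa using hk)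
      refine ⟨by have := this.1; omega, ?_⟩
      have h2 := this.2
      have e : Nat.succ u + k = u + (k + 1) := by omega
      rw [e, ← h2]
      rfl
    · obtain ⟨h0, h1⟩ := hA 0 (by simp)
      have h0' : u < (code x).1 := by omega
      have h1' : r = nthL (adjList x) u := h1
      apply h.extend h0' (fun l hl => hl) (fun l _ => rfl) h.lt h.inj h.hcol
      intro w hw
      obtain ⟨a, b, c, g1, _⟩ := row_spec x ⟨u, h0'⟩
      have hw2 : w < (code x).1 := by
        rw [h1', g1] at hw
        simp only [List.mem_cons, List.not_mem_nil, or_false] at hw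
        rcases hw with hw | hw | hw
        · rw [hw]; exact a.2
        · rw [hw]; exact b.2
        · rw [hw]; exact c.2
      refine ⟨hw2, ?_⟩
      rw [fN_lt h0', fN_lt hw2, graph_adj, ← h1']
      exact hw

theorem rz_name (x : Name) :
    Rz (graph x) (colN (code x).1) (fun l => l < (code x).1) (fN x) (tabN x) := by
  apply rz_build
  · intro k hk
    rw [adjList_length] at hk
    have : 0 + k = k := by omega
    rw [this]
    refine ⟨hk, ?_⟩
    rw [nthL_eq]
  · refine ⟨?_, ?_, ?_, ?_⟩
    · intro a ha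
      have := code_le x
      omega
    · intro a b ha hb hab
      rw [fN_lt ha, fN_lt hb] at hab
      exact congrArg Fin.val hab
    · intro a ha
      rw [fN_lt ha]
      rfl
    · intro i hi
      simp at hi

lemma parB_spec (x : Name) (i j : Fin (code x).1) (hij : i.val % 2 = j.val % 2) :
    ∃ a1 a2 a3 b1 b2 b3, r3 (tabN x) i.val a1 a2 a3 = true ∧ r3 (tabN x) j.val b1 b2 b3 = true ∧
      l4 (tabN x) a1 a2 a3 b1 b2 b3 + (if i = j then (par x).2.1 else 0) =
        (par x).2.2 + (par x).1 * c2 (tabN x) i.val j.val := by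
  have h := parB_all
  rw [List.all_eq_true] at h
  have h0 := h x (mem_names x)
  unfold parB at h0
  have h1 := allB_spec (allB_spec h0 i.val i.2) j.val j.2
  have e : Nat.beq (Nat.mod i.val 2) (Nat.mod j.val 2) = true := by
    show Nat.beq (i.val % 2) (j.val % 2) = true
    rw [Nat.beq_eq]; exact hij
  rw [e, Bool.not_true, Bool.false_or] at h1
  obtain ⟨a1, a2, a3, g1, _⟩ := row_spec x i
  obtain ⟨b1, b2, b3, g2, _⟩ := row_spec x j
  rw [g1, g2] at h1
  simp only [Bool.and_eq_true] at h1
  obtain ⟨⟨h2, h3⟩, h4⟩ := h1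
  refine ⟨_, _, _, _, _, _, h2, h3, ?_⟩
  have h5 := Nat.eq_of_beq_eq_true h4
  have e1 : ∀ x y : ℕ, Nat.add x y = x + y := fun _ _ => rfl
  have e2 : ∀ x y : ℕ, Nat.mul x y = x * y := fun _ _ => rfl
  rw [e1, e1, e2] at h5
  rw [← h5]
  congr 1
  by_cases hh : i = j
  · subst hh
    rw [if_pos rfl, Nat.beq_refl, cond_true]
  · have : Nat.beq i.val j.val = false := by
      rw [Bool.eq_false_iff]
      intro h6
      exact hh (Fin.ext (Nat.eq_of_beq_eq_true h6))
    rw [this, if_neg hh, cond_false]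

lemma c2_name (x : Name) (i j : Fin (code x).1) (hij : i.val % 2 = j.val % 2) :
    W2 (graph x) i j = c2 (tabN x) i.val j.val := by
  obtain ⟨a1, a2, a3, b1, b2, b3, h1, h2, _⟩ := parB_spec x i j hij
  have g1 := (rz_name x).r3_full (setup_name x) h1
  have g2 := (rz_name x).r3_full (setup_name x) h2
  rw [(rz_name x).c2_eq (setup_name x) g1.1 g2.1, fN_lt i.2, fN_lt j.2]

theorem par_name (x : Name) :
    Par (graph x) (colN (code x).1) (par x).1 (par x).2.1 (par x).2.2 := by
  intro i j hij
  have hij' : i.val % 2 = j.val % 2 := by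
    unfold colN at hij
    have h7 := Nat.mod_two_eq_zero_or_one i.val
    have h8 := Nat.mod_two_eq_zero_or_one j.val
    rcases h7 with h7 | h7 <;> rcases h8 with h8 | h8 <;> rw [h7, h8] at hij ⊢ <;>
      exact absurd hij (by decide)
  obtain ⟨a1, a2, a3, b1, b2, b3, h1, h2, h3⟩ := parB_spec x i j hij'
  rw [c2_name x i j hij', ← h3]
  have hfull : ∀ k, k < (code x).1 → isFull (tabN x) k = true := by
    intro k hk
    obtain ⟨_, _, _, _, _, _, g1, _, _⟩ := parB_spec x ⟨k, hk⟩ ⟨k, hk⟩ rfl
    exact ((rz_name x).r3_full (setup_name x) g1).1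
  obtain ⟨hi, hiD, ha1, ha2, ha3, hne1, hne2, hne3, hN⟩ := (rz_name x).r3_full (setup_name x) h1
  obtain ⟨hj, hjD, hb1, hb2, hb3, hne4, hne5, hne6, hN2⟩ :=
    (rz_name x).r3_full (setup_name x) h2
  rw [fN_lt i.2] at hN
  rw [fN_lt j.2] at hN2
  congr 1
  unfold W4
  have hNi : (graph x).neighborFinset i = {fN x a1, fN x a2, fN x a3} := hN
  have hNj : (graph x).neighborFinset j = {fN x b1, fN x b2, fN x b3} := hN2
  rw [hNi, hNj, sum3 hne1 hne2 hne3, sum3 hne4 hne5 hne6, sum3 hne4 hne5 hne6,
    sum3 hne4 hne5 hne6]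
  have e : ∀ a b, a < (code x).1 → b < (code x).1 →
      W2 (graph x) (fN x a) (fN x b) = c2 (tabN x) a b := by
    intro a b ha hb
    rw [(rz_name x).c2_eq (setup_name x) (hfull a ha) (hfull b hb)]
  rw [e _ _ ha1 hb1, e _ _ ha1 hb2, e _ _ ha1 hb3, e _ _ ha2 hb1, e _ _ ha2 hb2, e _ _ ha2 hb3,
    e _ _ ha3 hb1, e _ _ ha3 hb2, e _ _ ha3 hb3]
  rfl

end Pool.Agent.Helper727.Cub
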