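import Pool.Agent.Helper727.Cub.Reps

namespace Pool.Agent.Helper727.Cub

open Finset Name Matrix

section general

variable {V : Type*} [Fintype V] [DecidableEq V]
variable {H : SimpleGraph V} [DecidableRel H.Adj] {col : V → Bool}

lemma poly_kill {M : Matrix V V ℝ} {g : V → ℝ} {t : ℝ} (hgt : M *ᵥ g = t • g) (a : ℝ) :
    (M - a • (1 : Matrix V V ℝ)) *ᵥ g = (t - a) • g := by
  rw [Matrix.sub_mulVec, hgt, Matrix.smul_mulVec, Matrix.one_mulVec, sub_smul]

lemma isUnit_of_notMem {M : Matrix V V ℝ} {a : ℝ} (h : a ∉ spectrum ℝ M) :
    IsUnit (M - a • (1 : Matrix V V ℝ)) := by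
  rw [spectrum.notMem_iff, Algebra.algebraMap_eq_smul_one] at h
  have h2 := h.neg
  rwa [neg_sub] at h2

/-- the spectrum from the parameters -/
theorem spec_eq [Nonempty V] (S : Setup H col) {s p c : ℕ} (hp : Par H col s p c) (hc : c ≠ 0)
    {x y x' y' : V} (hxy : col x = col y) (hne : x ≠ y) (hxy' : col x' = col y') (hne' : x' ≠ y')
    (hW : W2 H x y ≠ W2 H x' y') {a b : ℝ} (hs : a + b = s) (hab : a * b = p) :
    spectrum ℝ (Msq H) = {9, a, b} := by
  have hQ : ∀ z w, QQ H a b z w = if col z = col w then (c : ℝ) else 0 := by
    intro z w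
    by_cases h : col z = col w
    · rw [if_pos h, QQ_apply]
      have h1 := hp z w h
      have h2 : ((W4 H z w + (if z = w then p else 0) : ℕ) : ℝ) = ((c + s * W2 H z w : ℕ) : ℝ) := by
        rw [h1]
      push_cast at h2
      rw [hs, hab]
      by_cases hh : z = w
      · simp only [hh, if_true] at h2 ⊢
        linarith
      · simp only [hh, if_false] at h2 ⊢
        linarith
    · rw [if_neg h, QQ_diff S h]
  have hQ9 : Msq H * QQ H a b = (9 : ℝ) • QQ H a b := by
    ext z w
    rw [Matrix.mul_apply, Matrix.smul_apply, hQ]
    simp only [hQ, Msq_apply]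
    have hrow : ∑ y, (W2 H z y : ℝ) = 9 := by exact_mod_cast W2_row S z
    by_cases h : col z = col w
    · rw [if_pos h, smul_eq_mul, ← hrow, Finset.sum_mul]
      apply Finset.sum_congr rfl
      intro u _
      by_cases h2 : col z = col u
      · rw [if_pos (h2.symm.trans h)]
      · rw [W2_diff S h2]
        simp
    · rw [if_neg h, smul_zero]
      apply Finset.sum_eq_zero
      intro u _
      by_cases h2 : col u = col w
      · rw [W2_diff S (fun h3 => h (h3.trans h2))]
        simp
      · rw [if_neg h2, mul_zero]
  have hnine : (Msq H - (9 : ℝ) • (1 : Matrix V V ℝ)) * QQ H a b = 0 := by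
    rw [sub_mul, hQ9, smul_mul_assoc, one_mul, sub_self]
  -- comparing two entries
  have hcontra : ∀ d : ℝ, (Msq H - (9 : ℝ) • (1 : Matrix V V ℝ)) *
      (Msq H - d • (1 : Matrix V V ℝ)) = 0 → ∀ e : ℝ, d + e = s → False := by
    intro d hd e hde
    have h1 : ∀ z w, z ≠ w → (W4 H z w : ℝ) - (9 + d) * W2 H z w = 0 := by
      intro z w hzw
      have h2 : QQ H 9 d z w = 0 := by
        unfold QQ
        rw [hd]
        rfl
      rw [QQ_apply, if_neg hzw, add_zero] at h2
      exact h2
    have h3 : ∀ z w, col z = col w → z ≠ w → (W4 H z w : ℝ) = c + s * W2 H z w := by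
      intro z w h hzw
      have h4 := hp z w h
      rw [if_neg hzw, add_zero] at h4
      exact_mod_cast h4
    have e1 := h1 x y hne
    have e2 := h1 x' y' hne'
    rw [h3 x y hxy hne, ← hde] at e1
    rw [h3 x' y' hxy' hne', ← hde] at e2
    have e3 : (9 - e) * ((W2 H x y : ℝ) - W2 H x' y') = 0 := by linear_combination e2 - e1
    rcases mul_eq_zero.1 e3 with h | h
    · have h9 : e = 9 := by linarith
      rw [h9] at e1
      apply hc
      have : (c : ℝ) = 0 := by linarith
      exact_mod_cast this
    · apply hW
      have : (W2 H x y : ℝ) = W2 H x' y' := by linarith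
      exact_mod_cast this
  ext t
  rw [Set.mem_insert_iff, Set.mem_insert_iff, Set.mem_singleton_iff]
  constructor
  · intro ht
    rw [mem_spec_iff] at ht
    obtain ⟨g, hg, hgt⟩ := ht
    have h1 : (0 : Matrix V V ℝ) *ᵥ g = ((t - 9) * ((t - a) * (t - b))) • g := by
      rw [← hnine]
      unfold QQ
      rw [← Matrix.mulVec_mulVec, ← Matrix.mulVec_mulVec, poly_kill hgt, Matrix.mulVec_smul,
        poly_kill hgt, smul_smul, Matrix.mulVec_smul, poly_kill hgt, smul_smul]
      congr 1
      ring
    rw [Matrix.zero_mulVec] at h1
    have h2 := (smul_eq_zero.1 h1.symm).resolve_right hg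
    rcases mul_eq_zero.1 h2 with h | h
    · left; linarith
    · rcases mul_eq_zero.1 h with h | h
      · right; left; linarith
      · right; right; linarith
  · intro ht
    rcases ht with rfl | rfl | rfl
    · exact nine_mem S
    · by_contra hnot
      have hu := isUnit_of_notMem hnot
      unfold QQ at hnine
      have hcom : (Msq H - t • (1 : Matrix V V ℝ)) * (Msq H - b • (1 : Matrix V V ℝ)) =
          (Msq H - b • (1 : Matrix V V ℝ)) * (Msq H - t • (1 : Matrix V V ℝ)) := by
        simp only [sub_mul, mul_sub, mul_smul_comm, smul_mul_assoc, mul_one, one_mul, smul_sub,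
          smul_smul]
        rw [mul_comm t b]
        abel
      rw [hcom, ← mul_assoc] at hnine
      have h5 := (hu.mul_left_eq_zero).1 hnine
      exact hcontra b h5 t (by linarith)
    · by_contra hnot
      have hu := isUnit_of_notMem hnot
      unfold QQ at hnine
      rw [← mul_assoc] at hnine
      have h5 := (hu.mul_left_eq_zero).1 hnine
      exact hcontra a h5 t (by linarith)

/-- the spectrum when the number of common neighbours is constant -/
theorem spec_eq_const [Nonempty V] (S : Setup H col) {l : ℕ}
    (hl : ∀ x y, col x = col y → x ≠ y → W2 H x y = l) {x y : V} (hxy : col x = col y)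
    (hne : x ≠ y) : spectrum ℝ (Msq H) = {9, (3 : ℝ) - l} := by
  ext t
  rw [Set.mem_insert_iff, Set.mem_singleton_iff]
  constructor
  · exact spec_of_const S hl
  · intro ht
    rcases ht with rfl | rfl
    · exact nine_mem S
    · rw [mem_spec_iff]
      refine ⟨fun z => (if z = x then 1 else 0) - (if z = y then 1 else 0), ?_, ?_⟩
      · intro h
        have := congrFun h x
        simp [hne] at this
      · ext z
        rw [Matrix.mulVec, dotProduct]
        simp only [mul_sub, Finset.sum_sub_distrib, mul_ite, mul_one, mul_zero,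
          Finset.sum_ite_eq', mem_univ, if_true, Pi.smul_apply, smul_eq_mul, Msq_apply]
        by_cases hzx : z = x
        · subst hzx
          rw [if_pos rfl, if_neg hne, W2_self S, hl z y hxy hne]
          push_cast
          ring
        · by_cases hzy : z = y
          · subst hzy
            rw [if_neg hzx, if_pos rfl, W2_self S, hl z x hxy.symm hzx]
            push_cast
            ring
          · rw [if_neg hzx, if_neg hzy]
            by_cases hc : col z = col x
            · rw [hl z x hc hzx, hl z y (hc.trans hxy) hzy]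
              ring
            · rw [W2_diff S hc, W2_diff S (fun h => hc (h.trans hxy.symm))]
              simp

end general

end Pool.Agent.Helper727.Cub
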