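import Pool.Agent.Helper727.Cub.Branch

namespace Pool.Agent.Helper727.Cub

open Finset

lemma nth_eq : ∀ (l : List ℕ) (i : ℕ) (h : i < l.length), nth l i = l[i] := by
  intro l
  induction l with
  | nil => intro i h; simp at h
  | cons a l ih =>
    intro i h
    cases i with
    | zero => rfl
    | succ i =>
      rw [nth, ih i (by simpa using h)]
      rfl

lemma nodupB_iff : ∀ {l : List ℕ}, nodupB l = true → l.Nodup := by
  intro l
  induction l with
  | nil => intro _; exact List.nodup_nil
  | cons a l ih =>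
    intro h
    rw [nodupB, Bool.and_eq_true] at h
    rw [List.nodup_cons]
    refine ⟨?_, ih h.2⟩
    intro hm
    have := mem_true.2 hm
    rw [this] at h
    exact absurd h.1 (by decide)

variable {V : Type*} [Fintype V] [DecidableEq V]
variable {H : SimpleGraph V} [DecidableRel H.Adj] {col : V → Bool} {D : ℕ → Prop} {f : ℕ → V}
  {T : ℕ}

/-- the graph is a copy of the graph given by the adjacency lists `A` -/
def Copy (H : SimpleGraph V) (A : List (List ℕ)) : Prop :=
  ∃ φ : Fin A.length → V, Function.Bijective φ ∧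
    ∀ z z' : Fin A.length, H.Adj (φ z) (φ z') ↔ (z' : ℕ) ∈ A[z]

lemma kn_of_row (h : Rz H col D f T) {a x y z : ℕ} (hr : R T a = m3 x y z) {b : ℕ} :
    b ∈ kn T a ↔ b = x ∨ b = y ∨ b = z := by
  have key : ∀ i, (R T a).testBit i = (decide (i = 3 * x) || decide (i = 3 * y) ||
      decide (i = 3 * z)) := by
    intro i
    rw [hr, testBit_m3]
  have hlt : ∀ y, (R T a).testBit (3 * y) = true → y < 64 := by
    intro y hy
    rw [testBit_R] at hy
    simp only [Bool.and_eq_true, decide_eq_true_eq] at hy
    omega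
  rw [mem_kn]
  constructor
  · rintro ⟨hx, hx2⟩
    rw [← testBit_R3 hx, key] at hx2
    simp only [Bool.or_eq_true, decide_eq_true_eq] at hx2
    omega
  · intro hx
    have hx2 : (R T a).testBit (3 * b) = true := by
      rw [key]
      simp only [Bool.or_eq_true, decide_eq_true_eq]
      omega
    have hx3 := hlt b hx2
    rw [testBit_R3 hx3] at hx2
    exact ⟨hx3, hx2⟩

theorem leaf (S : Setup H col) (hconn : H.Connected) {n0 n1 : ℕ}
    (h : Rz H col (fun l => disc n0 n1 l = true) f T) {A : List (List ℕ)} {lab : List ℕ}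
    (hl : leafOK T n0 n1 A lab = true) : Copy H A := by
  unfold leafOK at hl
  rw [Bool.and_eq_true, Bool.and_eq_true, Bool.and_eq_true, Bool.and_eq_true] at hl
  obtain ⟨⟨⟨⟨hpos, hlen⟩, hnd⟩, hdisc⟩, hall⟩ := hl
  rw [Nat.blt_eq] at hpos
  have hlen' : lab.length = A.length := Nat.eq_of_beq_eq_true hlen
  have hnd' := nodupB_iff hnd
  rw [List.all_eq_true] at hdisc hall
  -- the data at each position
  have hrow : ∀ (z : ℕ) (hz : z < A.length), ∃ x y w : ℕ, A[z] = [x, y, w] ∧
      x < A.length ∧ y < A.length ∧ w < A.length ∧ isFull T (lab[z]'(by omega)) = true ∧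
      R T (lab[z]'(by omega)) = m3 (nth lab x) (nth lab y) (nth lab w) := by
    intro z hz
    have hmem : (lab[z]'(by omega), A[z]) ∈ lab.zip A := by
      have h1 : z < (lab.zip A).length := by rw [List.length_zip]; omega
      have h2 : (lab.zip A)[z] = (lab[z]'(by omega), A[z]) := List.getElem_zip
      rw [← h2]
      exact List.getElem_mem h1
    have h1 := hall _ hmem
    rw [Bool.and_eq_true] at h1
    obtain ⟨h2, h3⟩ := h1
    simp only at h3
    match hA : A[z], h3 with
    | [x, y, w], h3 =>
      rw [Bool.and_eq_true, Bool.and_eq_true, Bool.and_eq_true, Nat.blt_eq, Nat.blt_eq,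
        Nat.blt_eq] at h3
      exact ⟨x, y, w, rfl, h3.1.1.1, h3.1.1.2, h3.1.2, h2, Nat.eq_of_beq_eq_true h3.2⟩
    | [], h3 => exact absurd h3 (by simp)
    | [_], h3 => exact absurd h3 (by simp)
    | [_, _], h3 => exact absurd h3 (by simp)
    | _ :: _ :: _ :: _ :: _, h3 => exact absurd h3 (by simp)
  have hdisc' : ∀ (z : ℕ) (hz : z < A.length), disc n0 n1 (lab[z]'(by omega)) = true := by
    intro z hz
    exact hdisc _ (List.getElem_mem _)
  obtain ⟨φ, hφ⟩ : ∃ φ : Fin A.length → V, φ = fun z => f (lab[z.1]'(by have := z.2; omega)) :=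
    ⟨_, rfl⟩
  have hφa : ∀ z : Fin A.length, φ z = f (lab[z.1]'(by have := z.2; omega)) := by
    intro z; rw [hφ]
  -- neighbours
  have hnb : ∀ (z : Fin A.length) (x : V), H.Adj (φ z) x ↔ ∃ z' : Fin A.length,
      (z' : ℕ) ∈ A[z] ∧ φ z' = x := by
    intro z x
    obtain ⟨a, b, c, h1, h2, h3, h4, h5, h6⟩ := hrow z.1 z.2
    have hN := h.full S h5
    have hxN : H.Adj (φ z) x ↔ x ∈ (kn T (lab[z.1]'(by have := z.2; omega))).image f := by
      rw [← hN, SimpleGraph.mem_neighborFinset, hφa]
    have hmemA : ∀ z' : ℕ, z' ∈ A[z] ↔ z' = a ∨ z' = b ∨ z' = c := by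
      intro z'
      have : A[z] = [a, b, c] := h1
      rw [this]
      simp
    rw [hxN, mem_image]
    constructor
    · rintro ⟨l, hl, rfl⟩
      rw [kn_of_row h h6, nth_eq lab a (by omega), nth_eq lab b (by omega),
        nth_eq lab c (by omega)] at hl
      rcases hl with hl | hl | hl
      · exact ⟨⟨a, h2⟩, (hmemA a).2 (Or.inl rfl), by rw [hφa, hl]⟩
      · exact ⟨⟨b, h3⟩, (hmemA b).2 (Or.inr (Or.inl rfl)), by rw [hφa, hl]⟩
      · exact ⟨⟨c, h4⟩, (hmemA c).2 (Or.inr (Or.inr rfl)), by rw [hφa, hl]⟩
    · rintro ⟨z', hz', rfl⟩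
      rw [hmemA] at hz'
      refine ⟨lab[z'.1]'(by have := z'.2; omega), ?_, by rw [hφa]⟩
      rw [kn_of_row h h6, nth_eq lab a (by omega), nth_eq lab b (by omega),
        nth_eq lab c (by omega)]
      rcases hz' with hz' | hz' | hz'
      · left; simp [hz']
      · right; left; simp [hz']
      · right; right; simp [hz']
  have hinj : Function.Injective φ := by
    intro z z' hzz
    rw [hφa, hφa] at hzz
    have h1 := h.inj _ _ (hdisc' z.1 z.2) (hdisc' z'.1 z'.2) hzz
    have h2 := (List.Nodup.getElem_inj_iff hnd').1 h1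
    exact Fin.ext h2
  have hsurj : Function.Surjective φ := by
    intro x
    have hreach : H.Reachable (φ ⟨0, hpos⟩) x := hconn.preconnected _ _
    rw [SimpleGraph.reachable_iff_reflTransGen] at hreach
    induction hreach with
    | refl => exact ⟨_, rfl⟩
    | tail _ hbc ih =>
      obtain ⟨z, rfl⟩ := ih
      obtain ⟨z', _, h2⟩ := (hnb z _).1 hbc
      exact ⟨z', h2⟩
  refine ⟨φ, ⟨hinj, hsurj⟩, ?_⟩
  intro z z'
  rw [hnb]
  constructor
  · rintro ⟨w, hw, hw2⟩
    rwa [← hinj hw2]
  · intro hz'
    exact ⟨z', hz', rfl⟩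

theorem chk_sound (S : Setup H col) (hconn : H.Connected) {s p c : ℕ} (hp : Par H col s p c)
    (RR : List (List (List ℕ))) : ∀ (t : Tr) (sts : List St), chk RR s p c t sts = true →
    ∀ st ∈ sts, ∀ f, Rz H col (fun l => disc st.n0 st.n1 l = true) f st.T →
      ∃ k, Copy H (getA RR k) := by
  intro t
  induction t with
  | e =>
    intro sts hchk st hst f hf
    match sts, hchk with
    | [], _ => simp at hst
    | _ :: _, hchk => simp [chk] at hchk
  | c t r iht ihr =>
    intro sts hchk st hst f hf
    match sts, hchk with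
    | [], hchk => simp [chk] at hchk
    | T :: Ts, hchk =>
      rw [chk, Bool.and_eq_true] at hchk
      rw [List.mem_cons] at hst
      rcases hst with hst | hst
      · subst hst
        exact iht _ hchk.1 st (by simp) f hf
      · exact ihr _ hchk.2 st hst f hf
  | v i j a1 a2 a3 b1 b2 b3 =>
    intro sts hchk st hst f hf
    match sts, hchk with
    | [], hchk => simp [chk] at hchk
    | [T], hchk =>
      rw [List.mem_singleton] at hst
      subst hst
      exact (hf.viol_false S hp (by simpa [chk] using hchk)).elim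
    | _ :: _ :: _, hchk => simp [chk] at hchk
  | l k lab =>
    intro sts hchk st hst f hf
    match sts, hchk with
    | [], hchk => simp [chk] at hchk
    | [T], hchk =>
      rw [List.mem_singleton] at hst
      subst hst
      exact ⟨k, leaf S hconn hf (by simpa [chk] using hchk)⟩
    | _ :: _ :: _, hchk => simp [chk] at hchk
  | b u ch ih =>
    intro sts hchk st hst f hf
    match sts, hchk with
    | [], hchk => simp [chk] at hchk
    | [⟨T, n0, n1⟩], hchk =>
      rw [List.mem_singleton] at hst
      subst hst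
      simp only [chk, Bool.and_eq_true] at hchk
      obtain ⟨⟨⟨⟨h1, h2⟩, h3⟩, h4⟩, h5⟩ := hchk
      obtain ⟨st', hst', f', hf'⟩ := branch S hf h1 (Nat.le_of_ble_eq_true h2)
        (Nat.le_of_ble_eq_true h3)
      exact ih _ h5 st' hst' f' hf'
    | _ :: _ :: _, hchk => simp [chk] at hchk

lemma exists_start (S : Setup H col) (v : V) : ∃ col', Setup H col' ∧
    (∀ x y, col' x = col' y ↔ col x = col y) ∧
    ∃ f, Rz H col' (fun l => disc start.n0 start.n1 l = true) f start.T := by
  classical
  obtain ⟨col', hcol'⟩ : ∃ col' : V → Bool, col' = fun x => xor (col x) (col v) := ⟨_, rfl⟩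
  have hcc : ∀ x y, col' x = col' y ↔ col x = col y := by
    intro x y
    rw [hcol']
    show xor (col x) (col v) = xor (col y) (col v) ↔ _
    generalize col x = a
    generalize col y = b
    generalize col v = c
    revert a b c
    decide
  have S' : Setup H col' := by
    refine ⟨S.reg, ?_⟩
    intro x y hxy hh
    exact S.proper x y hxy ((hcc x y).1 hh)
  have hv : col' v = false := by
    rw [hcol']
    simp
  refine ⟨col', S', hcc, ?_⟩
  obtain ⟨x, y, z, hxy, hxz, hyz, hN⟩ := Finset.card_eq_three.1 (S.reg v)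
  have hax : H.Adj v x := by
    rw [← SimpleGraph.mem_neighborFinset, hN]; simp
  have hay : H.Adj v y := by
    rw [← SimpleGraph.mem_neighborFinset, hN]; simp
  have haz : H.Adj v z := by
    rw [← SimpleGraph.mem_neighborFinset, hN]; simp
  have hcx : ∀ w, H.Adj v w → col' w = true := by
    intro w hw
    have := S'.proper _ _ hw
    rw [hv] at this
    cases h : col' w
    · exact absurd h.symm this
    · rfl
  obtain ⟨f, hf⟩ : ∃ f : ℕ → V, f = fun l => if l = 1 then x else if l = 3 then y else
    if l = 5 then z else v := ⟨_, rfl⟩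
  have f0 : f 0 = v := by rw [hf]; simp
  have f1 : f 1 = x := by rw [hf]; simp
  have f3 : f 3 = y := by rw [hf]; simp
  have f5 : f 5 = z := by rw [hf]; simp
  have hdisc : ∀ l, disc start.n0 start.n1 l = true ↔ l = 0 ∨ l = 1 ∨ l = 3 ∨ l = 5 := by
    intro l
    rw [disc_iff]
    have e0 : start.n0 = 1 := rfl
    have e1 : start.n1 = 3 := rfl
    rw [e0, e1]
    omega
  refine ⟨f, ?_, ?_, ?_, ?_⟩
  · intro a ha
    rw [hdisc] at ha
    omega
  · intro a b ha hb hab
    rw [hdisc] at ha hb
    rcases ha with rfl | rfl | rfl | rfl <;> rcases hb with rfl | rfl | rfl | rfl <;>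
      simp only [f0, f1, f3, f5] at hab
    · rfl
    · exact absurd hab hax.ne
    · exact absurd hab hay.ne
    · exact absurd hab haz.ne
    · exact absurd hab.symm hax.ne
    · rfl
    · exact absurd hab hxy
    · exact absurd hab hxz
    · exact absurd hab.symm hay.ne
    · exact absurd hab.symm hxy
    · rfl
    · exact absurd hab hyz
    · exact absurd hab.symm haz.ne
    · exact absurd hab.symm hxz
    · exact absurd hab.symm hyz
    · rfl
  · intro a ha
    rw [hdisc] at ha
    rcases ha with rfl | rfl | rfl | rfl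
    · rw [f0, hv]; rfl
    · rw [f1, hcx x hax]; rfl
    · rw [f3, hcx y hay]; rfl
    · rw [f5, hcx z haz]; rfl
  · intro i hi
    have eT : start.T = addE 0 0 [1, 3, 5] := rfl
    rw [eT, testBit_addE] at hi
    have key : ∀ w, w = 1 ∨ w = 3 ∨ w = 5 → H.Adj v (f w) := by
      intro w hw
      rcases hw with rfl | rfl | rfl
      · rw [f1]; exact hax
      · rw [f3]; exact hay
      · rw [f5]; exact haz
    rcases hi with hi | ⟨w, hw, hi⟩
    · simp at hi
    · have hw' : w = 1 ∨ w = 3 ∨ w = 5 := by simpa using hw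
      have hwd := (hdisc w).2 (Or.inr hw')
      have h0d := (hdisc 0).2 (Or.inl rfl)
      rcases hi with hi | hi
      · refine ⟨0, w, hi, h0d, hwd, ?_, ?_⟩
        · rw [f0]; exact key w hw'
        · rw [eT, testBit_addE]
          exact Or.inr ⟨w, hw, Or.inr rfl⟩
      · refine ⟨w, 0, hi, hwd, h0d, ?_, ?_⟩
        · rw [f0]; exact (key w hw').symm
        · rw [eT, testBit_addE]
          exact Or.inr ⟨w, hw, Or.inl rfl⟩

/-- a successful run of the checker classifies the graphs satisfying the condition -/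
theorem classify (S : Setup H col) (hconn : H.Connected) {s p c : ℕ} (hp : Par H col s p c)
    {RR : List (List (List ℕ))} {t : Tr} (hchk : chk RR s p c t [start] = true) :
    ∃ k, Copy H (getA RR k) := by
  obtain ⟨v⟩ := hconn.nonempty
  obtain ⟨col', S', hcc, f, hf⟩ := exists_start S v
  have hp' : Par H col' s p c := by
    intro x y hxy
    exact hp x y ((hcc x y).1 hxy)
  exact chk_sound S' hconn hp' RR t [start] hchk start (by simp) f hf

end Pool.Agent.Helper727.Cub
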