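import Pool.Agent.Helper727.Cub.RepData
import Pool.Agent.Helper727.Cub.Sound
import Pool.Agent.Helper727.Cub.Param2

namespace Pool.Agent.Helper727.Cub

open Finset Name

def nthL : List (List ℕ) → ℕ → List ℕ
  | [], _ => []
  | e :: _, 0 => e
  | _ :: t, n + 1 => nthL t n

lemma nthL_eq : ∀ (l : List (List ℕ)) (i : ℕ) (h : i < l.length), nthL l i = l[i] := by
  intro l
  induction l with
  | nil => intro i h; simp at h
  | cons a l ih =>
    intro i h
    cases i with
    | zero => rfl
    | succ i =>
      rw [nthL, ih i (by simpa using h)]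
      rfl

def relB (n : ℕ) (L : List ℤ) (i j : ℕ) : Bool :=
  decide ((j : ℤ) = ((i : ℤ) + 1) % n) || decide ((j : ℤ) = ((i : ℤ) + L.getD (i % L.length) 0) % n)

def adjB (n : ℕ) (L : List ℤ) (i j : ℕ) : Bool :=
  !(Nat.beq i j) && (relB n L i j || relB n L j i)

lemma adjB_iff {n : ℕ} {L : List ℤ} (i j : Fin n) :
    adjB n L i.val j.val = true ↔ (lcf n L).Adj i j := by
  unfold adjB relB lcf
  rw [SimpleGraph.fromRel_adj]
  simp only [Bool.and_eq_true, Bool.or_eq_true, decide_eq_true_eq, Bool.not_eq_true']
  apply and_congr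
  · constructor
    · intro h hij
      rw [hij, Nat.beq_refl] at h
      exact Bool.noConfusion h
    · intro h
      rw [Bool.eq_false_iff]
      intro hh
      exact h (Fin.ext (Nat.eq_of_beq_eq_true hh))
  · exact Iff.rfl

def eqBool (a b : Bool) : Bool := bif a then b else !b

lemma eqBool_spec {a b : Bool} (h : eqBool a b = true) : a = b := by
  revert h
  revert a b
  decide

def repOK (n : ℕ) (L : List ℤ) (A : List (List ℕ)) : Bool :=
  Nat.beq A.length n && allB n fun i => allB n fun j => eqBool (adjB n L i j) (mem j (nthL A i))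

lemma repOK_all : (names.all fun x => repOK (code x).1 (code x).2 (adjList x)) = true := by
  decide +kernel

lemma mem_names (x : Name) : x ∈ names := by
  cases x <;> decide

lemma repOK_name (x : Name) : repOK (code x).1 (code x).2 (adjList x) = true := by
  have := repOK_all
  rw [List.all_eq_true] at this
  exact this x (mem_names x)

lemma adjList_length (x : Name) : (adjList x).length = (code x).1 := by
  have := repOK_name x
  rw [repOK, Bool.and_eq_true] at this
  exact Nat.eq_of_beq_eq_true this.1

lemma graph_adj (x : Name) (i j : Fin (code x).1) :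
    (graph x).Adj i j ↔ j.val ∈ nthL (adjList x) i.val := by
  have h := repOK_name x
  rw [repOK, Bool.and_eq_true] at h
  have h1 := allB_spec (allB_spec h.2 i.val i.2) j.val j.2
  have h2 := eqBool_spec h1
  unfold graph
  rw [← adjB_iff, h2, mem_true]

/-- from a copy in the sense of the checker to an isomorphism -/
lemma copy_iso {V : Type*} {H : SimpleGraph V} {x : Name} (h : Copy H (adjList x)) :
    Nonempty (H ≃g graph x) := by
  obtain ⟨φ, hφ, hadj⟩ := h
  have hlen := adjList_length x
  obtain ⟨e, he⟩ : ∃ e : Fin (code x).1 ≃ V, ∀ z : Fin (code x).1,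
      e z = φ (Fin.cast hlen.symm z) := ⟨(finCongr hlen.symm).trans (Equiv.ofBijective φ hφ),
        fun z => rfl⟩
  refine ⟨⟨e.symm, ?_⟩⟩
  intro a b
  obtain ⟨z, rfl⟩ := e.surjective a
  obtain ⟨w, rfl⟩ := e.surjective b
  rw [Equiv.symm_apply_apply, Equiv.symm_apply_apply, graph_adj, he, he, hadj]
  rw [nthL_eq _ _ (by rw [hlen]; exact z.2)]
  rfl

lemma getA_reps {V : Type*} [Nonempty V] {H : SimpleGraph V} {k : ℕ}
    (h : Copy H (getA reps k)) : ∃ x : Name, Nonempty (H ≃g graph x) := by
  have key : ∀ (l : List Name) (k : ℕ), Copy H (getA (l.map adjList) k) →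
      ∃ x : Name, Nonempty (H ≃g graph x) := by
    intro l
    induction l with
    | nil =>
      intro k hk
      obtain ⟨φ, hφ, _⟩ := hk
      obtain ⟨z, _⟩ := hφ.2 (Classical.arbitrary V)
      exact absurd z.2 (by simp [getA])
    | cons x l ih =>
      intro k hk
      cases k with
      | zero => exact ⟨x, copy_iso hk⟩
      | succ k => exact ih k hk
  exact key names k h

end Pool.Agent.Helper727.Cub
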