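import Pool.Agent.Helper727.Cub.Bits

namespace Pool.Agent.Helper727.Cub

open Finset

variable {V : Type*} [Fintype V] [DecidableEq V]

/-- number of common neighbours -/
def W2 (H : SimpleGraph V) [DecidableRel H.Adj] (x y : V) : ℕ :=
  (H.neighborFinset x ∩ H.neighborFinset y).card

/-- number of walks of length four -/
def W4 (H : SimpleGraph V) [DecidableRel H.Adj] (x y : V) : ℕ :=
  ∑ a ∈ H.neighborFinset x, ∑ b ∈ H.neighborFinset y, W2 H a b

/-- `H` is cubic and `col` is a proper two-colouring -/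
structure Setup (H : SimpleGraph V) [DecidableRel H.Adj] (col : V → Bool) : Prop where
  reg : ∀ v, (H.neighborFinset v).card = 3
  proper : ∀ u v, H.Adj u v → col u ≠ col v

/-- the labelling `f` of the labels in `D` realises the known adjacencies in `T` -/
structure Rz (H : SimpleGraph V) (col : V → Bool) (D : ℕ → Prop) (f : ℕ → V) (T : ℕ) : Prop where
  lt : ∀ a, D a → a < 64
  inj : ∀ a b, D a → D b → f a = f b → a = b
  hcol : ∀ a, D a → col (f a) = (a % 2 == 1)
  bits : ∀ i, T.testBit i = true → ∃ a b, i = 192 * a + 3 * b ∧ D a ∧ D b ∧ H.Adj (f a) (f b) ∧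
    T.testBit (192 * b + 3 * a) = true

/-- known neighbours -/
def kn (T a : ℕ) : Finset ℕ := (range 64).filter (fun b => T.testBit (192 * a + 3 * b) = true)

lemma mem_kn {T a b : ℕ} : b ∈ kn T a ↔ b < 64 ∧ T.testBit (192 * a + 3 * b) = true := by
  simp [kn]

section

variable {H : SimpleGraph V} [DecidableRel H.Adj] {col : V → Bool} {D : ℕ → Prop} {f : ℕ → V}
  {T : ℕ}

lemma Rz.adj (h : Rz H col D f T) {a b : ℕ} (hb : b < 64)
    (ht : T.testBit (192 * a + 3 * b) = true) :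
    D a ∧ D b ∧ H.Adj (f a) (f b) ∧ T.testBit (192 * b + 3 * a) = true := by
  obtain ⟨a', b', h1, h2, h3, h4, h5⟩ := h.bits _ ht
  have := h.lt _ h3
  have ha : a' = a := by omega
  have hb : b' = b := by omega
  subst ha hb
  exact ⟨h2, h3, h4, h5⟩

lemma Rz.good (h : Rz H col D f T) (a : ℕ) : Good 64 (R T a) := by
  intro i hi
  rw [testBit_R] at hi
  simp only [Bool.and_eq_true, decide_eq_true_eq] at hi
  obtain ⟨a', b', h1, h2, h3, h4, h5⟩ := h.bits _ hi.2
  have := h.lt _ h3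
  exact ⟨b', this, by omega⟩

lemma testBit_R3 {a b : ℕ} (hb : b < 64) :
    (R T a).testBit (3 * b) = T.testBit (192 * a + 3 * b) := by
  rw [testBit_R]
  have : 3 * b < 192 := by omega
  simp [this]

lemma Rz.cn_R (h : Rz H col D f T) (a : ℕ) : cn (R T a) = (kn T a).card % 7 := by
  rw [cn_eq 64 _ (h.good a)]
  congr 2
  apply Finset.filter_congr
  intro b hb
  rw [mem_range] at hb
  rw [testBit_R3 hb]

lemma Rz.cn_land (h : Rz H col D f T) (a b : ℕ) :
    cn (Nat.land (R T a) (R T b)) = (kn T a ∩ kn T b).card % 7 := by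
  have hg : Good 64 (Nat.land (R T a) (R T b)) := by
    intro i hi
    rw [testBit_land', Bool.and_eq_true] at hi
    exact h.good a i hi.1
  rw [cn_eq 64 _ hg]
  congr 2
  ext x
  simp only [mem_filter, mem_range, mem_inter, mem_kn, testBit_land', Bool.and_eq_true]
  constructor
  · rintro ⟨h1, h2, h3⟩
    rw [testBit_R3 h1] at h2 h3
    exact ⟨⟨h1, h2⟩, ⟨h1, h3⟩⟩
  · rintro ⟨⟨h1, h2⟩, ⟨_, h3⟩⟩
    rw [testBit_R3 h1, testBit_R3 h1]
    exact ⟨h1, h2, h3⟩

lemma Rz.kn_D (h : Rz H col D f T) {a b : ℕ} (hb : b ∈ kn T a) : D b :=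
  (h.adj (mem_kn.1 hb).1 (mem_kn.1 hb).2).2.1

lemma Rz.kn_adj (h : Rz H col D f T) {a b : ℕ} (hb : b ∈ kn T a) : H.Adj (f a) (f b) :=
  (h.adj (mem_kn.1 hb).1 (mem_kn.1 hb).2).2.2.1

lemma Rz.kn_symm (h : Rz H col D f T) {a b : ℕ} (hb : b ∈ kn T a) : a ∈ kn T b := by
  have h1 := h.adj (mem_kn.1 hb).1 (mem_kn.1 hb).2
  exact mem_kn.2 ⟨h.lt _ h1.1, h1.2.2.2⟩

lemma Rz.injOn (h : Rz H col D f T) {s : Finset ℕ} (hs : ∀ a ∈ s, D a) :
    Set.InjOn f (s : Set ℕ) := by
  intro a ha b hb hab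
  exact h.inj a b (hs a ha) (hs b hb) hab

lemma Rz.image_sub (h : Rz H col D f T) (a : ℕ) : (kn T a).image f ⊆ H.neighborFinset (f a) := by
  intro x hx
  rw [mem_image] at hx
  obtain ⟨b, hb, rfl⟩ := hx
  rw [SimpleGraph.mem_neighborFinset]
  exact h.kn_adj hb

lemma Rz.card_image (h : Rz H col D f T) (a : ℕ) : ((kn T a).image f).card = (kn T a).card :=
  Finset.card_image_of_injOn (h.injOn fun _ hb => h.kn_D hb)

lemma Rz.kn_le (h : Rz H col D f T) (S : Setup H col) (a : ℕ) : (kn T a).card ≤ 3 := by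
  rw [← h.card_image, ← S.reg (f a)]
  exact Finset.card_le_card (h.image_sub a)

lemma Rz.cn_R' (h : Rz H col D f T) (S : Setup H col) (a : ℕ) : cn (R T a) = (kn T a).card := by
  rw [h.cn_R]
  have := h.kn_le S a
  omega

lemma isFull_iff (h : Rz H col D f T) (S : Setup H col) (a : ℕ) :
    isFull T a = true ↔ (kn T a).card = 3 := by
  unfold isFull
  rw [Nat.beq_eq, h.cn_R' S]

lemma Rz.full (h : Rz H col D f T) (S : Setup H col) {a : ℕ} (ha : isFull T a = true) :
    H.neighborFinset (f a) = (kn T a).image f := by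
  rw [isFull_iff h S] at ha
  symm
  apply Finset.eq_of_subset_of_card_le (h.image_sub a)
  rw [h.card_image, ha, S.reg]

lemma Rz.full_mem (h : Rz H col D f T) (S : Setup H col) {a b : ℕ} (ha : isFull T a = true)
    (hb : D b) (hab : H.Adj (f a) (f b)) : b ∈ kn T a := by
  have h1 : f b ∈ H.neighborFinset (f a) := by
    rw [SimpleGraph.mem_neighborFinset]
    exact hab
  rw [h.full S ha, mem_image] at h1
  obtain ⟨c, hc, hcb⟩ := h1
  rwa [← h.inj _ _ (h.kn_D hc) hb hcb]

lemma W2_self (S : Setup H col) (x : V) : W2 H x x = 3 := by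
  unfold W2
  rw [inter_self, S.reg]

lemma Rz.c2_le (h : Rz H col D f T) (S : Setup H col) (a b : ℕ) :
    c2 T a b ≤ W2 H (f a) (f b) := by
  unfold c2
  by_cases hab : a = b
  · subst hab
    have : Nat.beq a a = true := Nat.beq_refl a
    rw [this, cond_true, W2_self S]
  · have : Nat.beq a b = false := by
      rw [Bool.eq_false_iff]
      intro hh
      exact hab (Nat.eq_of_beq_eq_true hh)
    rw [this, cond_false, h.cn_land]
    have h1 : (kn T a ∩ kn T b).card ≤ W2 H (f a) (f b) := by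
      unfold W2
      rw [← Finset.card_image_of_injOn (s := kn T a ∩ kn T b) (f := f)
        (h.injOn fun x hx => h.kn_D (mem_inter.1 hx).1)]
      apply Finset.card_le_card
      intro x hx
      rw [mem_image] at hx
      obtain ⟨y, hy, rfl⟩ := hx
      rw [mem_inter] at hy ⊢
      exact ⟨h.image_sub a (mem_image_of_mem f hy.1), h.image_sub b (mem_image_of_mem f hy.2)⟩
    exact le_trans (Nat.mod_le _ _) h1

lemma Rz.c2_eq (h : Rz H col D f T) (S : Setup H col) {a b : ℕ} (ha : isFull T a = true)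
    (hb : isFull T b = true) : c2 T a b = W2 H (f a) (f b) := by
  unfold c2
  by_cases hab : a = b
  · subst hab
    have : Nat.beq a a = true := Nat.beq_refl a
    rw [this, cond_true, W2_self S]
  · have : Nat.beq a b = false := by
      rw [Bool.eq_false_iff]
      intro hh
      exact hab (Nat.eq_of_beq_eq_true hh)
    rw [this, cond_false, h.cn_land]
    have h1 : W2 H (f a) (f b) = (kn T a ∩ kn T b).card := by
      unfold W2
      rw [h.full S ha, h.full S hb]
      rw [← Finset.card_image_of_injOn (s := kn T a ∩ kn T b) (f := f)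
        (h.injOn fun x hx => h.kn_D (mem_inter.1 hx).1)]
      congr 1
      ext x
      simp only [mem_inter, mem_image]
      constructor
      · rintro ⟨⟨y, hy, rfl⟩, ⟨z, hz, hzy⟩⟩
        have : z = y := h.inj _ _ (h.kn_D hz) (h.kn_D hy) hzy
        subst this
        exact ⟨z, ⟨hy, hz⟩, rfl⟩
      · rintro ⟨y, ⟨h1, h2⟩, rfl⟩
        exact ⟨⟨y, h1, rfl⟩, ⟨y, h2, rfl⟩⟩
    rw [h1]
    apply Nat.mod_eq_of_lt
    have h2 : (kn T a ∩ kn T b).card ≤ (kn T a).card := Finset.card_le_card inter_subset_left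
    have h3 := h.kn_le S a
    omega

lemma Rz.r3 (h : Rz H col D f T) {i a b c : ℕ} (hr : r3 T i a b c = true) :
    kn T i = {a, b, c} ∧ a < b ∧ b < c := by
  unfold Cub.r3 at hr
  simp only [Bool.and_eq_true, Nat.blt_eq] at hr
  obtain ⟨⟨h1, h2⟩, h3⟩ := hr
  have h4 : R T i = m3 a b c := Nat.eq_of_beq_eq_true h3
  have key : ∀ x, (R T i).testBit x = (decide (x = 3 * a) || decide (x = 3 * b) ||
      decide (x = 3 * c)) := by
    intro x
    rw [h4, testBit_m3]
  refine ⟨?_, h1, h2⟩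
  ext x
  rw [mem_kn]
  have hlt : ∀ y, (R T i).testBit (3 * y) = true → y < 64 := by
    intro y hy
    rw [testBit_R] at hy
    simp only [Bool.and_eq_true, decide_eq_true_eq] at hy
    omega
  constructor
  · rintro ⟨hx, hx2⟩
    rw [← testBit_R3 hx, key] at hx2
    simp only [Bool.or_eq_true, decide_eq_true_eq] at hx2
    simp only [mem_insert, mem_singleton]
    omega
  · intro hx
    simp only [mem_insert, mem_singleton] at hx
    have hx2 : (R T i).testBit (3 * x) = true := by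
      rw [key]
      simp only [Bool.or_eq_true, decide_eq_true_eq]
      omega
    have hx3 := hlt x hx2
    rw [testBit_R3 hx3] at hx2
    exact ⟨hx3, hx2⟩

lemma Rz.r3_full (h : Rz H col D f T) (S : Setup H col) {i a b c : ℕ}
    (hr : Cub.r3 T i a b c = true) :
    isFull T i = true ∧ D i ∧ D a ∧ D b ∧ D c ∧ f a ≠ f b ∧ f a ≠ f c ∧ f b ≠ f c ∧
      H.neighborFinset (f i) = {f a, f b, f c} := by
  obtain ⟨h1, h2, h3⟩ := h.r3 hr
  have hcard : (kn T i).card = 3 := by
    rw [h1]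
    apply Finset.card_eq_three.2
    exact ⟨a, b, c, by omega, by omega, by omega, rfl⟩
  have hfull := (isFull_iff h S i).2 hcard
  have ha : a ∈ kn T i := by rw [h1]; simp
  have hb : b ∈ kn T i := by rw [h1]; simp
  have hc : c ∈ kn T i := by rw [h1]; simp
  have hi : D i := (h.adj (mem_kn.1 ha).1 (mem_kn.1 ha).2).1
  refine ⟨hfull, hi, h.kn_D ha, h.kn_D hb, h.kn_D hc, ?_, ?_, ?_, ?_⟩
  · intro hh
    have := h.inj _ _ (h.kn_D ha) (h.kn_D hb) hh
    omega
  · intro hh
    have := h.inj _ _ (h.kn_D ha) (h.kn_D hc) hh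
    omega
  · intro hh
    have := h.inj _ _ (h.kn_D hb) (h.kn_D hc) hh
    omega
  · rw [h.full S hfull, h1]
    simp [Finset.image_insert]

lemma sum3 {x y z : V} (h1 : x ≠ y) (h2 : x ≠ z) (h3 : y ≠ z) (g : V → ℕ) :
    ∑ a ∈ ({x, y, z} : Finset V), g a = g x + g y + g z := by
  rw [Finset.sum_insert (by simp [h1, h2]), Finset.sum_insert (by simp [h3]),
    Finset.sum_singleton]
  ring

/-- the spectral condition in combinatorial form -/
def Par (H : SimpleGraph V) [DecidableRel H.Adj] (col : V → Bool) (s p c : ℕ) : Prop :=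
  ∀ x y, col x = col y → W4 H x y + (if x = y then p else 0) = c + s * W2 H x y

lemma Rz.viol_false (h : Rz H col D f T) (S : Setup H col) {s p c : ℕ} (hp : Par H col s p c)
    {i j a1 a2 a3 b1 b2 b3 : ℕ} (hv : viol s p c T i j a1 a2 a3 b1 b2 b3 = true) : False := by
  unfold viol at hv
  rw [Bool.and_eq_true, Bool.and_eq_true, Bool.and_eq_true] at hv
  obtain ⟨⟨⟨h1, h2⟩, h3⟩, h4⟩ := hv
  obtain ⟨hi, hiD, ha1, ha2, ha3, hne1, hne2, hne3, hN⟩ := h.r3_full S h2
  obtain ⟨hj, hjD, hb1, hb2, hb3, hne4, hne5, hne6, hN2⟩ := h.r3_full S h3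
  have hcol : col (f i) = col (f j) := by
    rw [h.hcol i hiD, h.hcol j hjD]
    have : i % 2 = j % 2 := Nat.eq_of_beq_eq_true h1
    rw [this]
  have hpar := hp _ _ hcol
  rw [← h.c2_eq S hi hj] at hpar
  have hij : (if f i = f j then p else 0) = (bif Nat.beq i j then p else 0) := by
    by_cases hh : i = j
    · subst hh
      rw [if_pos rfl, Nat.beq_refl, cond_true]
    · have : Nat.beq i j = false := by
        rw [Bool.eq_false_iff]
        intro hh2
        exact hh (Nat.eq_of_beq_eq_true hh2)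
      rw [this, cond_false, if_neg]
      intro hf
      exact hh (h.inj _ _ hiD hjD hf)
  rw [hij] at hpar
  have hW4 : W4 H (f i) (f j) =
      (W2 H (f a1) (f b1) + W2 H (f a1) (f b2) + W2 H (f a1) (f b3)) +
      (W2 H (f a2) (f b1) + W2 H (f a2) (f b2) + W2 H (f a2) (f b3)) +
      (W2 H (f a3) (f b1) + W2 H (f a3) (f b2) + W2 H (f a3) (f b3)) := by
    unfold W4
    rw [hN, hN2, sum3 hne1 hne2 hne3, sum3 hne4 hne5 hne6, sum3 hne4 hne5 hne6,
      sum3 hne4 hne5 hne6]
  have hl4 : l4 T a1 a2 a3 b1 b2 b3 = (c2 T a1 b1 + c2 T a1 b2 + c2 T a1 b3) +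
      (c2 T a2 b1 + c2 T a2 b2 + c2 T a2 b3) + (c2 T a3 b1 + c2 T a3 b2 + c2 T a3 b3) := rfl
  have e1 : ∀ x y : ℕ, Nat.add x y = x + y := fun _ _ => rfl
  have e2 : ∀ x y : ℕ, Nat.mul x y = x * y := fun _ _ => rfl
  rw [Bool.or_eq_true] at h4
  rcases h4 with h4 | h4
  · rw [Nat.blt_eq, hl4, e1, e1, e2] at h4
    have := h.c2_le S a1 b1
    have := h.c2_le S a1 b2
    have := h.c2_le S a1 b3
    have := h.c2_le S a2 b1
    have := h.c2_le S a2 b2
    have := h.c2_le S a2 b3
    have := h.c2_le S a3 b1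
    have := h.c2_le S a3 b2
    have := h.c2_le S a3 b3
    omega
  · simp only [Bool.and_eq_true, Bool.not_eq_true'] at h4
    obtain ⟨⟨⟨⟨⟨⟨g1, g2⟩, g3⟩, g4⟩, g5⟩, g6⟩, g7⟩ := h4
    have hne : ¬ (Nat.add c (Nat.mul s (c2 T i j)) =
        Nat.add (l4 T a1 a2 a3 b1 b2 b3) (bif Nat.beq i j then p else 0)) := by
      intro hh
      rw [hh, Nat.beq_refl] at g7
      exact Bool.noConfusion g7
    apply hne
    rw [hl4, e1, e1, e2, h.c2_eq S g1 g4, h.c2_eq S g1 g5, h.c2_eq S g1 g6, h.c2_eq S g2 g4,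
      h.c2_eq S g2 g5, h.c2_eq S g2 g6, h.c2_eq S g3 g4, h.c2_eq S g3 g5, h.c2_eq S g3 g6]
    omega

end

end Pool.Agent.Helper727.Cub
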