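import Pool.Agent.Helper727.Cub.Sem

namespace Pool.Agent.Helper727.Cub

open Finset Matrix

section general

variable {V : Type*} [Fintype V] [DecidableEq V]

/-- diagonalisation of a symmetric real matrix -/
lemma diag_exists (M : Matrix V V ℝ) (hM : M.IsHermitian) :
    ∃ (φ : Matrix V V ℝ →ₐ[ℝ] Matrix V V ℝ) (d : V → ℝ), Function.Injective φ ∧
      (∀ X, (φ X).trace = X.trace) ∧ M = φ (Matrix.diagonal d) ∧
      (∀ t, t ∈ spectrum ℝ M ↔ ∃ k, d k = t) := by
  have h := hM.spectral_theorem
  refine ⟨((Unitary.conjStarAlgAut ℝ (Matrix V V ℝ) hM.eigenvectorUnitary : Matrix V V ℝ ≃⋆ₐ[ℝ]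
    Matrix V V ℝ).toAlgEquiv : Matrix V V ℝ →ₐ[ℝ] Matrix V V ℝ), hM.eigenvalues, ?_, ?_, ?_, ?_⟩
  · intro X Y hXY
    exact (Unitary.conjStarAlgAut ℝ (Matrix V V ℝ) hM.eigenvectorUnitary).injective hXY
  · intro X
    show (Unitary.conjStarAlgAut ℝ (Matrix V V ℝ) hM.eigenvectorUnitary X).trace = _
    rw [Unitary.conjStarAlgAut_apply, Matrix.trace_mul_comm, ← mul_assoc,
      Unitary.coe_star_mul_self, one_mul]
  · exact h
  · intro t
    rw [hM.spectrum_real_eq_range_eigenvalues]
    rfl

lemma mem_spec_iff (M : Matrix V V ℝ) (t : ℝ) :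
    t ∈ spectrum ℝ M ↔ ∃ g : V → ℝ, g ≠ 0 ∧ M *ᵥ g = t • g := by
  rw [spectrum.mem_iff, Matrix.isUnit_iff_isUnit_det, isUnit_iff_ne_zero, not_not,
    ← Matrix.exists_mulVec_eq_zero_iff]
  apply exists_congr
  intro g
  apply and_congr_right
  intro _
  rw [Matrix.sub_mulVec, sub_eq_zero]
  have : (algebraMap ℝ (Matrix V V ℝ) t) *ᵥ g = t • g := by
    rw [Algebra.algebraMap_eq_smul_one, Matrix.smul_mulVec, Matrix.one_mulVec]
  rw [this]
  exact eq_comm

end general

section graph

variable {V : Type*} [Fintype V] [DecidableEq V]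
variable {H : SimpleGraph V} [DecidableRel H.Adj] {col : V → Bool}

/-- the square of the adjacency matrix -/
noncomputable def Msq (H : SimpleGraph V) [DecidableRel H.Adj] : Matrix V V ℝ :=
  H.adjMatrix ℝ * H.adjMatrix ℝ

lemma Msq_apply (i j : V) : Msq H i j = W2 H i j := by
  unfold Msq W2
  rw [SimpleGraph.adjMatrix_mul_apply]
  simp only [SimpleGraph.adjMatrix_apply]
  rw [Finset.sum_boole]
  congr 2
  ext k
  simp only [mem_filter, mem_inter, SimpleGraph.mem_neighborFinset]
  rw [SimpleGraph.adj_comm H k j]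

lemma Msq_mul_apply (X : Matrix V V ℝ) (i j : V) :
    (H.adjMatrix ℝ * X * H.adjMatrix ℝ) i j =
      ∑ a ∈ H.neighborFinset i, ∑ b ∈ H.neighborFinset j, X a b := by
  rw [SimpleGraph.mul_adjMatrix_apply]
  simp only [SimpleGraph.adjMatrix_mul_apply]
  rw [Finset.sum_comm]

lemma Msq2_apply (i j : V) : (Msq H * Msq H) i j = W4 H i j := by
  have : Msq H * Msq H = H.adjMatrix ℝ * Msq H * H.adjMatrix ℝ := by
    unfold Msq
    simp only [mul_assoc]
  rw [this, Msq_mul_apply]
  unfold W4
  push_cast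
  simp only [Msq_apply]

lemma W2_comm (x y : V) : W2 H x y = W2 H y x := by
  unfold W2
  rw [inter_comm]

lemma W4_comm (x y : V) : W4 H x y = W4 H y x := by
  unfold W4
  rw [Finset.sum_comm]
  apply Finset.sum_congr rfl
  intro a _
  apply Finset.sum_congr rfl
  intro b _
  rw [W2_comm]

lemma Msq_isHermitian : (Msq H).IsHermitian := by
  ext i j
  rw [Matrix.conjTranspose_apply, Msq_apply, Msq_apply, W2_comm]
  simp

lemma W2_diff (S : Setup H col) {x y : V} (h : col x ≠ col y) : W2 H x y = 0 := by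
  unfold W2
  rw [Finset.card_eq_zero, Finset.eq_empty_iff_forall_notMem]
  intro z hz
  rw [mem_inter, SimpleGraph.mem_neighborFinset, SimpleGraph.mem_neighborFinset] at hz
  have h1 := S.proper _ _ hz.1
  have h2 := S.proper _ _ hz.2
  revert h h1 h2
  generalize col x = a
  generalize col y = b
  generalize col z = c
  revert a b c
  decide

lemma W4_diff (S : Setup H col) {x y : V} (h : col x ≠ col y) : W4 H x y = 0 := by
  unfold W4
  apply Finset.sum_eq_zero
  intro a ha
  apply Finset.sum_eq_zero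
  intro b hb
  apply W2_diff S
  rw [SimpleGraph.mem_neighborFinset] at ha hb
  have h1 := S.proper _ _ ha
  have h2 := S.proper _ _ hb
  revert h h1 h2
  generalize col x = p
  generalize col y = q
  generalize col a = r
  generalize col b = s
  revert p q r s
  decide

lemma W2_pos {x y z : V} (h1 : H.Adj x z) (h2 : H.Adj y z) : 0 < W2 H x y := by
  unfold W2
  rw [Finset.card_pos]
  refine ⟨z, ?_⟩
  rw [mem_inter, SimpleGraph.mem_neighborFinset, SimpleGraph.mem_neighborFinset]
  exact ⟨h1, h2⟩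

lemma W2_le (S : Setup H col) (x y : V) : W2 H x y ≤ 3 := by
  unfold W2
  rw [← S.reg x]
  exact Finset.card_le_card inter_subset_left

lemma W2_row (S : Setup H col) (x : V) : ∑ y, W2 H x y = 9 := by
  unfold W2
  simp only [Finset.card_eq_sum_ones]
  have h1 : ∀ y, ∑ _k ∈ H.neighborFinset x ∩ H.neighborFinset y, 1 =
      ∑ k ∈ H.neighborFinset x, if H.Adj k y then 1 else 0 := by
    intro y
    rw [← Finset.sum_filter]
    apply Finset.sum_congr _ (fun _ _ => rfl)
    ext k
    simp only [mem_filter, mem_inter, SimpleGraph.mem_neighborFinset]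
    rw [SimpleGraph.adj_comm H k y]
  simp only [h1]
  rw [Finset.sum_comm]
  have h2 : ∀ k, ∑ y, (if H.Adj k y then 1 else 0) = 3 := by
    intro k
    rw [← S.reg k, Finset.card_eq_sum_ones, ← Finset.sum_filter]
    apply Finset.sum_congr _ (fun _ _ => rfl)
    ext y
    simp
  simp only [h2]
  rw [Finset.sum_const, S.reg]
  rfl

lemma W4_self (x : V) : W4 H x x = ∑ y, W2 H x y * W2 H x y := by
  have h1 : (W4 H x x : ℝ) = ∑ y, (W2 H x y : ℝ) * W2 H x y := by
    rw [← Msq2_apply, Matrix.mul_apply]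
    apply Finset.sum_congr rfl
    intro y _
    rw [Msq_apply, Msq_apply, W2_comm y x]
  exact_mod_cast h1

lemma Msq_one (S : Setup H col) : Msq H *ᵥ (fun _ => (1 : ℝ)) = (9 : ℝ) • (fun _ => (1 : ℝ)) := by
  ext x
  rw [Matrix.mulVec, dotProduct]
  simp only [mul_one, Msq_apply, Pi.smul_apply, smul_eq_mul]
  have := W2_row S x
  exact_mod_cast this

lemma spec_bounds (S : Setup H col) {t : ℝ} (ht : t ∈ spectrum ℝ (Msq H)) : 0 ≤ t ∧ t ≤ 9 := by
  rw [mem_spec_iff] at ht
  obtain ⟨g, hg, hgt⟩ := ht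
  constructor
  · by_contra hneg
    push Not at hneg
    have h1 : g ⬝ᵥ (Msq H *ᵥ g) = t * (g ⬝ᵥ g) := by
      rw [hgt, dotProduct_smul, smul_eq_mul]
    have h2 : 0 ≤ g ⬝ᵥ (Msq H *ᵥ g) := by
      unfold Msq
      rw [← Matrix.mulVec_mulVec, Matrix.dotProduct_mulVec]
      have : g ᵥ* H.adjMatrix ℝ = H.adjMatrix ℝ *ᵥ g := by
        rw [← Matrix.mulVec_transpose, SimpleGraph.transpose_adjMatrix]
      rw [this]
      exact Finset.sum_nonneg fun i _ => mul_self_nonneg _
    have h3 : 0 < g ⬝ᵥ g := by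
      have h4 : 0 ≤ g ⬝ᵥ g := Finset.sum_nonneg fun i _ => mul_self_nonneg _
      rcases h4.lt_or_eq with h5 | h5
      · exact h5
      · exact absurd (dotProduct_self_eq_zero.1 h5.symm) hg
    nlinarith
  · obtain ⟨x0, hx0⟩ := Function.ne_iff.1 hg
    obtain ⟨x, _, hx⟩ := Finset.exists_max_image Finset.univ (fun x => |g x|) ⟨x0, mem_univ _⟩
    have hpos : 0 < |g x| := by
      have := hx x0 (mem_univ _)
      have h2 : 0 < |g x0| := abs_pos.2 hx0
      linarith
    have h1 : t * g x = ∑ y, (W2 H x y : ℝ) * g y := by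
      have := congrFun hgt x
      rw [Matrix.mulVec, dotProduct, Pi.smul_apply, smul_eq_mul] at this
      rw [← this]
      simp only [Msq_apply]
    have h2 : |t| * |g x| ≤ 9 * |g x| := by
      rw [← abs_mul, h1]
      calc |∑ y, (W2 H x y : ℝ) * g y| ≤ ∑ y, |(W2 H x y : ℝ) * g y| :=
            Finset.abs_sum_le_sum_abs _ _
        _ ≤ ∑ y, (W2 H x y : ℝ) * |g x| := by
            apply Finset.sum_le_sum
            intro y _
            rw [abs_mul, Nat.abs_cast]
            exact mul_le_mul_of_nonneg_left (hx y (mem_univ _)) (Nat.cast_nonneg _)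
        _ = 9 * |g x| := by
            rw [← Finset.sum_mul]
            have := W2_row S x
            congr 1
            exact_mod_cast this
    have h3 : |t| ≤ 9 := le_of_mul_le_mul_right h2 hpos
    exact le_trans (le_abs_self t) h3

lemma nine_mem (S : Setup H col) [Nonempty V] : (9 : ℝ) ∈ spectrum ℝ (Msq H) := by
  rw [mem_spec_iff]
  refine ⟨fun _ => 1, ?_, Msq_one S⟩
  intro h
  have := congrFun h (Classical.arbitrary V)
  norm_num at this

/-- eigenvectors for the eigenvalue `9` are constant on the two colour classes -/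
lemma harmonic (S : Setup H col) (hconn : H.Connected) {g : V → ℝ}
    (hg : Msq H *ᵥ g = (9 : ℝ) • g) {x y : V} (hxy : col x = col y) : g x = g y := by
  have hM : ∀ x, ∑ y, (W2 H x y : ℝ) * g y = 9 * g x := by
    intro x
    have := congrFun hg x
    rw [Matrix.mulVec, dotProduct, Pi.smul_apply, smul_eq_mul] at this
    rw [← this]
    simp only [Msq_apply]
  have hrow : ∀ x, ∑ y, (W2 H x y : ℝ) = 9 := by
    intro x
    have := W2_row S x
    exact_mod_cast this
  have hsum : ∑ x, ∑ y, (W2 H x y : ℝ) * (g x - g y) ^ 2 = 0 := by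
    have e : ∀ x y, (W2 H x y : ℝ) * (g x - g y) ^ 2 =
        (W2 H x y : ℝ) * (g x) ^ 2 + (W2 H x y : ℝ) * (g y) ^ 2 -
          2 * (g x * ((W2 H x y : ℝ) * g y)) := by
      intro x y; ring
    simp only [e, Finset.sum_sub_distrib, Finset.sum_add_distrib]
    have e1 : ∑ x, ∑ y, (W2 H x y : ℝ) * (g x) ^ 2 = ∑ x, 9 * (g x) ^ 2 := by
      apply Finset.sum_congr rfl
      intro x _
      rw [← Finset.sum_mul, hrow]
    have e2 : ∑ x, ∑ y, (W2 H x y : ℝ) * (g y) ^ 2 = ∑ x, 9 * (g x) ^ 2 := by
      rw [Finset.sum_comm, ← e1]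
      apply Finset.sum_congr rfl
      intro x _
      apply Finset.sum_congr rfl
      intro y _
      rw [W2_comm]
    have e3 : ∑ x, ∑ y, 2 * (g x * ((W2 H x y : ℝ) * g y)) = ∑ x, 18 * (g x) ^ 2 := by
      apply Finset.sum_congr rfl
      intro x _
      rw [← Finset.mul_sum, ← Finset.mul_sum, hM]
      ring
    rw [e1, e2, e3, ← Finset.sum_add_distrib, ← Finset.sum_sub_distrib]
    apply Finset.sum_eq_zero
    intro x _
    ring
  have hz : ∀ x y, (W2 H x y : ℝ) * (g x - g y) ^ 2 = 0 := by
    intro x y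
    have h1 : ∀ x ∈ Finset.univ, (0 : ℝ) ≤ ∑ y, (W2 H x y : ℝ) * (g x - g y) ^ 2 := by
      intro x _
      exact Finset.sum_nonneg fun y _ => mul_nonneg (Nat.cast_nonneg _) (sq_nonneg _)
    have h2 := (Finset.sum_eq_zero_iff_of_nonneg h1).1 hsum x (mem_univ _)
    exact (Finset.sum_eq_zero_iff_of_nonneg
      (fun y _ => mul_nonneg (Nat.cast_nonneg _) (sq_nonneg _))).1 h2 y (mem_univ _)
  have hstep : ∀ x y z, H.Adj x z → H.Adj y z → g x = g y := by
    intro x y z h1 h2
    have h3 := hz x y
    have h4 : (0 : ℝ) < W2 H x y := by exact_mod_cast W2_pos h1 h2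
    rcases mul_eq_zero.1 h3 with h5 | h5
    · linarith
    · have := pow_eq_zero_iff (two_ne_zero) |>.1 h5
      linarith
  have hreach : H.Reachable x y := hconn.preconnected _ _
  rw [SimpleGraph.reachable_iff_reflTransGen] at hreach
  have key : ∀ y, Relation.ReflTransGen H.Adj x y →
      (col x = col y → g x = g y) ∧ (col x ≠ col y → ∀ z, H.Adj z y → g x = g z) := by
    intro y hr
    induction hr with
    | refl => exact ⟨fun _ => rfl, fun h => absurd rfl h⟩
    | @tail b c _ hbc ih =>
      have hp := S.proper _ _ hbc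
      constructor
      · intro h
        have h2 : col x ≠ col b := by
          rw [h]
          exact fun hh => hp hh.symm
        exact ih.2 h2 c hbc.symm
      · intro h z hz
        have h2 : col x = col b := by
          revert h hp
          generalize col x = a
          generalize col b = b
          generalize col c = c
          revert a b c
          decide
        rw [ih.1 h2]
        exact hstep b z c hbc hz
  exact (key y hreach).1 hxy

end graph

end Pool.Agent.Helper727.Cub
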