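import Pool.Agent.Helper727.Cub.RepEig
import Pool.Agent.Helper727.Cub.Comp

namespace Pool.Agent.Helper727.Cub

open Finset Name Matrix

lemma T2_name (x : Name) : T2 (graph x) = {t | ∃ i ∈ idxL x, t = val i} := by
  rw [T2_eq, spec_name]

section iso

variable {V W : Type*} [Fintype V] [DecidableEq V] [Fintype W] [DecidableEq W]
variable {H : SimpleGraph V} [DecidableRel H.Adj] {K : SimpleGraph W} [DecidableRel K.Adj]

lemma nbr_iso (e : H ≃g K) (x : V) :
    K.neighborFinset (e x) = (H.neighborFinset x).image e := by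
  ext w
  rw [SimpleGraph.mem_neighborFinset, mem_image]
  constructor
  · intro h
    refine ⟨e.symm w, ?_, by simp⟩
    rw [SimpleGraph.mem_neighborFinset]
    have := e.symm.map_adj_iff.2 h
    simpa using this
  · rintro ⟨v, hv, rfl⟩
    rw [SimpleGraph.mem_neighborFinset] at hv
    exact e.map_adj_iff.2 hv

lemma W2_iso (e : H ≃g K) (x y : V) : W2 K (e x) (e y) = W2 H x y := by
  unfold W2
  rw [nbr_iso, nbr_iso, ← Finset.image_inter _ _ e.injective,
    Finset.card_image_of_injective _ e.injective]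

/-- number of walks of length three -/
def W3 (H : SimpleGraph V) [DecidableRel H.Adj] (x y : V) : ℕ := ∑ a ∈ H.neighborFinset x, W2 H a y

lemma W3_iso (e : H ≃g K) (x y : V) : W3 K (e x) (e y) = W3 H x y := by
  unfold W3
  rw [nbr_iso, Finset.sum_image (fun a _ b _ hab => e.injective hab)]
  apply Finset.sum_congr rfl
  intro a _
  exact W2_iso e a y

end iso

def w3B (x : Name) (i j : ℕ) : ℕ :=
  match nthL (adjList x) i with
  | [a, b, c] => Nat.add (Nat.add (c2 (tabN x) a j) (c2 (tabN x) b j)) (c2 (tabN x) c j)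
  | _ => 0

lemma w3B_spec (x : Name) (i j : Fin (code x).1) (hij : i.val % 2 ≠ j.val % 2) :
    W3 (graph x) i j = w3B x i.val j.val := by
  obtain ⟨a, b, c, h1, h2, h3, h4, h5, h6⟩ := row_spec x i
  have hN : (graph x).neighborFinset i = {a, b, c} := by
    ext j
    rw [SimpleGraph.mem_neighborFinset, graph_adj, h1]
    simp only [List.mem_cons, List.not_mem_nil, or_false, mem_insert, mem_singleton, Fin.ext_iff]
  have g1 : a ≠ b := by rintro rfl; omega
  have g2 : a ≠ c := by rintro rfl; omega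
  have g3 : b ≠ c := by rintro rfl; omega
  unfold W3 w3B
  rw [hN, h1, sum3 g1 g2 g3, c2_name x a j (by omega), c2_name x b j (by omega),
    c2_name x c j (by omega)]
  rfl

lemma desargues_w3 : (allB 20 fun i => allB 20 fun j => Nat.beq (i % 2) (j % 2) ||
    !(Nat.beq (w3B desargues i j) 1)) = true := by
  decide +kernel

lemma mate_w3 : ((List.range 20).any fun i => (List.range 20).any fun j =>
    !(Nat.beq (i % 2) (j % 2)) && Nat.beq (w3B desarguesMate i j) 1) = true := by
  decide +kernel

lemma desargues_not_mate : ¬ Nonempty (graph desarguesMate ≃g graph desargues) := by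
  rintro ⟨e⟩
  have h := mate_w3
  rw [List.any_eq_true] at h
  obtain ⟨i, hi, h⟩ := h
  rw [List.any_eq_true] at h
  obtain ⟨j, hj, h⟩ := h
  rw [List.mem_range] at hi hj
  rw [Bool.and_eq_true, Bool.not_eq_true'] at h
  have hij := ne_of_beq h.1
  have h1 := Nat.eq_of_beq_eq_true h.2
  have h2 := w3B_spec desarguesMate ⟨i, hi⟩ ⟨j, hj⟩ hij
  rw [h1, ← W3_iso e] at h2
  obtain ⟨a, ha⟩ : ∃ a, a = e ⟨i, hi⟩ := ⟨_, rfl⟩
  obtain ⟨b, hb⟩ : ∃ b, b = e ⟨j, hj⟩ := ⟨_, rfl⟩
  rw [← ha, ← hb] at h2
  by_cases hab : a.val % 2 = b.val % 2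
  · have h3 : W3 (graph desargues) a b = 0 := by
      unfold W3
      apply Finset.sum_eq_zero
      intro c hc
      rw [SimpleGraph.mem_neighborFinset] at hc
      have h4 := (setup_name desargues).proper _ _ hc
      apply W2_diff (setup_name desargues)
      intro h5
      apply h4
      rw [h5]
      unfold colN
      rw [hab]
    omega
  · rw [w3B_spec desargues a b hab] at h2
    have h3 := allB_spec (allB_spec desargues_w3 a.val a.2) b.val b.2
    rw [h2, Nat.beq_refl, Bool.not_true, Bool.or_false] at h3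
    exact hab (Nat.eq_of_beq_eq_true h3)

lemma mk_not_lcf16 : ¬ Nonempty (graph moebiusKantor ≃g graph lcf16) := by
  rintro ⟨e⟩
  have h := T2_iso e
  rw [T2_name, T2_name] at h
  have h1 : val 6 ∈ {t | ∃ i ∈ idxL moebiusKantor, t = val i} := ⟨6, by decide, rfl⟩
  rw [h] at h1
  obtain ⟨i, hi, h2⟩ := h1
  have h3 := val_inj h2
  rw [← h3] at hi
  revert hi
  decide

/-- the thirteen graphs are pairwise non-isomorphic -/
theorem iso_unique {x y : Name} (h : Nonempty (graph x ≃g graph y)) : x = y := by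
  have hcard : (code x).1 = (code y).1 := by
    obtain ⟨e⟩ := h
    have := Fintype.card_congr e.toEquiv
    simpa using this
  have hmain : x = y ∨ (x = moebiusKantor ∧ y = lcf16) ∨ (x = lcf16 ∧ y = moebiusKantor) ∨
      (x = desargues ∧ y = desarguesMate) ∨ (x = desarguesMate ∧ y = desargues) := by
    clear h
    revert hcard
    cases x <;> cases y <;> decide
  rcases hmain with h1 | ⟨rfl, rfl⟩ | ⟨rfl, rfl⟩ | ⟨rfl, rfl⟩ | ⟨rfl, rfl⟩
  · exact h1
  · exact absurd h mk_not_lcf16
  · obtain ⟨e⟩ := h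
    exact absurd ⟨e.symm⟩ mk_not_lcf16
  · obtain ⟨e⟩ := h
    exact absurd ⟨e.symm⟩ desargues_not_mate
  · exact absurd h desargues_not_mate

end Pool.Agent.Helper727.Cub
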